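import Pool.Agent.RLA.Stmts

/-!
# All widths: the scaling induction (module ALW)
-/

set_option autoImplicit false

namespace Pool.Agent.RLA

open Finset Pool.Agent.BSR

namespace MALW

/-- comparison of weighted sums over a list of trees -/
theorem sum_le (Ts : List Tr) (f g : Tr → ℝ) (h : ∀ T ∈ Ts, f T ≤ g T) :
    (Ts.map fun T => (T.w : ℝ) * f T).sum ≤ (Ts.map fun T => (T.w : ℝ) * g T).sum := by
  apply List.sum_le_sum
  intro T hT
  exact mul_le_mul_of_nonneg_left (h T hT) (Nat.cast_nonneg _)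

/-- the factor one half -/
theorem sum_half (Ts : List Tr) (f : Tr → ℝ) :
    (Ts.map fun T => (T.w : ℝ) * (1 / 2 * f T)).sum =
      1 / 2 * (Ts.map fun T => (T.w : ℝ) * f T).sum := by
  induction Ts with
  | nil => simp
  | cons T r ih =>
    simp only [List.map_cons, List.sum_cons]
    rw [ih]
    ring

end MALW

theorem x_ALW (h_WNM : S_WNM) (h_SCA : S_SCA) : S_ALW := by
  intro Q P kn kd N Ts hQ hkd hN hTk hTN hCov m h s hm hmN hs hsm
  have hma : ∀ T ∈ Ts, m ≤ T.a * 2 ^ h := fun T hT =>
    hmN.trans (Nat.mul_le_mul_right _ (hTN T hT).1)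
  have hpos : ∀ T ∈ Ts, 0 < T.a := fun T hT => lt_of_lt_of_le hN (hTN T hT).1
  -- the widths above the threshold
  have key : ∀ s : ℕ, 1 ≤ s → s ≤ m → m < 4 * N * s → ∃ W : Tr → ℝ,
      (∀ T ∈ Ts, Wok T m h s (W T)) ∧
      (Ts.map fun T => (T.w : ℝ) * W T).sum ≤ P * ((kn : ℝ) / kd) * ((s : ℝ) / m) := by
    intro s hs hsm hlt
    obtain ⟨p, q, h1, h2, h3⟩ := hCov m s hlt hsm
    obtain ⟨h4, h5⟩ := h_WNM Q P kn kd Ts p q m h s hQ hkd hTk hm hs hsm hma h1 h2 h3
    exact ⟨fun T => (wn Q T p.1 p.2 : ℝ) / Q, h4, h5⟩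
  rcases lt_or_ge m (4 * N * s) with hlt | hge
  · exact key s hs hsm hlt
  · -- the sums below the threshold
    have hm' : (0 : ℝ) < m := by exact_mod_cast hm
    have ind : ∀ e s : ℕ, m - s ≤ e → 1 ≤ s → 4 * N * s ≤ m →
        (Ts.map fun T => (T.w : ℝ) * Sz m s T.a h).sum ≤
          P * ((kn : ℝ) / kd) * ((s : ℝ) / m) := by
      intro e
      induction e with
      | zero =>
        intro s h1 h2 h3
        exfalso
        have h4 : 4 * 1 * s ≤ 4 * N * s := by
          apply Nat.mul_le_mul_right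
          omega
        omega
      | succ e ih =>
        intro s h1 h2 h3
        have h4 : 4 * 1 * s ≤ 4 * N * s := by
          apply Nat.mul_le_mul_right
          omega
        have h5 : (Ts.map fun T => (T.w : ℝ) * Sz m s T.a h).sum ≤
            1 / 2 * (Ts.map fun T => (T.w : ℝ) * Sz m (2 * s) T.a h).sum := by
          rw [← MALW.sum_half]
          refine MALW.sum_le Ts (fun T => Sz m s T.a h) (fun T => 1 / 2 * Sz m (2 * s) T.a h) ?_
          intro T hT
          have h6 := (h_SCA m s T.a h hm (hpos T hT) h2 (hma T hT)).2.2.1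
          show Sz m s T.a h ≤ 1 / 2 * Sz m (2 * s) T.a h
          linarith
        have h7 : (Ts.map fun T => (T.w : ℝ) * Sz m (2 * s) T.a h).sum ≤
            P * ((kn : ℝ) / kd) * (((2 * s : ℕ) : ℝ) / m) := by
          rcases le_or_gt (4 * N * (2 * s)) m with h8 | h8
          · exact ih (2 * s) (by omega) (by omega) h8
          · obtain ⟨W, h9, h10⟩ := key (2 * s) (by omega) (by omega) h8
            refine le_trans ?_ h10
            refine MALW.sum_le Ts (fun T => Sz m (2 * s) T.a h) W ?_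
            intro T hT
            refine (h9 T hT).2.1 ?_
            have h11 := (hTN T hT).2
            calc 2 * s * T.a ≤ 2 * s * (2 * N) := Nat.mul_le_mul_left _ h11.le
              _ = 4 * N * s := by ring
              _ ≤ m := h3
        refine h5.trans ?_
        have h12 : (((2 * s : ℕ) : ℝ)) = 2 * (s : ℝ) := by push_cast; ring
        rw [h12] at h7
        have h13 : P * ((kn : ℝ) / kd) * (2 * (s : ℝ) / m) =
            2 * (P * ((kn : ℝ) / kd) * ((s : ℝ) / m)) := by ring
        rw [h13] at h7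
        linarith
    refine ⟨fun T => Sz m s T.a h, ?_, ind (m - s) s le_rfl hs hge⟩
    intro T hT
    have h1 := (h_SCA m s T.a h hm (hpos T hT) hs (hma T hT)).2.2.2
    have h2 : s * T.a ≤ m := by
      have h3 := (hTN T hT).2
      calc s * T.a ≤ s * (2 * N) := Nat.mul_le_mul_left _ h3.le
        _ ≤ 4 * N * s := by nlinarith [Nat.zero_le (N * s)]
        _ ≤ m := hge
    exact ⟨h1, fun _ => le_rfl, fun h3 => absurd h3 (not_lt.mpr h2)⟩

end Pool.Agent.RLA
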