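import Pool.Agent.RLA.Tree

/-!
# The breakpoints (MP_e25616_lc): data
-/

set_option autoImplicit false

namespace Pool.Agent.RLA

/-- breakpoints after `1/128` -/
def b00 : List (ℕ × ℕ) := [
  (1, 126), (1, 124), (1, 122), (1, 120), (1, 118), (1, 116), (1, 114), (1, 112), (1, 110),
  (1, 108), (1, 106), (1, 104), (1, 102), (1, 100), (1, 98), (1, 96), (1, 94), (1, 92), (1, 90),
  (1, 88), (1, 86), (1, 84), (1, 82), (1, 80), (1, 78), (1, 76), (1, 74), (1, 72), (1, 70),
  (1, 68), (1, 66), (1, 64), (1, 63), (1, 62), (1, 61), (1, 60), (1, 59), (1, 58), (1, 57),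
  (1, 56), (1, 55), (1, 54), (1, 53), (1, 52), (1, 51), (1, 50), (1, 49), (1, 48), (1, 47),
  (1, 46), (1, 45), (1, 44), (1, 43), (1, 42), (1, 41), (1, 40), (1, 39), (1, 38), (1, 37),
  (1, 36), (1, 35), (1, 34), (1, 33), (1, 32)]

/-- breakpoints after `1/32` -/
def b01 : List (ℕ × ℕ) := [
  (2, 63), (1, 31), (2, 61), (1, 30), (2, 59), (1, 29), (2, 57), (1, 28), (2, 55), (1, 27),
  (2, 53), (1, 26), (2, 51), (1, 25), (2, 49), (1, 24), (2, 47), (1, 23), (2, 45), (1, 22),
  (2, 43), (1, 21), (3, 62), (2, 41), (3, 61), (1, 20), (3, 59), (2, 39), (3, 58), (1, 19),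
  (3, 56), (2, 37), (3, 55), (1, 18), (3, 53), (2, 35), (3, 52), (1, 17), (3, 50), (2, 33),
  (3, 49), (1, 16), (4, 63), (3, 47), (2, 31), (3, 46), (4, 61), (1, 15), (4, 59), (3, 44),
  (2, 29), (3, 43), (4, 57), (1, 14), (4, 55), (3, 41), (2, 27), (3, 40), (4, 53), (1, 13),
  (4, 51), (3, 38), (5, 63), (2, 25)]

/-- breakpoints after `2/25` -/
def b02 : List (ℕ × ℕ) := [
  (5, 62), (3, 37), (4, 49), (5, 61), (1, 12), (5, 59), (4, 47), (3, 35), (5, 58), (2, 23),
  (5, 57), (3, 34), (4, 45), (5, 56), (1, 11), (5, 54), (4, 43), (3, 32), (5, 53), (2, 21),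
  (5, 52), (3, 31), (4, 41), (5, 51), (6, 61), (1, 10), (6, 59), (5, 49), (4, 39), (3, 29),
  (5, 48), (2, 19), (5, 47), (3, 28), (4, 37), (5, 46), (6, 55), (1, 9), (7, 62), (6, 53), (5, 44),
  (4, 35), (7, 61), (3, 26), (5, 43), (7, 60), (2, 17), (7, 59), (5, 42), (3, 25), (7, 58),
  (4, 33), (5, 41), (6, 49), (7, 57), (1, 8), (8, 63), (7, 55), (6, 47), (5, 39), (4, 31), (7, 54),
  (3, 23), (8, 61)]

/-- breakpoints after `8/61` -/
def b03 : List (ℕ × ℕ) := [
  (5, 38), (7, 53), (2, 15), (7, 52), (5, 37), (8, 59), (3, 22), (7, 51), (4, 29), (5, 36),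
  (6, 43), (7, 50), (8, 57), (1, 7), (9, 62), (8, 55), (7, 48), (6, 41), (5, 34), (9, 61), (4, 27),
  (7, 47), (3, 20), (8, 53), (5, 33), (7, 46), (9, 59), (2, 13), (9, 58), (7, 45), (5, 32),
  (8, 51), (3, 19), (10, 63), (7, 44), (4, 25), (9, 56), (5, 31), (6, 37), (7, 43), (8, 49),
  (9, 55), (10, 61), (1, 6), (10, 59), (9, 53), (8, 47), (7, 41), (6, 35), (5, 29), (9, 52),
  (4, 23), (11, 63), (7, 40), (10, 57), (3, 17), (11, 62), (8, 45), (5, 28), (7, 39), (9, 50),
  (11, 61), (2, 11), (11, 60)]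

/-- breakpoints after `11/60` -/
def b04 : List (ℕ × ℕ) := [
  (9, 49), (7, 38), (5, 27), (8, 43), (11, 59), (3, 16), (10, 53), (7, 37), (11, 58), (4, 21),
  (9, 47), (5, 26), (11, 57), (6, 31), (7, 36), (8, 41), (9, 46), (10, 51), (11, 56), (12, 61),
  (1, 5), (12, 59), (11, 54), (10, 49), (9, 44), (8, 39), (7, 34), (13, 63), (6, 29), (11, 53),
  (5, 24), (9, 43), (13, 62), (4, 19), (11, 52), (7, 33), (10, 47), (13, 61), (3, 14), (11, 51),
  (8, 37), (13, 60), (5, 23), (12, 55), (7, 32), (9, 41), (11, 50), (13, 59), (2, 9), (13, 58),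
  (11, 49), (9, 40), (7, 31), (12, 53), (5, 22), (13, 57), (8, 35), (11, 48), (14, 61), (3, 13),
  (13, 56), (10, 43), (7, 30), (11, 47)]

/-- breakpoints after `11/47` -/
def b05 : List (ℕ × ℕ) := [
  (4, 17), (13, 55), (9, 38), (14, 59), (5, 21), (11, 46), (6, 25), (13, 54), (7, 29), (15, 62),
  (8, 33), (9, 37), (10, 41), (11, 45), (12, 49), (13, 53), (14, 57), (15, 61), (1, 4), (16, 63),
  (15, 59), (14, 55), (13, 51), (12, 47), (11, 43), (10, 39), (9, 35), (8, 31), (15, 58), (7, 27),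
  (13, 50), (6, 23), (11, 42), (16, 61), (5, 19), (14, 53), (9, 34), (13, 49), (4, 15), (15, 56),
  (11, 41), (7, 26), (17, 63), (10, 37), (13, 48), (16, 59), (3, 11), (17, 62), (14, 51), (11, 40),
  (8, 29), (13, 47), (5, 18), (17, 61), (12, 43), (7, 25), (16, 57), (9, 32), (11, 39), (13, 46),
  (15, 53), (17, 60), (2, 7), (17, 59)]

/-- breakpoints after `17/59` -/
def b06 : List (ℕ × ℕ) := [
  (15, 52), (13, 45), (11, 38), (9, 31), (16, 55), (7, 24), (12, 41), (17, 58), (5, 17), (18, 61),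
  (13, 44), (8, 27), (11, 37), (14, 47), (17, 57), (3, 10), (19, 63), (16, 53), (13, 43), (10, 33),
  (17, 56), (7, 23), (18, 59), (11, 36), (15, 49), (19, 62), (4, 13), (17, 55), (13, 42), (9, 29),
  (14, 45), (19, 61), (5, 16), (16, 51), (11, 35), (17, 54), (6, 19), (19, 60), (13, 41), (20, 63),
  (7, 22), (15, 47), (8, 25), (17, 53), (9, 28), (19, 59), (10, 31), (11, 34), (12, 37), (13, 40),
  (14, 43), (15, 46), (16, 49), (17, 52), (18, 55), (19, 58), (20, 61), (1, 3), (21, 62), (20, 59),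
  (19, 56), (18, 53), (17, 50), (16, 47)]

/-- breakpoints after `16/47` -/
def b07 : List (ℕ × ℕ) := [
  (15, 44), (14, 41), (13, 38), (12, 35), (11, 32), (21, 61), (10, 29), (19, 55), (9, 26),
  (17, 49), (8, 23), (15, 43), (22, 63), (7, 20), (20, 57), (13, 37), (19, 54), (6, 17), (17, 48),
  (11, 31), (16, 45), (21, 59), (5, 14), (19, 53), (14, 39), (9, 25), (22, 61), (13, 36), (17, 47),
  (21, 58), (4, 11), (23, 63), (19, 52), (15, 41), (11, 30), (18, 49), (7, 19), (17, 46), (10, 27),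
  (23, 62), (13, 35), (16, 43), (19, 51), (22, 59), (3, 8), (23, 61), (20, 53), (17, 45), (14, 37),
  (11, 29), (19, 50), (8, 21), (21, 55), (13, 34), (18, 47), (23, 60), (5, 13), (22, 57), (17, 44),
  (12, 31), (19, 49), (7, 18), (23, 59), (16, 41)]

/-- breakpoints after `16/41` -/
def b08 : List (ℕ × ℕ) := [
  (9, 23), (20, 51), (11, 28), (24, 61), (13, 33), (15, 38), (17, 43), (19, 48), (21, 53),
  (23, 58), (25, 63), (2, 5), (25, 62), (23, 57), (21, 52), (19, 47), (17, 42), (15, 37), (13, 32),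
  (24, 59), (11, 27), (20, 49), (9, 22), (25, 61), (16, 39), (23, 56), (7, 17), (26, 63), (19, 46),
  (12, 29), (17, 41), (22, 53), (5, 12), (23, 55), (18, 43), (13, 31), (21, 50), (8, 19), (19, 45),
  (11, 26), (25, 59), (14, 33), (17, 40), (20, 47), (23, 54), (26, 61), (3, 7), (25, 58), (22, 51),
  (19, 44), (16, 37), (13, 30), (23, 53), (10, 23), (27, 62), (17, 39), (24, 55), (7, 16),
  (25, 57), (18, 41), (11, 25), (26, 59), (15, 34), (19, 43)]

/-- breakpoints after `19/43` -/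
def b09 : List (ℕ × ℕ) := [
  (23, 52), (27, 61), (4, 9), (25, 56), (21, 47), (17, 38), (13, 29), (22, 49), (9, 20), (23, 51),
  (14, 31), (19, 42), (24, 53), (5, 11), (26, 57), (21, 46), (16, 35), (27, 59), (11, 24),
  (28, 61), (17, 37), (23, 50), (29, 63), (6, 13), (25, 54), (19, 41), (13, 28), (20, 43),
  (27, 58), (7, 15), (29, 62), (22, 47), (15, 32), (23, 49), (8, 17), (25, 53), (17, 36), (26, 55),
  (9, 19), (28, 59), (19, 40), (29, 61), (10, 21), (21, 44), (11, 23), (23, 48), (12, 25),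
  (25, 52), (13, 27), (27, 56), (14, 29), (29, 60), (15, 31), (16, 33), (17, 35), (18, 37),
  (19, 39), (20, 41), (21, 43), (22, 45), (23, 47), (24, 49), (25, 51), (26, 53)]

/-- breakpoints after `26/53` -/
def b10 : List (ℕ × ℕ) := [
  (27, 55), (28, 57), (29, 59), (30, 61), (31, 63), (1, 2), (32, 63), (31, 61), (30, 59), (29, 57),
  (28, 55), (27, 53), (26, 51), (25, 49), (24, 47), (23, 45), (22, 43), (21, 41), (20, 39),
  (19, 37), (18, 35), (17, 33), (16, 31), (31, 60), (15, 29), (29, 56), (14, 27), (27, 52),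
  (13, 25), (25, 48), (12, 23), (23, 44), (11, 21), (32, 61), (21, 40), (31, 59), (10, 19),
  (29, 55), (19, 36), (28, 53), (9, 17), (26, 49), (17, 32), (25, 47), (33, 62), (8, 15), (31, 58),
  (23, 43), (15, 28), (22, 41), (29, 54), (7, 13), (34, 63), (27, 50), (20, 37), (33, 61),
  (13, 24), (32, 59), (19, 35), (25, 46), (31, 57), (6, 11), (29, 53), (23, 42)]

/-- breakpoints after `23/42` -/
def b11 : List (ℕ × ℕ) := [
  (17, 31), (28, 51), (11, 20), (27, 49), (16, 29), (21, 38), (26, 47), (31, 56), (5, 9), (34, 61),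
  (29, 52), (24, 43), (19, 34), (33, 59), (14, 25), (23, 41), (32, 57), (9, 16), (31, 55),
  (22, 39), (35, 62), (13, 23), (30, 53), (17, 30), (21, 37), (25, 44), (29, 51), (33, 58), (4, 7),
  (35, 61), (31, 54), (27, 47), (23, 40), (19, 33), (34, 59), (15, 26), (26, 45), (11, 19),
  (29, 50), (18, 31), (25, 43), (32, 55), (7, 12), (31, 53), (24, 41), (17, 29), (27, 46),
  (37, 63), (10, 17), (33, 56), (23, 39), (36, 61), (13, 22), (29, 49), (16, 27), (35, 59),
  (19, 32), (22, 37), (25, 42), (28, 47), (31, 52), (34, 57), (37, 62), (3, 5)]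

/-- breakpoints after `3/5` -/
def b12 : List (ℕ × ℕ) := [
  (38, 63), (35, 58), (32, 53), (29, 48), (26, 43), (23, 38), (20, 33), (37, 61), (17, 28),
  (31, 51), (14, 23), (25, 41), (36, 59), (11, 18), (30, 49), (19, 31), (27, 44), (35, 57),
  (8, 13), (37, 60), (29, 47), (21, 34), (34, 55), (13, 21), (31, 50), (18, 29), (23, 37),
  (28, 45), (33, 53), (38, 61), (5, 8), (37, 59), (32, 51), (27, 43), (22, 35), (39, 62), (17, 27),
  (29, 46), (12, 19), (31, 49), (19, 30), (26, 41), (33, 52), (40, 63), (7, 11), (37, 58),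
  (30, 47), (23, 36), (39, 61), (16, 25), (25, 39), (34, 53), (9, 14), (38, 59), (29, 45),
  (20, 31), (31, 48), (11, 17), (35, 54), (24, 37), (37, 57), (13, 20), (41, 63), (28, 43)]

/-- breakpoints after `28/43` -/
def b13 : List (ℕ × ℕ) := [
  (15, 23), (32, 49), (17, 26), (36, 55), (19, 29), (40, 61), (21, 32), (23, 35), (25, 38),
  (27, 41), (29, 44), (31, 47), (33, 50), (35, 53), (37, 56), (39, 59), (41, 62), (2, 3), (41, 61),
  (39, 58), (37, 55), (35, 52), (33, 49), (31, 46), (29, 43), (27, 40), (25, 37), (23, 34),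
  (21, 31), (40, 59), (19, 28), (36, 53), (17, 25), (32, 47), (15, 22), (43, 63), (28, 41),
  (41, 60), (13, 19), (37, 54), (24, 35), (35, 51), (11, 16), (42, 61), (31, 45), (20, 29),
  (29, 42), (38, 55), (9, 13), (43, 62), (34, 49), (25, 36), (41, 59), (16, 23), (39, 56),
  (23, 33), (30, 43), (37, 53), (44, 63), (7, 10), (40, 57), (33, 47), (26, 37), (19, 27)]

/-- breakpoints after `19/27` -/
def b14 : List (ℕ × ℕ) := [
  (31, 44), (43, 61), (12, 17), (41, 58), (29, 41), (17, 24), (39, 55), (22, 31), (27, 38),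
  (32, 45), (37, 52), (42, 59), (5, 7), (43, 60), (38, 53), (33, 46), (28, 39), (23, 32), (41, 57),
  (18, 25), (31, 43), (44, 61), (13, 18), (34, 47), (21, 29), (29, 40), (37, 51), (45, 62),
  (8, 11), (43, 59), (35, 48), (27, 37), (46, 63), (19, 26), (30, 41), (41, 56), (11, 15),
  (36, 49), (25, 34), (39, 53), (14, 19), (45, 61), (31, 42), (17, 23), (37, 50), (20, 27),
  (43, 58), (23, 31), (26, 35), (29, 39), (32, 43), (35, 47), (38, 51), (41, 55), (44, 59),
  (47, 63), (3, 4), (46, 61), (43, 57), (40, 53), (37, 49), (34, 45), (31, 41), (28, 37)]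

/-- breakpoints after `28/37` -/
def b15 : List (ℕ × ℕ) := [
  (25, 33), (47, 62), (22, 29), (41, 54), (19, 25), (35, 46), (16, 21), (45, 59), (29, 38),
  (42, 55), (13, 17), (36, 47), (23, 30), (33, 43), (43, 56), (10, 13), (47, 61), (37, 48),
  (27, 35), (44, 57), (17, 22), (41, 53), (24, 31), (31, 40), (38, 49), (45, 58), (7, 9), (46, 59),
  (39, 50), (32, 41), (25, 32), (43, 55), (18, 23), (47, 60), (29, 37), (40, 51), (11, 14),
  (48, 61), (37, 47), (26, 33), (41, 52), (15, 19), (49, 62), (34, 43), (19, 24), (42, 53),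
  (23, 29), (50, 63), (27, 34), (31, 39), (35, 44), (39, 49), (43, 54), (47, 59), (4, 5), (49, 61),
  (45, 56), (41, 51), (37, 46), (33, 41), (29, 36), (25, 31), (46, 57), (21, 26)]

/-- breakpoints after `21/26` -/
def b16 : List (ℕ × ℕ) := [
  (38, 47), (17, 21), (47, 58), (30, 37), (43, 53), (13, 16), (48, 59), (35, 43), (22, 27),
  (31, 38), (40, 49), (49, 60), (9, 11), (50, 61), (41, 50), (32, 39), (23, 28), (37, 45),
  (51, 62), (14, 17), (47, 57), (33, 40), (52, 63), (19, 23), (43, 52), (24, 29), (29, 35),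
  (34, 41), (39, 47), (44, 53), (49, 59), (5, 6), (51, 61), (46, 55), (41, 49), (36, 43), (31, 37),
  (26, 31), (47, 56), (21, 25), (37, 44), (53, 63), (16, 19), (43, 51), (27, 32), (38, 45),
  (49, 58), (11, 13), (50, 59), (39, 46), (28, 33), (45, 53), (17, 20), (40, 47), (23, 27),
  (52, 61), (29, 34), (35, 41), (41, 48), (47, 55), (53, 62), (6, 7), (49, 57), (43, 50)]

/-- breakpoints after `43/50` -/
def b17 : List (ℕ × ℕ) := [
  (37, 43), (31, 36), (25, 29), (44, 51), (19, 22), (51, 59), (32, 37), (45, 52), (13, 15),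
  (46, 53), (33, 38), (53, 61), (20, 23), (47, 54), (27, 31), (34, 39), (41, 47), (48, 55),
  (55, 63), (7, 8), (50, 57), (43, 49), (36, 41), (29, 33), (51, 58), (22, 25), (37, 42), (52, 59),
  (15, 17), (53, 60), (38, 43), (23, 26), (54, 61), (31, 35), (39, 44), (47, 53), (55, 62), (8, 9),
  (49, 55), (41, 46), (33, 37), (25, 28), (42, 47), (17, 19), (43, 48), (26, 29), (35, 39),
  (44, 49), (53, 59), (9, 10), (55, 61), (46, 51), (37, 41), (28, 31), (47, 52), (19, 21),
  (48, 53), (29, 32), (39, 43), (49, 54), (10, 11), (51, 56), (41, 45), (31, 34)]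

/-- breakpoints after `31/34` -/
def b18 : List (ℕ × ℕ) := [
  (52, 57), (21, 23), (53, 58), (32, 35), (43, 47), (54, 59), (11, 12), (56, 61), (45, 49),
  (34, 37), (57, 62), (23, 25), (58, 63), (35, 38), (47, 51), (12, 13), (49, 53), (37, 40),
  (25, 27), (38, 41), (51, 55), (13, 14), (53, 57), (40, 43), (27, 29), (41, 44), (55, 59),
  (14, 15), (57, 61), (43, 46), (29, 31), (44, 47), (59, 63), (15, 16), (46, 49), (31, 33),
  (47, 50), (16, 17), (49, 52), (33, 35), (50, 53), (17, 18), (52, 55), (35, 37), (53, 56),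
  (18, 19), (55, 58), (37, 39), (56, 59), (19, 20), (58, 61), (39, 41), (59, 62), (20, 21),
  (41, 43), (21, 22), (43, 45), (22, 23), (45, 47), (23, 24), (47, 49), (24, 25), (49, 51), (25, 26)]

/-- breakpoints after `25/26` -/
def b19 : List (ℕ × ℕ) := [
  (51, 53), (26, 27), (53, 55), (27, 28), (55, 57), (28, 29), (57, 59), (29, 30), (59, 61),
  (30, 31), (61, 63), (31, 32), (32, 33), (33, 34), (34, 35), (35, 36), (36, 37), (37, 38),
  (38, 39), (39, 40), (40, 41), (41, 42), (42, 43), (43, 44), (44, 45), (45, 46), (46, 47),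
  (47, 48), (48, 49), (49, 50), (50, 51), (51, 52), (52, 53), (53, 54), (54, 55), (55, 56),
  (56, 57), (57, 58), (58, 59), (59, 60), (60, 61), (61, 62), (62, 63), (1, 1)]

end Pool.Agent.RLA
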