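import Pool.Agent.RLA.Stmts

/-!
# Counting units by cells (MP_e25616_lc), module CEL, helper72
-/

set_option autoImplicit false

namespace Pool.Agent.RLA

open Finset Pool.Agent.BSR

namespace MCEL

theorem cells (a h : ℕ) (P : ℕ → Prop) [DecidablePred P] :
    ((range (a * 2 ^ h)).filter fun u => P (u / 2 ^ h)).card = ((range a).filter P).card * 2 ^ h := by
  have hp : 0 < 2 ^ h := by positivity
  induction a with
  | zero => simp
  | succ a ih =>
    have h1 : (range ((a + 1) * 2 ^ h)).filter (fun u => P (u / 2 ^ h)) =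
        ((range (a * 2 ^ h)).filter fun u => P (u / 2 ^ h)) ∪
          ((Ico (a * 2 ^ h) ((a + 1) * 2 ^ h)).filter fun u => P (u / 2 ^ h)) := by
      rw [← filter_union]
      congr 1
      ext u
      simp only [mem_union, mem_range, mem_Ico]
      constructor
      · intro hu
        by_cases h2 : u < a * 2 ^ h
        · exact Or.inl h2
        · exact Or.inr ⟨not_lt.1 h2, hu⟩
      · rintro (hu | hu)
        · exact lt_of_lt_of_le hu (Nat.mul_le_mul_right _ (Nat.le_succ a))
        · exact hu.2
    have hdis : Disjoint ((range (a * 2 ^ h)).filter fun u => P (u / 2 ^ h))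
        ((Ico (a * 2 ^ h) ((a + 1) * 2 ^ h)).filter fun u => P (u / 2 ^ h)) := by
      rw [Finset.disjoint_left]
      intro u hu hu'
      rw [mem_filter, mem_range] at hu
      rw [mem_filter, mem_Ico] at hu'
      exact absurd hu.1 (not_lt.2 hu'.1.1)
    have hdiv : ∀ u ∈ Ico (a * 2 ^ h) ((a + 1) * 2 ^ h), u / 2 ^ h = a := by
      intro u hu
      rw [mem_Ico] at hu
      exact Nat.div_eq_of_lt_le hu.1 hu.2
    rw [h1, card_union_of_disjoint hdis, ih, range_add_one, filter_insert]
    by_cases hP : P a
    · have h2 : (Ico (a * 2 ^ h) ((a + 1) * 2 ^ h)).filter (fun u => P (u / 2 ^ h)) =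
          Ico (a * 2 ^ h) ((a + 1) * 2 ^ h) := by
        rw [filter_eq_self]
        intro u hu
        rw [hdiv u hu]
        exact hP
      rw [h2, Nat.card_Ico, if_pos hP, card_insert_of_notMem (by simp)]
      rw [add_mul, one_mul, Nat.add_sub_cancel_left, add_mul, one_mul]
    · have h2 : (Ico (a * 2 ^ h) ((a + 1) * 2 ^ h)).filter (fun u => P (u / 2 ^ h)) = ∅ := by
        rw [filter_eq_empty_iff]
        intro u hu
        rw [hdiv u hu]
        exact hP
      rw [h2, card_empty, if_neg hP, add_zero]

end MCEL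

theorem x_CEL : S_CEL := by
  refine ⟨fun a h P _ => MCEL.cells a h P, ?_⟩
  intro C b l
  have hp : 0 < 2 ^ l := by positivity
  have h1 : (C.filter fun u => u / 2 ^ l = b) ⊆ Ico (b * 2 ^ l) ((b + 1) * 2 ^ l) := by
    intro u hu
    rw [mem_filter] at hu
    rw [mem_Ico]
    have h2 := hu.2
    rw [Nat.div_eq_iff hp] at h2
    constructor
    · omega
    · have : (b + 1) * 2 ^ l = b * 2 ^ l + 2 ^ l := by ring
      omega
  refine (card_le_card h1).trans ?_
  rw [Nat.card_Ico, add_mul, one_mul, Nat.add_sub_cancel_left]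

end Pool.Agent.RLA
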