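import Pool.Agent.RLA.Stmts

/-!
# The numbers of units (MP_e25616_lc, module CNT)
-/

set_option autoImplicit false

namespace Pool.Agent.RLA

open Finset Pool.Agent.BSR

namespace MCNT

/-- the level of a width is one of the levels of the tree -/
theorem kk_lt (h_LSB : S_LSB) (T : Tr) (m s : ℕ) (hT : Tk T) (hm : 0 < m) (hs : s ≤ m) :
    kk T m s < T.lv.length := by
  obtain ⟨-, h2, -⟩ := hT
  obtain ⟨-, -, -, -, -, -, -, h8, -⟩ := h_LSB m T.a 0 hm
  exact (h2 _ (Nat.lt_succ_of_le (h8 s hs))).1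

/-- the levels grow with the width -/
theorem kk_mono (h_LSB : S_LSB) (T : Tr) (m s s' : ℕ) (hm : 0 < m) (hs : s' ≤ s) :
    kk T m s' ≤ kk T m s := by
  obtain ⟨-, -, -, -, -, -, h7, -, h9⟩ := h_LSB m T.a 0 hm
  exact h9 _ _ _ (h7 s' s hs)

/-- the facts about the nodes of one level -/
theorem nodes (T : Tr) (hT : Tk T) (k : ℕ) (hk : k < T.lv.length) :
    (∀ I ∈ (lvl T k).nd, I.1 < I.2) ∧ (lvl T k).nd.Pairwise (fun I J => I.2 ≤ J.1) ∧
      (∀ I ∈ (lvl T k).nd, I.2 ≤ T.a) ∧ (∀ I ∈ (lvl T k).nd, sz I ≤ (lvl T k).mx) ∧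
      ((lvl T k).nd.map sz).sum = (lvl T k).tot ∧
      ∀ k' < k + 1, ∀ I ∈ (lvl T k).nd, Pk T k k' I := by
  obtain ⟨-, -, h3⟩ := hT
  obtain ⟨-, h4, h5, h6, h7⟩ := h3 k hk
  exact ⟨fun I hI => (h4 I hI).1, h5, fun I hI => (h4 I hI).2.2.1,
    fun I hI => (h4 I hI).2.2.2.1, h6, h7⟩

theorem Aw_large (T : Tr) (m h s : ℕ) (hs : m < s * T.a) :
    Aw T m h s = (range (T.a * 2 ^ h)).filter fun u => lab (nds T m s) (u / 2 ^ h) ≠ 0 := by
  unfold Aw
  rw [if_neg (not_le.mpr hs)]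

theorem Bw_large (T : Tr) (m h s u : ℕ) (hs : m < s * T.a) :
    Bw T m h s u = lab (nds T m s) (u / 2 ^ h) := by
  unfold Bw
  rw [if_neg (not_le.mpr hs)]

theorem Aw_sub (T : Tr) (m h s : ℕ) : Aw T m h s ⊆ range (T.a * 2 ^ h) := by
  unfold Aw
  split_ifs with h1
  · exact Subset.refl _
  · exact filter_subset _ _

/-- the node of a block -/
theorem node_of (h_LAB : S_LAB) (nd : List (ℕ × ℕ)) (h1 : ∀ I ∈ nd, I.1 < I.2)
    (h2 : nd.Pairwise (fun I J => I.2 ≤ J.1)) (b x₀ : ℕ) (hx : lab nd x₀ ≠ 0)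
    (hb : lab nd x₀ = b) : ∃ I ∈ nd, ∀ x, lab nd x = b → I.1 ≤ x ∧ x < I.2 := by
  obtain ⟨l1, -, -, l4, -⟩ := h_LAB nd h1 h2
  obtain ⟨I, hI, -, -, h5⟩ := l1 x₀ hx
  refine ⟨I, hI, fun x hxb => ?_⟩
  have hx0 : lab nd x ≠ 0 := by rw [hxb, ← hb, h5]; exact Nat.succ_ne_zero _
  obtain ⟨J, hJ, h6, h7, h8⟩ := l1 x hx0
  have h9 : J.1 = I.1 := by
    have : J.1 + 1 = I.1 + 1 := by rw [← h8, hxb, ← hb, h5]
    omega
  have h10 : J = I := l4 J hJ I hI I.1 (le_of_eq h9) (by rw [← h9]; exact h1 J hJ) le_rfl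
    (h1 I hI)
  rw [h10] at h6 h7
  exact ⟨h6, h7⟩

end MCNT

open MCNT in
theorem x_CNT (h_LAB : S_LAB) (h_LSB : S_LSB) (h_CEL : S_CEL) : S_CNT := by
  intro T m h hT hm
  obtain ⟨cel1, cel2⟩ := h_CEL
  refine ⟨?_, ?_, ?_⟩
  · intro s hs
    unfold Aw
    rw [if_pos hs, card_range]
  · intro s hsm hs
    obtain ⟨n1, n2, n3, -, n5, -⟩ := nodes T hT _ (kk_lt h_LSB T m s hT hm hsm)
    obtain ⟨-, -, -, -, l5⟩ := h_LAB _ n1 n2
    rw [Aw_large T m h s hs, cel1 T.a h (fun x => lab (nds T m s) x ≠ 0)]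
    unfold nds
    rw [(l5 T.a n3).1, n5]
  · intro s s' b hss hsm hb
    obtain ⟨u₀, hu₀, hub⟩ := hb
    refine ⟨?_, ?_, ?_⟩
    · intro hs
      have : ((Aw T m h s').filter fun u => Bw T m h s u = b)
          = (Aw T m h s').filter fun u => u / 2 ^ ls m s T.a h = b := by
        apply filter_congr
        intro u _
        unfold Bw
        rw [if_pos hs]
      rw [this]
      exact cel2 _ b _
    · intro hs
      obtain ⟨n1, n2, n3, n4, n5, -⟩ := nodes T hT _ (kk_lt h_LSB T m s hT hm hsm)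
      rw [Aw_large T m h s hs] at hu₀
      rw [Bw_large T m h s u₀ hs] at hub
      obtain ⟨I, hI, hI2⟩ := node_of h_LAB _ n1 n2 b (u₀ / 2 ^ h) (mem_filter.mp hu₀).2 hub
      have hsub : ((Aw T m h s').filter fun u => Bw T m h s u = b) ⊆
          (range (T.a * 2 ^ h)).filter fun u => I.1 ≤ u / 2 ^ h ∧ u / 2 ^ h < I.2 := by
        intro u hu
        rw [mem_filter] at hu
        refine mem_filter.mpr ⟨Aw_sub T m h s' hu.1, ?_⟩
        have h3 := hu.2
        rw [Bw_large T m h s u hs] at h3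
        exact hI2 _ h3
      refine (card_le_card hsub).trans ?_
      rw [cel1 T.a h (fun x => I.1 ≤ x ∧ x < I.2)]
      refine Nat.mul_le_mul_right _ ?_
      refine le_trans ?_ (n4 I hI)
      have hsub2 : ((range T.a).filter fun x => I.1 ≤ x ∧ x < I.2) ⊆ Ico I.1 I.2 := by
        intro x hx
        exact mem_Ico.mpr (mem_filter.mp hx).2
      refine (card_le_card hsub2).trans ?_
      rw [Nat.card_Ico]
      exact le_rfl
    · intro hs'
      have hs : m < s * T.a := lt_of_lt_of_le hs' (Nat.mul_le_mul_right _ hss)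
      have hkl := kk_lt h_LSB T m s hT hm hsm
      have hkl' := kk_lt h_LSB T m s' hT hm (hss.trans hsm)
      have hkk := kk_mono h_LSB T m s s' hm hss
      obtain ⟨n1, n2, n3, n4, n5, n6⟩ := nodes T hT _ hkl
      obtain ⟨k1, k2, k3, k4, k5, k6⟩ := nodes T hT _ hkl'
      rw [Aw_large T m h s hs] at hu₀
      rw [Bw_large T m h s u₀ hs] at hub
      obtain ⟨I, hI, hI2⟩ := node_of h_LAB _ n1 n2 b (u₀ / 2 ^ h) (mem_filter.mp hu₀).2 hub
      have hP := n6 (kk T m s') (Nat.lt_succ_of_le hkk) I hI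
      have hsub : ((Aw T m h s').filter fun u => Bw T m h s u = b) ⊆
          (range (T.a * 2 ^ h)).filter fun u =>
            (I.1 ≤ u / 2 ^ h ∧ u / 2 ^ h < I.2) ∧ lab (lvl T (kk T m s')).nd (u / 2 ^ h) ≠ 0 := by
        intro u hu
        rw [mem_filter] at hu
        refine mem_filter.mpr ⟨Aw_sub T m h s' hu.1, ?_, ?_⟩
        · have h3 := hu.2
          rw [Bw_large T m h s u hs] at h3
          exact hI2 _ h3
        · have h3 := hu.1
          rw [Aw_large T m h s' hs', mem_filter] at h3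
          exact h3.2
      refine (card_le_card hsub).trans ?_
      rw [cel1 T.a h (fun x => (I.1 ≤ x ∧ x < I.2) ∧ lab (lvl T (kk T m s')).nd x ≠ 0)]
      refine Nat.mul_le_mul_right _ ?_
      obtain ⟨-, -, -, -, l5⟩ := h_LAB _ k1 k2
      exact ((l5 T.a k3).2 I.1 I.2 hP.1).trans hP.2

end Pool.Agent.RLA
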