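import Pool.Agent.RLA.Dat

/-!
# The trees (MP_e25616_lc): check of the trees
-/

set_option autoImplicit false

namespace Pool.Agent.RLA

theorem tk_Ts : ∀ T ∈ Ts, Tk T := by decide +kernel

theorem a_Ts : ∀ T ∈ Ts, 32 ≤ T.a ∧ T.a < 2 * 32 := by decide +kernel

theorem w_Ts : (Ts.map fun T => T.w).sum = 100000 := by decide +kernel

end Pool.Agent.RLA
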