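import Pool.Agent.RLA.Dat
import Pool.Agent.RLA.Bps

/-!
# The breakpoints (MP_e25616_lc): check, part 1
-/

set_option autoImplicit false

namespace Pool.Agent.RLA

theorem w00 : walk 1000000 100000 147 100 Ts (1, 128) b00 = true := by decide +kernel

theorem e00 : lst (1, 128) b00 = (1, 32) := by decide +kernel

theorem w01 : walk 1000000 100000 147 100 Ts (1, 32) b01 = true := by decide +kernel

theorem e01 : lst (1, 32) b01 = (2, 25) := by decide +kernel

theorem w02 : walk 1000000 100000 147 100 Ts (2, 25) b02 = true := by decide +kernel

theorem e02 : lst (2, 25) b02 = (8, 61) := by decide +kernel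

theorem w03 : walk 1000000 100000 147 100 Ts (8, 61) b03 = true := by decide +kernel

theorem e03 : lst (8, 61) b03 = (11, 60) := by decide +kernel

end Pool.Agent.RLA
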