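import Pool.Agent.RLA.Dat
import Pool.Agent.RLA.Bps

/-!
# The breakpoints (MP_e25616_lc): check, part 2
-/

set_option autoImplicit false

namespace Pool.Agent.RLA

theorem w04 : walk 1000000 100000 147 100 Ts (11, 60) b04 = true := by decide +kernel

theorem e04 : lst (11, 60) b04 = (11, 47) := by decide +kernel

theorem w05 : walk 1000000 100000 147 100 Ts (11, 47) b05 = true := by decide +kernel

theorem e05 : lst (11, 47) b05 = (17, 59) := by decide +kernel

theorem w06 : walk 1000000 100000 147 100 Ts (17, 59) b06 = true := by decide +kernel

theorem e06 : lst (17, 59) b06 = (16, 47) := by decide +kernel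

theorem w07 : walk 1000000 100000 147 100 Ts (16, 47) b07 = true := by decide +kernel

theorem e07 : lst (16, 47) b07 = (16, 41) := by decide +kernel

end Pool.Agent.RLA
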