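import Pool.Agent.RLA.Dat
import Pool.Agent.RLA.Bps

/-!
# The breakpoints (MP_e25616_lc): check, part 3
-/

set_option autoImplicit false

namespace Pool.Agent.RLA

theorem w08 : walk 1000000 100000 147 100 Ts (16, 41) b08 = true := by decide +kernel

theorem e08 : lst (16, 41) b08 = (19, 43) := by decide +kernel

theorem w09 : walk 1000000 100000 147 100 Ts (19, 43) b09 = true := by decide +kernel

theorem e09 : lst (19, 43) b09 = (26, 53) := by decide +kernel

theorem w10 : walk 1000000 100000 147 100 Ts (26, 53) b10 = true := by decide +kernel

theorem e10 : lst (26, 53) b10 = (23, 42) := by decide +kernel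

theorem w11 : walk 1000000 100000 147 100 Ts (23, 42) b11 = true := by decide +kernel

theorem e11 : lst (23, 42) b11 = (3, 5) := by decide +kernel

end Pool.Agent.RLA
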