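import Pool.Agent.RLA.Dat
import Pool.Agent.RLA.Bps

/-!
# The breakpoints (MP_e25616_lc): check, part 4
-/

set_option autoImplicit false

namespace Pool.Agent.RLA

theorem w12 : walk 1000000 100000 147 100 Ts (3, 5) b12 = true := by decide +kernel

theorem e12 : lst (3, 5) b12 = (28, 43) := by decide +kernel

theorem w13 : walk 1000000 100000 147 100 Ts (28, 43) b13 = true := by decide +kernel

theorem e13 : lst (28, 43) b13 = (19, 27) := by decide +kernel

theorem w14 : walk 1000000 100000 147 100 Ts (19, 27) b14 = true := by decide +kernel

theorem e14 : lst (19, 27) b14 = (28, 37) := by decide +kernel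

theorem w15 : walk 1000000 100000 147 100 Ts (28, 37) b15 = true := by decide +kernel

theorem e15 : lst (28, 37) b15 = (21, 26) := by decide +kernel

end Pool.Agent.RLA
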