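import Pool.Agent.RLA.Dat
import Pool.Agent.RLA.Bps

/-!
# The breakpoints (MP_e25616_lc): check, part 5
-/

set_option autoImplicit false

namespace Pool.Agent.RLA

theorem w16 : walk 1000000 100000 147 100 Ts (21, 26) b16 = true := by decide +kernel

theorem e16 : lst (21, 26) b16 = (43, 50) := by decide +kernel

theorem w17 : walk 1000000 100000 147 100 Ts (43, 50) b17 = true := by decide +kernel

theorem e17 : lst (43, 50) b17 = (31, 34) := by decide +kernel

theorem w18 : walk 1000000 100000 147 100 Ts (31, 34) b18 = true := by decide +kernel

theorem e18 : lst (31, 34) b18 = (25, 26) := by decide +kernel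

theorem w19 : walk 1000000 100000 147 100 Ts (25, 26) b19 = true := by decide +kernel

theorem e19 : lst (25, 26) b19 = (1, 1) := by decide +kernel

end Pool.Agent.RLA
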