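import Pool.Agent.RLA.Tree

/-!
# The trees (MP_e25616_lc): data
-/

set_option autoImplicit false

namespace Pool.Agent.RLA

/-- sizes 1 2 4 8 16 -/
def T00 : Tr := ⟨32, 4599, [
  ⟨2, [(0, 2), (2, 4), (4, 6), (6, 8), (8, 10), (10, 12), (12, 14), (14, 16), (16, 18), (18, 20),
    (20, 22), (22, 24), (24, 26), (26, 28), (28, 30), (30, 32)], 2, 32, 2, [2]⟩,
  ⟨4, [(0, 4), (4, 8), (8, 12), (12, 16), (16, 20), (20, 24), (24, 28), (28, 32)], 4, 32, 4, [4,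
    4]⟩,
  ⟨8, [(0, 8), (8, 16), (16, 24), (24, 32)], 8, 32, 8, [8, 8, 8]⟩,
  ⟨16, [(0, 16), (16, 32)], 16, 32, 16, [16, 16, 16, 16]⟩,
  ⟨32, [(0, 32)], 32, 32, 32, [32, 32, 32, 32, 32]⟩]⟩

/-- sizes 1 2 4 8 16 17 -/
def T01 : Tr := ⟨33, 4260, [
  ⟨2, [(0, 2), (2, 4), (4, 6), (6, 8), (8, 10), (10, 12), (12, 14), (14, 16), (17, 19), (19, 21),
    (21, 23), (23, 25), (25, 27), (27, 29), (29, 31), (31, 33)], 2, 32, 2, [2]⟩,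
  ⟨4, [(0, 4), (4, 8), (8, 12), (12, 16), (17, 21), (21, 25), (25, 29), (29, 33)], 4, 32, 4, [4,
    4]⟩,
  ⟨8, [(0, 8), (8, 16), (17, 25), (25, 33)], 8, 32, 8, [8, 8, 8]⟩,
  ⟨16, [(0, 16), (17, 33)], 16, 32, 16, [16, 16, 16, 16]⟩,
  ⟨17, [(0, 17)], 17, 17, 17, [16, 16, 16, 16, 17]⟩,
  ⟨33, [(0, 33)], 33, 33, 33, [32, 32, 32, 32, 17, 33]⟩]⟩

/-- sizes 1 2 4 8 16 18 -/
def T02 : Tr := ⟨34, 4283, [
  ⟨2, [(0, 2), (2, 4), (4, 6), (6, 8), (8, 10), (10, 12), (12, 14), (14, 16), (16, 18), (18, 20),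
    (20, 22), (22, 24), (24, 26), (26, 28), (28, 30), (30, 32), (32, 34)], 2, 34, 2, [2]⟩,
  ⟨4, [(0, 4), (4, 8), (8, 12), (12, 16), (18, 22), (22, 26), (26, 30), (30, 34)], 4, 32, 4, [4,
    4]⟩,
  ⟨8, [(0, 8), (8, 16), (18, 26), (26, 34)], 8, 32, 8, [8, 8, 8]⟩,
  ⟨16, [(0, 16), (18, 34)], 16, 32, 16, [16, 16, 16, 16]⟩,
  ⟨18, [(0, 18)], 18, 18, 18, [18, 16, 16, 16, 18]⟩,
  ⟨34, [(0, 34)], 34, 34, 34, [34, 32, 32, 32, 18, 34]⟩]⟩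

/-- sizes 1 2 4 8 16 19 -/
def T03 : Tr := ⟨35, 3964, [
  ⟨2, [(0, 2), (2, 4), (4, 6), (6, 8), (8, 10), (10, 12), (12, 14), (14, 16), (16, 18), (19, 21),
    (21, 23), (23, 25), (25, 27), (27, 29), (29, 31), (31, 33), (33, 35)], 2, 34, 2, [2]⟩,
  ⟨3, [(0, 4), (4, 8), (8, 12), (12, 16), (16, 19), (19, 23), (23, 27), (27, 31), (31, 35)], 4,
    35, 3, [4, 4]⟩,
  ⟨4, [(0, 4), (4, 8), (8, 12), (12, 16), (19, 23), (23, 27), (27, 31), (31, 35)], 4, 32, 4, [4,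
    4, 4]⟩,
  ⟨8, [(0, 8), (8, 16), (19, 27), (27, 35)], 8, 32, 8, [8, 8, 8, 8]⟩,
  ⟨16, [(0, 16), (19, 35)], 16, 32, 16, [16, 16, 16, 16, 16]⟩,
  ⟨19, [(0, 19)], 19, 19, 19, [18, 19, 16, 16, 16, 19]⟩,
  ⟨35, [(0, 35)], 35, 35, 35, [34, 35, 32, 32, 32, 19, 35]⟩]⟩

/-- sizes 1 2 4 6 10 20 -/
def T04 : Tr := ⟨36, 1085, [
  ⟨2, [(0, 2), (2, 4), (4, 6), (6, 8), (8, 10), (10, 12), (12, 14), (14, 16), (16, 18), (18, 20),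
    (20, 22), (22, 24), (24, 26), (26, 28), (28, 30), (30, 32), (32, 34), (34, 36)], 2, 36, 2,
    [2]⟩,
  ⟨4, [(0, 4), (6, 10), (10, 14), (16, 20), (20, 24), (26, 30), (30, 34)], 4, 28, 4, [4, 4]⟩,
  ⟨6, [(0, 6), (10, 16), (20, 26), (30, 36)], 6, 24, 6, [6, 4, 6]⟩,
  ⟨10, [(0, 10), (10, 20), (20, 30)], 10, 30, 10, [10, 8, 6, 10]⟩,
  ⟨16, [(0, 20), (20, 36)], 20, 36, 16, [20, 16, 12, 20, 20]⟩,
  ⟨20, [(0, 20)], 20, 20, 20, [20, 16, 12, 20, 20, 20]⟩,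
  ⟨36, [(0, 36)], 36, 36, 36, [36, 28, 24, 30, 36, 20, 36]⟩]⟩

/-- sizes 1 2 4 8 16 20 -/
def T05 : Tr := ⟨36, 3404, [
  ⟨2, [(0, 2), (2, 4), (4, 6), (6, 8), (8, 10), (10, 12), (12, 14), (14, 16), (16, 18), (18, 20),
    (20, 22), (22, 24), (24, 26), (26, 28), (28, 30), (30, 32), (32, 34), (34, 36)], 2, 36, 2,
    [2]⟩,
  ⟨4, [(0, 4), (4, 8), (8, 12), (12, 16), (16, 20), (20, 24), (24, 28), (28, 32), (32, 36)], 4,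
    36, 4, [4, 4]⟩,
  ⟨8, [(0, 8), (8, 16), (20, 28), (28, 36)], 8, 32, 8, [8, 8, 8]⟩,
  ⟨16, [(0, 16), (20, 36)], 16, 32, 16, [16, 16, 16, 16]⟩,
  ⟨20, [(0, 20)], 20, 20, 20, [20, 20, 16, 16, 20]⟩,
  ⟨36, [(0, 36)], 36, 36, 36, [36, 36, 32, 32, 20, 36]⟩]⟩

/-- sizes 1 2 4 8 16 21 -/
def T06 : Tr := ⟨37, 3789, [
  ⟨2, [(0, 2), (2, 4), (4, 6), (6, 8), (8, 10), (10, 12), (12, 14), (14, 16), (16, 18), (18, 20),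
    (21, 23), (23, 25), (25, 27), (27, 29), (29, 31), (31, 33), (33, 35), (35, 37)], 2, 36, 2,
    [2]⟩,
  ⟨4, [(0, 4), (4, 8), (8, 12), (12, 16), (16, 20), (21, 25), (25, 29), (29, 33), (33, 37)], 4,
    36, 4, [4, 4]⟩,
  ⟨5, [(0, 8), (8, 16), (16, 21), (21, 29), (29, 37)], 8, 37, 5, [8, 8, 8]⟩,
  ⟨8, [(0, 8), (8, 16), (21, 29), (29, 37)], 8, 32, 8, [8, 8, 8, 8]⟩,
  ⟨16, [(0, 16), (21, 37)], 16, 32, 16, [16, 16, 16, 16, 16]⟩,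
  ⟨21, [(0, 21)], 21, 21, 21, [20, 20, 21, 16, 16, 21]⟩,
  ⟨37, [(0, 37)], 37, 37, 37, [36, 36, 37, 32, 32, 21, 37]⟩]⟩

/-- sizes 1 2 4 8 9 17 -/
def T07 : Tr := ⟨38, 1089, [
  ⟨2, [(0, 2), (2, 4), (4, 6), (6, 8), (9, 11), (11, 13), (13, 15), (15, 17), (17, 19), (19, 21),
    (21, 23), (23, 25), (26, 28), (28, 30), (30, 32), (32, 34), (34, 36), (36, 38)], 2, 36, 2,
    [2]⟩,
  ⟨4, [(0, 4), (4, 8), (9, 13), (13, 17), (17, 21), (21, 25), (26, 30), (30, 34), (34, 38)], 4,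
    36, 4, [4, 4]⟩,
  ⟨8, [(0, 8), (9, 17), (17, 25), (26, 34)], 8, 32, 8, [8, 8, 8]⟩,
  ⟨9, [(0, 9), (17, 26)], 9, 18, 9, [8, 8, 8, 9]⟩,
  ⟨17, [(0, 17), (17, 34)], 17, 34, 17, [16, 16, 16, 9, 17]⟩,
  ⟨38, [(0, 38)], 38, 38, 38, [36, 36, 32, 18, 34, 38]⟩]⟩

/-- sizes 1 2 4 8 16 22 -/
def T08 : Tr := ⟨38, 2614, [
  ⟨2, [(0, 2), (2, 4), (4, 6), (6, 8), (8, 10), (10, 12), (12, 14), (14, 16), (16, 18), (18, 20),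
    (20, 22), (22, 24), (24, 26), (26, 28), (28, 30), (30, 32), (32, 34), (34, 36), (36, 38)], 2,
    38, 2, [2]⟩,
  ⟨4, [(0, 4), (4, 8), (8, 12), (12, 16), (16, 20), (22, 26), (26, 30), (30, 34), (34, 38)], 4,
    36, 4, [4, 4]⟩,
  ⟨6, [(0, 8), (8, 16), (16, 22), (22, 30), (30, 38)], 8, 38, 6, [8, 8, 8]⟩,
  ⟨8, [(0, 8), (8, 16), (22, 30), (30, 38)], 8, 32, 8, [8, 8, 8, 8]⟩,
  ⟨16, [(0, 16), (22, 38)], 16, 32, 16, [16, 16, 16, 16, 16]⟩,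
  ⟨22, [(0, 22)], 22, 22, 22, [22, 20, 22, 16, 16, 22]⟩,
  ⟨38, [(0, 38)], 38, 38, 38, [38, 36, 38, 32, 32, 22, 38]⟩]⟩

/-- sizes 1 2 4 8 16 23 -/
def T09 : Tr := ⟨39, 3276, [
  ⟨2, [(0, 2), (2, 4), (4, 6), (6, 8), (8, 10), (10, 12), (12, 14), (14, 16), (16, 18), (18, 20),
    (20, 22), (23, 25), (25, 27), (27, 29), (29, 31), (31, 33), (33, 35), (35, 37), (37, 39)], 2,
    38, 2, [2]⟩,
  ⟨3, [(0, 4), (4, 8), (8, 12), (12, 16), (16, 20), (20, 23), (23, 27), (27, 31), (31, 35), (35,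
    39)], 4, 39, 3, [4, 4]⟩,
  ⟨4, [(0, 4), (4, 8), (8, 12), (12, 16), (16, 20), (23, 27), (27, 31), (31, 35), (35, 39)], 4,
    36, 4, [4, 4, 4]⟩,
  ⟨7, [(0, 8), (8, 16), (16, 23), (23, 31), (31, 39)], 8, 39, 7, [8, 8, 8, 8]⟩,
  ⟨8, [(0, 8), (8, 16), (23, 31), (31, 39)], 8, 32, 8, [8, 8, 8, 8, 8]⟩,
  ⟨16, [(0, 16), (23, 39)], 16, 32, 16, [16, 16, 16, 16, 16, 16]⟩,
  ⟨23, [(0, 23)], 23, 23, 23, [22, 23, 20, 23, 16, 16, 23]⟩,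
  ⟨39, [(0, 39)], 39, 39, 39, [38, 39, 36, 39, 32, 32, 23, 39]⟩]⟩

/-- sizes 1 2 4 8 16 24 -/
def T10 : Tr := ⟨40, 3629, [
  ⟨2, [(0, 2), (2, 4), (4, 6), (6, 8), (8, 10), (10, 12), (12, 14), (14, 16), (16, 18), (18, 20),
    (20, 22), (22, 24), (24, 26), (26, 28), (28, 30), (30, 32), (32, 34), (34, 36), (36, 38),
    (38, 40)], 2, 40, 2, [2]⟩,
  ⟨4, [(0, 4), (4, 8), (8, 12), (12, 16), (16, 20), (20, 24), (24, 28), (28, 32), (32, 36), (36,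
    40)], 4, 40, 4, [4, 4]⟩,
  ⟨8, [(0, 8), (8, 16), (16, 24), (24, 32), (32, 40)], 8, 40, 8, [8, 8, 8]⟩,
  ⟨16, [(0, 16), (24, 40)], 16, 32, 16, [16, 16, 16, 16]⟩,
  ⟨24, [(0, 24)], 24, 24, 24, [24, 24, 24, 16, 24]⟩,
  ⟨40, [(0, 40)], 40, 40, 40, [40, 40, 40, 32, 24, 40]⟩]⟩

/-- sizes 1 2 4 8 16 25 -/
def T11 : Tr := ⟨41, 3543, [
  ⟨2, [(0, 2), (2, 4), (4, 6), (6, 8), (8, 10), (10, 12), (12, 14), (14, 16), (16, 18), (18, 20),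
    (20, 22), (22, 24), (25, 27), (27, 29), (29, 31), (31, 33), (33, 35), (35, 37), (37, 39),
    (39, 41)], 2, 40, 2, [2]⟩,
  ⟨4, [(0, 4), (4, 8), (8, 12), (12, 16), (16, 20), (20, 24), (25, 29), (29, 33), (33, 37), (37,
    41)], 4, 40, 4, [4, 4]⟩,
  ⟨8, [(0, 8), (8, 16), (16, 24), (25, 33), (33, 41)], 8, 40, 8, [8, 8, 8]⟩,
  ⟨9, [(0, 16), (16, 25), (25, 41)], 16, 41, 9, [16, 16, 16, 16]⟩,
  ⟨16, [(0, 16), (25, 41)], 16, 32, 16, [16, 16, 16, 16, 16]⟩,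
  ⟨25, [(0, 25)], 25, 25, 25, [24, 24, 24, 25, 16, 25]⟩,
  ⟨41, [(0, 41)], 41, 41, 41, [40, 40, 40, 41, 32, 25, 41]⟩]⟩

/-- sizes 1 2 4 8 16 32 -/
def T12 : Tr := ⟨42, 3460, [
  ⟨2, [(0, 2), (2, 4), (4, 6), (6, 8), (8, 10), (10, 12), (12, 14), (14, 16), (16, 18), (18, 20),
    (20, 22), (22, 24), (24, 26), (26, 28), (28, 30), (30, 32), (32, 34), (34, 36), (36, 38),
    (38, 40), (40, 42)], 2, 42, 2, [2]⟩,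
  ⟨4, [(0, 4), (4, 8), (8, 12), (12, 16), (16, 20), (20, 24), (24, 28), (28, 32), (32, 36), (36,
    40)], 4, 40, 4, [4, 4]⟩,
  ⟨8, [(0, 8), (8, 16), (16, 24), (24, 32), (32, 40)], 8, 40, 8, [8, 8, 8]⟩,
  ⟨10, [(0, 16), (16, 32), (32, 42)], 16, 42, 10, [16, 16, 16, 16]⟩,
  ⟨16, [(0, 16), (16, 32)], 16, 32, 16, [16, 16, 16, 16, 16]⟩,
  ⟨32, [(0, 32)], 32, 32, 32, [32, 32, 32, 32, 32, 32]⟩,
  ⟨42, [(0, 42)], 42, 42, 42, [42, 40, 40, 42, 32, 32, 42]⟩]⟩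

/-- sizes 1 2 4 8 16 32 -/
def T13 : Tr := ⟨43, 3617, [
  ⟨2, [(0, 2), (2, 4), (4, 6), (6, 8), (8, 10), (10, 12), (12, 14), (14, 16), (16, 18), (18, 20),
    (20, 22), (22, 24), (24, 26), (26, 28), (28, 30), (30, 32), (32, 34), (34, 36), (36, 38),
    (38, 40), (40, 42)], 2, 42, 2, [2]⟩,
  ⟨3, [(0, 4), (4, 8), (8, 12), (12, 16), (16, 20), (20, 24), (24, 28), (28, 32), (32, 36), (36,
    40), (40, 43)], 4, 43, 3, [4, 4]⟩,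
  ⟨4, [(0, 4), (4, 8), (8, 12), (12, 16), (16, 20), (20, 24), (24, 28), (28, 32), (32, 36), (36,
    40)], 4, 40, 4, [4, 4, 4]⟩,
  ⟨8, [(0, 8), (8, 16), (16, 24), (24, 32), (32, 40)], 8, 40, 8, [8, 8, 8, 8]⟩,
  ⟨11, [(0, 16), (16, 32), (32, 43)], 16, 43, 11, [16, 16, 16, 16, 16]⟩,
  ⟨16, [(0, 16), (16, 32)], 16, 32, 16, [16, 16, 16, 16, 16, 16]⟩,
  ⟨32, [(0, 32)], 32, 32, 32, [32, 32, 32, 32, 32, 32, 32]⟩,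
  ⟨43, [(0, 43)], 43, 43, 43, [42, 43, 40, 40, 43, 32, 32, 43]⟩]⟩

/-- sizes 1 2 4 8 16 28 -/
def T14 : Tr := ⟨44, 2990, [
  ⟨2, [(0, 2), (2, 4), (4, 6), (6, 8), (8, 10), (10, 12), (12, 14), (14, 16), (16, 18), (18, 20),
    (20, 22), (22, 24), (24, 26), (26, 28), (28, 30), (30, 32), (32, 34), (34, 36), (36, 38),
    (38, 40), (40, 42), (42, 44)], 2, 44, 2, [2]⟩,
  ⟨4, [(0, 4), (4, 8), (8, 12), (12, 16), (16, 20), (20, 24), (24, 28), (28, 32), (32, 36), (36,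
    40), (40, 44)], 4, 44, 4, [4, 4]⟩,
  ⟨8, [(0, 8), (8, 16), (16, 24), (28, 36), (36, 44)], 8, 40, 8, [8, 8, 8]⟩,
  ⟨12, [(0, 16), (16, 28), (28, 44)], 16, 44, 12, [16, 16, 16, 16]⟩,
  ⟨16, [(0, 16), (28, 44)], 16, 32, 16, [16, 16, 16, 16, 16]⟩,
  ⟨28, [(0, 28)], 28, 28, 28, [28, 28, 24, 28, 16, 28]⟩,
  ⟨44, [(0, 44)], 44, 44, 44, [44, 44, 40, 44, 32, 28, 44]⟩]⟩

/-- sizes 1 2 4 8 16 29 -/
def T15 : Tr := ⟨45, 3119, [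
  ⟨2, [(0, 2), (2, 4), (4, 6), (6, 8), (8, 10), (10, 12), (12, 14), (14, 16), (16, 18), (18, 20),
    (20, 22), (22, 24), (24, 26), (26, 28), (29, 31), (31, 33), (33, 35), (35, 37), (37, 39),
    (39, 41), (41, 43), (43, 45)], 2, 44, 2, [2]⟩,
  ⟨4, [(0, 4), (4, 8), (8, 12), (12, 16), (16, 20), (20, 24), (24, 28), (29, 33), (33, 37), (37,
    41), (41, 45)], 4, 44, 4, [4, 4]⟩,
  ⟨5, [(0, 8), (8, 16), (16, 24), (24, 29), (29, 37), (37, 45)], 8, 45, 5, [8, 8, 8]⟩,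
  ⟨8, [(0, 8), (8, 16), (16, 24), (29, 37), (37, 45)], 8, 40, 8, [8, 8, 8, 8]⟩,
  ⟨13, [(0, 16), (16, 29), (29, 45)], 16, 45, 13, [16, 16, 16, 16, 16]⟩,
  ⟨16, [(0, 16), (29, 45)], 16, 32, 16, [16, 16, 16, 16, 16, 16]⟩,
  ⟨29, [(0, 29)], 29, 29, 29, [28, 28, 29, 24, 29, 16, 29]⟩,
  ⟨45, [(0, 45)], 45, 45, 45, [44, 44, 45, 40, 45, 32, 29, 45]⟩]⟩

/-- sizes 1 2 4 8 10 18 36 -/
def T16 : Tr := ⟨46, 1272, [
  ⟨2, [(0, 2), (2, 4), (4, 6), (6, 8), (8, 10), (10, 12), (12, 14), (14, 16), (16, 18), (18, 20),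
    (20, 22), (22, 24), (24, 26), (26, 28), (28, 30), (30, 32), (32, 34), (34, 36), (36, 38),
    (38, 40), (40, 42), (42, 44), (44, 46)], 2, 46, 2, [2]⟩,
  ⟨4, [(0, 4), (4, 8), (10, 14), (14, 18), (18, 22), (22, 26), (28, 32), (32, 36), (36, 40), (40,
    44)], 4, 40, 4, [4, 4]⟩,
  ⟨8, [(0, 8), (10, 18), (18, 26), (28, 36), (36, 44)], 8, 40, 8, [8, 8, 8]⟩,
  ⟨10, [(0, 10), (18, 28), (36, 46)], 10, 30, 10, [10, 8, 8, 10]⟩,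
  ⟨18, [(0, 18), (18, 36)], 18, 36, 18, [18, 16, 16, 10, 18]⟩,
  ⟨36, [(0, 36)], 36, 36, 36, [36, 32, 32, 20, 36, 36]⟩,
  ⟨46, [(0, 46)], 46, 46, 46, [46, 40, 40, 30, 36, 36, 46]⟩]⟩

/-- sizes 1 2 4 8 16 30 -/
def T17 : Tr := ⟨46, 2288, [
  ⟨2, [(0, 2), (2, 4), (4, 6), (6, 8), (8, 10), (10, 12), (12, 14), (14, 16), (16, 18), (18, 20),
    (20, 22), (22, 24), (24, 26), (26, 28), (28, 30), (30, 32), (32, 34), (34, 36), (36, 38),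
    (38, 40), (40, 42), (42, 44), (44, 46)], 2, 46, 2, [2]⟩,
  ⟨4, [(0, 4), (4, 8), (8, 12), (12, 16), (16, 20), (20, 24), (24, 28), (30, 34), (34, 38), (38,
    42), (42, 46)], 4, 44, 4, [4, 4]⟩,
  ⟨6, [(0, 8), (8, 16), (16, 24), (24, 30), (30, 38), (38, 46)], 8, 46, 6, [8, 8, 8]⟩,
  ⟨8, [(0, 8), (8, 16), (16, 24), (30, 38), (38, 46)], 8, 40, 8, [8, 8, 8, 8]⟩,
  ⟨14, [(0, 16), (16, 30), (30, 46)], 16, 46, 14, [16, 16, 16, 16, 16]⟩,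
  ⟨16, [(0, 16), (30, 46)], 16, 32, 16, [16, 16, 16, 16, 16, 16]⟩,
  ⟨30, [(0, 30)], 30, 30, 30, [30, 28, 30, 24, 30, 16, 30]⟩,
  ⟨46, [(0, 46)], 46, 46, 46, [46, 44, 46, 40, 46, 32, 30, 46]⟩]⟩

/-- sizes 1 2 4 8 16 31 -/
def T18 : Tr := ⟨47, 2717, [
  ⟨2, [(0, 2), (2, 4), (4, 6), (6, 8), (8, 10), (10, 12), (12, 14), (14, 16), (16, 18), (18, 20),
    (20, 22), (22, 24), (24, 26), (26, 28), (28, 30), (31, 33), (33, 35), (35, 37), (37, 39),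
    (39, 41), (41, 43), (43, 45), (45, 47)], 2, 46, 2, [2]⟩,
  ⟨3, [(0, 4), (4, 8), (8, 12), (12, 16), (16, 20), (20, 24), (24, 28), (28, 31), (31, 35), (35,
    39), (39, 43), (43, 47)], 4, 47, 3, [4, 4]⟩,
  ⟨4, [(0, 4), (4, 8), (8, 12), (12, 16), (16, 20), (20, 24), (24, 28), (31, 35), (35, 39), (39,
    43), (43, 47)], 4, 44, 4, [4, 4, 4]⟩,
  ⟨7, [(0, 8), (8, 16), (16, 24), (24, 31), (31, 39), (39, 47)], 8, 47, 7, [8, 8, 8, 8]⟩,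
  ⟨8, [(0, 8), (8, 16), (16, 24), (31, 39), (39, 47)], 8, 40, 8, [8, 8, 8, 8, 8]⟩,
  ⟨15, [(0, 16), (16, 31), (31, 47)], 16, 47, 15, [16, 16, 16, 16, 16, 16]⟩,
  ⟨16, [(0, 16), (31, 47)], 16, 32, 16, [16, 16, 16, 16, 16, 16, 16]⟩,
  ⟨31, [(0, 31)], 31, 31, 31, [30, 31, 28, 31, 24, 31, 16, 31]⟩,
  ⟨47, [(0, 47)], 47, 47, 47, [46, 47, 44, 47, 40, 47, 32, 31, 47]⟩]⟩

/-- sizes 1 2 4 8 16 32 -/
def T19 : Tr := ⟨48, 3127, [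
  ⟨2, [(0, 2), (2, 4), (4, 6), (6, 8), (8, 10), (10, 12), (12, 14), (14, 16), (16, 18), (18, 20),
    (20, 22), (22, 24), (24, 26), (26, 28), (28, 30), (30, 32), (32, 34), (34, 36), (36, 38),
    (38, 40), (40, 42), (42, 44), (44, 46), (46, 48)], 2, 48, 2, [2]⟩,
  ⟨4, [(0, 4), (4, 8), (8, 12), (12, 16), (16, 20), (20, 24), (24, 28), (28, 32), (32, 36), (36,
    40), (40, 44), (44, 48)], 4, 48, 4, [4, 4]⟩,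
  ⟨8, [(0, 8), (8, 16), (16, 24), (24, 32), (32, 40), (40, 48)], 8, 48, 8, [8, 8, 8]⟩,
  ⟨16, [(0, 16), (16, 32), (32, 48)], 16, 48, 16, [16, 16, 16, 16]⟩,
  ⟨32, [(0, 32)], 32, 32, 32, [32, 32, 32, 32, 32]⟩,
  ⟨48, [(0, 48)], 48, 48, 48, [48, 48, 48, 48, 32, 48]⟩]⟩

/-- sizes 1 2 4 8 16 32 -/
def T20 : Tr := ⟨49, 2489, [
  ⟨2, [(0, 2), (2, 4), (4, 6), (6, 8), (8, 10), (10, 12), (12, 14), (14, 16), (16, 18), (18, 20),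
    (20, 22), (22, 24), (24, 26), (26, 28), (28, 30), (30, 32), (32, 34), (34, 36), (36, 38),
    (38, 40), (40, 42), (42, 44), (44, 46), (46, 48)], 2, 48, 2, [2]⟩,
  ⟨4, [(0, 4), (4, 8), (8, 12), (12, 16), (16, 20), (20, 24), (24, 28), (28, 32), (32, 36), (36,
    40), (40, 44), (44, 48)], 4, 48, 4, [4, 4]⟩,
  ⟨8, [(0, 8), (8, 16), (16, 24), (24, 32), (32, 40), (40, 48)], 8, 48, 8, [8, 8, 8]⟩,
  ⟨16, [(0, 16), (16, 32), (32, 48)], 16, 48, 16, [16, 16, 16, 16]⟩,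
  ⟨17, [(0, 32), (32, 49)], 32, 49, 17, [32, 32, 32, 32, 32]⟩,
  ⟨32, [(0, 32)], 32, 32, 32, [32, 32, 32, 32, 32, 32]⟩,
  ⟨49, [(0, 49)], 49, 49, 49, [48, 48, 48, 48, 49, 32, 49]⟩]⟩

/-- sizes 1 2 4 8 16 32 -/
def T21 : Tr := ⟨50, 2974, [
  ⟨2, [(0, 2), (2, 4), (4, 6), (6, 8), (8, 10), (10, 12), (12, 14), (14, 16), (16, 18), (18, 20),
    (20, 22), (22, 24), (24, 26), (26, 28), (28, 30), (30, 32), (32, 34), (34, 36), (36, 38),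
    (38, 40), (40, 42), (42, 44), (44, 46), (46, 48), (48, 50)], 2, 50, 2, [2]⟩,
  ⟨4, [(0, 4), (4, 8), (8, 12), (12, 16), (16, 20), (20, 24), (24, 28), (28, 32), (32, 36), (36,
    40), (40, 44), (44, 48)], 4, 48, 4, [4, 4]⟩,
  ⟨8, [(0, 8), (8, 16), (16, 24), (24, 32), (32, 40), (40, 48)], 8, 48, 8, [8, 8, 8]⟩,
  ⟨16, [(0, 16), (16, 32), (32, 48)], 16, 48, 16, [16, 16, 16, 16]⟩,
  ⟨18, [(0, 32), (32, 50)], 32, 50, 18, [32, 32, 32, 32, 32]⟩,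
  ⟨32, [(0, 32)], 32, 32, 32, [32, 32, 32, 32, 32, 32]⟩,
  ⟨50, [(0, 50)], 50, 50, 50, [50, 48, 48, 48, 50, 32, 50]⟩]⟩

/-- sizes 1 2 4 8 16 32 -/
def T22 : Tr := ⟨51, 2830, [
  ⟨2, [(0, 2), (2, 4), (4, 6), (6, 8), (8, 10), (10, 12), (12, 14), (14, 16), (16, 18), (18, 20),
    (20, 22), (22, 24), (24, 26), (26, 28), (28, 30), (30, 32), (32, 34), (34, 36), (36, 38),
    (38, 40), (40, 42), (42, 44), (44, 46), (46, 48), (48, 50)], 2, 50, 2, [2]⟩,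
  ⟨3, [(0, 4), (4, 8), (8, 12), (12, 16), (16, 20), (20, 24), (24, 28), (28, 32), (32, 36), (36,
    40), (40, 44), (44, 48), (48, 51)], 4, 51, 3, [4, 4]⟩,
  ⟨4, [(0, 4), (4, 8), (8, 12), (12, 16), (16, 20), (20, 24), (24, 28), (28, 32), (32, 36), (36,
    40), (40, 44), (44, 48)], 4, 48, 4, [4, 4, 4]⟩,
  ⟨8, [(0, 8), (8, 16), (16, 24), (24, 32), (32, 40), (40, 48)], 8, 48, 8, [8, 8, 8, 8]⟩,
  ⟨16, [(0, 16), (16, 32), (32, 48)], 16, 48, 16, [16, 16, 16, 16, 16]⟩,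
  ⟨19, [(0, 32), (32, 51)], 32, 51, 19, [32, 32, 32, 32, 32, 32]⟩,
  ⟨32, [(0, 32)], 32, 32, 32, [32, 32, 32, 32, 32, 32, 32]⟩,
  ⟨51, [(0, 51)], 51, 51, 51, [50, 51, 48, 48, 48, 51, 32, 51]⟩]⟩

/-- sizes 1 2 4 8 16 32 -/
def T23 : Tr := ⟨52, 2930, [
  ⟨2, [(0, 2), (2, 4), (4, 6), (6, 8), (8, 10), (10, 12), (12, 14), (14, 16), (16, 18), (18, 20),
    (20, 22), (22, 24), (24, 26), (26, 28), (28, 30), (30, 32), (32, 34), (34, 36), (36, 38),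
    (38, 40), (40, 42), (42, 44), (44, 46), (46, 48), (48, 50), (50, 52)], 2, 52, 2, [2]⟩,
  ⟨4, [(0, 4), (4, 8), (8, 12), (12, 16), (16, 20), (20, 24), (24, 28), (28, 32), (32, 36), (36,
    40), (40, 44), (44, 48), (48, 52)], 4, 52, 4, [4, 4]⟩,
  ⟨8, [(0, 8), (8, 16), (16, 24), (24, 32), (32, 40), (40, 48)], 8, 48, 8, [8, 8, 8]⟩,
  ⟨16, [(0, 16), (16, 32), (32, 48)], 16, 48, 16, [16, 16, 16, 16]⟩,
  ⟨20, [(0, 32), (32, 52)], 32, 52, 20, [32, 32, 32, 32, 32]⟩,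
  ⟨32, [(0, 32)], 32, 32, 32, [32, 32, 32, 32, 32, 32]⟩,
  ⟨52, [(0, 52)], 52, 52, 52, [52, 52, 48, 48, 52, 32, 52]⟩]⟩

/-- sizes 1 2 4 8 16 32 -/
def T24 : Tr := ⟨53, 2760, [
  ⟨2, [(0, 2), (2, 4), (4, 6), (6, 8), (8, 10), (10, 12), (12, 14), (14, 16), (16, 18), (18, 20),
    (20, 22), (22, 24), (24, 26), (26, 28), (28, 30), (30, 32), (32, 34), (34, 36), (36, 38),
    (38, 40), (40, 42), (42, 44), (44, 46), (46, 48), (48, 50), (50, 52)], 2, 52, 2, [2]⟩,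
  ⟨4, [(0, 4), (4, 8), (8, 12), (12, 16), (16, 20), (20, 24), (24, 28), (28, 32), (32, 36), (36,
    40), (40, 44), (44, 48), (48, 52)], 4, 52, 4, [4, 4]⟩,
  ⟨5, [(0, 8), (8, 16), (16, 24), (24, 32), (32, 40), (40, 48), (48, 53)], 8, 53, 5, [8, 8, 8]⟩,
  ⟨8, [(0, 8), (8, 16), (16, 24), (24, 32), (32, 40), (40, 48)], 8, 48, 8, [8, 8, 8, 8]⟩,
  ⟨16, [(0, 16), (16, 32), (32, 48)], 16, 48, 16, [16, 16, 16, 16, 16]⟩,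
  ⟨21, [(0, 32), (32, 53)], 32, 53, 21, [32, 32, 32, 32, 32, 32]⟩,
  ⟨32, [(0, 32)], 32, 32, 32, [32, 32, 32, 32, 32, 32, 32]⟩,
  ⟨53, [(0, 53)], 53, 53, 53, [52, 52, 53, 48, 48, 53, 32, 53]⟩]⟩

/-- sizes 1 2 4 8 16 32 -/
def T25 : Tr := ⟨54, 2367, [
  ⟨2, [(0, 2), (2, 4), (4, 6), (6, 8), (8, 10), (10, 12), (12, 14), (14, 16), (16, 18), (18, 20),
    (20, 22), (22, 24), (24, 26), (26, 28), (28, 30), (30, 32), (32, 34), (34, 36), (36, 38),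
    (38, 40), (40, 42), (42, 44), (44, 46), (46, 48), (48, 50), (50, 52), (52, 54)], 2, 54, 2,
    [2]⟩,
  ⟨4, [(0, 4), (4, 8), (8, 12), (12, 16), (16, 20), (20, 24), (24, 28), (28, 32), (32, 36), (36,
    40), (40, 44), (44, 48), (48, 52)], 4, 52, 4, [4, 4]⟩,
  ⟨6, [(0, 8), (8, 16), (16, 24), (24, 32), (32, 40), (40, 48), (48, 54)], 8, 54, 6, [8, 8, 8]⟩,
  ⟨8, [(0, 8), (8, 16), (16, 24), (24, 32), (32, 40), (40, 48)], 8, 48, 8, [8, 8, 8, 8]⟩,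
  ⟨16, [(0, 16), (16, 32), (32, 48)], 16, 48, 16, [16, 16, 16, 16, 16]⟩,
  ⟨22, [(0, 32), (32, 54)], 32, 54, 22, [32, 32, 32, 32, 32, 32]⟩,
  ⟨32, [(0, 32)], 32, 32, 32, [32, 32, 32, 32, 32, 32, 32]⟩,
  ⟨54, [(0, 54)], 54, 54, 54, [54, 52, 54, 48, 48, 54, 32, 54]⟩]⟩

/-- sizes 1 2 4 8 16 20 36 -/
def T26 : Tr := ⟨55, 2390, [
  ⟨2, [(0, 2), (2, 4), (4, 6), (6, 8), (8, 10), (10, 12), (12, 14), (14, 16), (16, 18), (18, 20),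
    (20, 22), (22, 24), (24, 26), (26, 28), (28, 30), (30, 32), (32, 34), (34, 36), (36, 38),
    (38, 40), (40, 42), (42, 44), (44, 46), (46, 48), (48, 50), (50, 52), (52, 54)], 2, 54, 2,
    [2]⟩,
  ⟨3, [(0, 4), (4, 8), (8, 12), (12, 16), (16, 20), (20, 24), (24, 28), (28, 32), (32, 36), (36,
    40), (40, 44), (44, 48), (48, 52), (52, 55)], 4, 55, 3, [4, 4]⟩,
  ⟨4, [(0, 4), (4, 8), (8, 12), (12, 16), (16, 20), (20, 24), (24, 28), (28, 32), (32, 36), (36,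
    40), (40, 44), (44, 48), (48, 52)], 4, 52, 4, [4, 4, 4]⟩,
  ⟨8, [(0, 8), (8, 16), (20, 28), (28, 36), (36, 44), (44, 52)], 8, 48, 8, [8, 8, 8, 8]⟩,
  ⟨16, [(0, 16), (20, 36), (36, 52)], 16, 48, 16, [16, 16, 16, 16, 16]⟩,
  ⟨19, [(0, 20), (36, 55)], 20, 39, 19, [20, 20, 20, 16, 16, 20]⟩,
  ⟨20, [(0, 20)], 20, 20, 20, [20, 20, 20, 16, 16, 20, 20]⟩,
  ⟨36, [(0, 36)], 36, 36, 36, [36, 36, 36, 32, 32, 20, 20, 36]⟩,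
  ⟨55, [(0, 55)], 55, 55, 55, [54, 55, 52, 48, 48, 39, 20, 36, 55]⟩]⟩

/-- sizes 1 2 4 8 16 32 -/
def T27 : Tr := ⟨56, 2645, [
  ⟨2, [(0, 2), (2, 4), (4, 6), (6, 8), (8, 10), (10, 12), (12, 14), (14, 16), (16, 18), (18, 20),
    (20, 22), (22, 24), (24, 26), (26, 28), (28, 30), (30, 32), (32, 34), (34, 36), (36, 38),
    (38, 40), (40, 42), (42, 44), (44, 46), (46, 48), (48, 50), (50, 52), (52, 54), (54, 56)], 2,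
    56, 2, [2]⟩,
  ⟨4, [(0, 4), (4, 8), (8, 12), (12, 16), (16, 20), (20, 24), (24, 28), (28, 32), (32, 36), (36,
    40), (40, 44), (44, 48), (48, 52), (52, 56)], 4, 56, 4, [4, 4]⟩,
  ⟨8, [(0, 8), (8, 16), (16, 24), (24, 32), (32, 40), (40, 48), (48, 56)], 8, 56, 8, [8, 8, 8]⟩,
  ⟨16, [(0, 16), (16, 32), (32, 48)], 16, 48, 16, [16, 16, 16, 16]⟩,
  ⟨24, [(0, 32), (32, 56)], 32, 56, 24, [32, 32, 32, 32, 32]⟩,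
  ⟨32, [(0, 32)], 32, 32, 32, [32, 32, 32, 32, 32, 32]⟩,
  ⟨56, [(0, 56)], 56, 56, 56, [56, 56, 56, 48, 56, 32, 56]⟩]⟩

/-- sizes 1 2 4 8 16 32 -/
def T28 : Tr := ⟨57, 2603, [
  ⟨2, [(0, 2), (2, 4), (4, 6), (6, 8), (8, 10), (10, 12), (12, 14), (14, 16), (16, 18), (18, 20),
    (20, 22), (22, 24), (24, 26), (26, 28), (28, 30), (30, 32), (32, 34), (34, 36), (36, 38),
    (38, 40), (40, 42), (42, 44), (44, 46), (46, 48), (48, 50), (50, 52), (52, 54), (54, 56)], 2,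
    56, 2, [2]⟩,
  ⟨4, [(0, 4), (4, 8), (8, 12), (12, 16), (16, 20), (20, 24), (24, 28), (28, 32), (32, 36), (36,
    40), (40, 44), (44, 48), (48, 52), (52, 56)], 4, 56, 4, [4, 4]⟩,
  ⟨8, [(0, 8), (8, 16), (16, 24), (24, 32), (32, 40), (40, 48), (48, 56)], 8, 56, 8, [8, 8, 8]⟩,
  ⟨9, [(0, 16), (16, 32), (32, 48), (48, 57)], 16, 57, 9, [16, 16, 16, 16]⟩,
  ⟨16, [(0, 16), (16, 32), (32, 48)], 16, 48, 16, [16, 16, 16, 16, 16]⟩,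
  ⟨25, [(0, 32), (32, 57)], 32, 57, 25, [32, 32, 32, 32, 32, 32]⟩,
  ⟨32, [(0, 32)], 32, 32, 32, [32, 32, 32, 32, 32, 32, 32]⟩,
  ⟨57, [(0, 57)], 57, 57, 57, [56, 56, 56, 57, 48, 57, 32, 57]⟩]⟩

/-- sizes 1 2 4 8 16 17 33 -/
def T29 : Tr := ⟨58, 3681, [
  ⟨2, [(0, 2), (2, 4), (4, 6), (6, 8), (8, 10), (10, 12), (12, 14), (14, 16), (17, 19), (19, 21),
    (21, 23), (23, 25), (25, 27), (27, 29), (29, 31), (31, 33), (33, 35), (35, 37), (37, 39),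
    (39, 41), (41, 43), (43, 45), (45, 47), (47, 49), (50, 52), (52, 54), (54, 56), (56, 58)], 2,
    56, 2, [2]⟩,
  ⟨4, [(0, 4), (4, 8), (8, 12), (12, 16), (17, 21), (21, 25), (25, 29), (29, 33), (33, 37), (37,
    41), (41, 45), (45, 49), (50, 54), (54, 58)], 4, 56, 4, [4, 4]⟩,
  ⟨8, [(0, 8), (8, 16), (17, 25), (25, 33), (33, 41), (41, 49), (50, 58)], 8, 56, 8, [8, 8, 8]⟩,
  ⟨16, [(0, 16), (17, 33), (33, 49)], 16, 48, 16, [16, 16, 16, 16]⟩,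
  ⟨17, [(0, 17), (33, 50)], 17, 34, 17, [16, 16, 16, 16, 17]⟩,
  ⟨25, [(0, 33), (33, 58)], 33, 58, 25, [32, 32, 32, 32, 17, 33]⟩,
  ⟨33, [(0, 33)], 33, 33, 33, [32, 32, 32, 32, 17, 33, 33]⟩,
  ⟨58, [(0, 58)], 58, 58, 58, [56, 56, 56, 48, 34, 58, 33, 58]⟩]⟩

/-- sizes 1 2 4 8 16 32 -/
def T30 : Tr := ⟨59, 994, [
  ⟨2, [(0, 2), (2, 4), (4, 6), (6, 8), (8, 10), (10, 12), (12, 14), (14, 16), (16, 18), (18, 20),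
    (20, 22), (22, 24), (24, 26), (26, 28), (28, 30), (30, 32), (32, 34), (34, 36), (36, 38),
    (38, 40), (40, 42), (42, 44), (44, 46), (46, 48), (48, 50), (50, 52), (52, 54), (54, 56),
    (56, 58)], 2, 58, 2, [2]⟩,
  ⟨3, [(0, 4), (4, 8), (8, 12), (12, 16), (16, 20), (20, 24), (24, 28), (28, 32), (32, 36), (36,
    40), (40, 44), (44, 48), (48, 52), (52, 56), (56, 59)], 4, 59, 3, [4, 4]⟩,
  ⟨4, [(0, 4), (4, 8), (8, 12), (12, 16), (16, 20), (20, 24), (24, 28), (28, 32), (32, 36), (36,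
    40), (40, 44), (44, 48), (48, 52), (52, 56)], 4, 56, 4, [4, 4, 4]⟩,
  ⟨8, [(0, 8), (8, 16), (16, 24), (24, 32), (32, 40), (40, 48), (48, 56)], 8, 56, 8, [8, 8, 8,
    8]⟩,
  ⟨11, [(0, 16), (16, 32), (32, 48), (48, 59)], 16, 59, 11, [16, 16, 16, 16, 16]⟩,
  ⟨16, [(0, 16), (16, 32), (32, 48)], 16, 48, 16, [16, 16, 16, 16, 16, 16]⟩,
  ⟨27, [(0, 32), (32, 59)], 32, 59, 27, [32, 32, 32, 32, 32, 32, 32]⟩,
  ⟨32, [(0, 32)], 32, 32, 32, [32, 32, 32, 32, 32, 32, 32, 32]⟩,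
  ⟨59, [(0, 59)], 59, 59, 59, [58, 59, 56, 56, 59, 48, 59, 32, 59]⟩]⟩

/-- sizes 1 2 4 8 16 32 -/
def T31 : Tr := ⟨60, 2458, [
  ⟨2, [(0, 2), (2, 4), (4, 6), (6, 8), (8, 10), (10, 12), (12, 14), (14, 16), (16, 18), (18, 20),
    (20, 22), (22, 24), (24, 26), (26, 28), (28, 30), (30, 32), (32, 34), (34, 36), (36, 38),
    (38, 40), (40, 42), (42, 44), (44, 46), (46, 48), (48, 50), (50, 52), (52, 54), (54, 56),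
    (56, 58), (58, 60)], 2, 60, 2, [2]⟩,
  ⟨4, [(0, 4), (4, 8), (8, 12), (12, 16), (16, 20), (20, 24), (24, 28), (28, 32), (32, 36), (36,
    40), (40, 44), (44, 48), (48, 52), (52, 56), (56, 60)], 4, 60, 4, [4, 4]⟩,
  ⟨8, [(0, 8), (8, 16), (16, 24), (24, 32), (32, 40), (40, 48), (48, 56)], 8, 56, 8, [8, 8, 8]⟩,
  ⟨12, [(0, 16), (16, 32), (32, 48), (48, 60)], 16, 60, 12, [16, 16, 16, 16]⟩,
  ⟨16, [(0, 16), (16, 32), (32, 48)], 16, 48, 16, [16, 16, 16, 16, 16]⟩,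
  ⟨28, [(0, 32), (32, 60)], 32, 60, 28, [32, 32, 32, 32, 32, 32]⟩,
  ⟨32, [(0, 32)], 32, 32, 32, [32, 32, 32, 32, 32, 32, 32]⟩,
  ⟨60, [(0, 60)], 60, 60, 60, [60, 60, 56, 60, 48, 60, 32, 60]⟩]⟩

/-- sizes 1 2 4 8 16 32 -/
def T32 : Tr := ⟨61, 2330, [
  ⟨2, [(0, 2), (2, 4), (4, 6), (6, 8), (8, 10), (10, 12), (12, 14), (14, 16), (16, 18), (18, 20),
    (20, 22), (22, 24), (24, 26), (26, 28), (28, 30), (30, 32), (32, 34), (34, 36), (36, 38),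
    (38, 40), (40, 42), (42, 44), (44, 46), (46, 48), (48, 50), (50, 52), (52, 54), (54, 56),
    (56, 58), (58, 60)], 2, 60, 2, [2]⟩,
  ⟨4, [(0, 4), (4, 8), (8, 12), (12, 16), (16, 20), (20, 24), (24, 28), (28, 32), (32, 36), (36,
    40), (40, 44), (44, 48), (48, 52), (52, 56), (56, 60)], 4, 60, 4, [4, 4]⟩,
  ⟨5, [(0, 8), (8, 16), (16, 24), (24, 32), (32, 40), (40, 48), (48, 56), (56, 61)], 8, 61, 5,
    [8, 8, 8]⟩,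
  ⟨8, [(0, 8), (8, 16), (16, 24), (24, 32), (32, 40), (40, 48), (48, 56)], 8, 56, 8, [8, 8, 8,
    8]⟩,
  ⟨13, [(0, 16), (16, 32), (32, 48), (48, 61)], 16, 61, 13, [16, 16, 16, 16, 16]⟩,
  ⟨16, [(0, 16), (16, 32), (32, 48)], 16, 48, 16, [16, 16, 16, 16, 16, 16]⟩,
  ⟨29, [(0, 32), (32, 61)], 32, 61, 29, [32, 32, 32, 32, 32, 32, 32]⟩,
  ⟨32, [(0, 32)], 32, 32, 32, [32, 32, 32, 32, 32, 32, 32, 32]⟩,
  ⟨61, [(0, 61)], 61, 61, 61, [60, 60, 61, 56, 61, 48, 61, 32, 61]⟩]⟩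

/-- sizes 1 2 4 8 16 32 -/
def T33 : Tr := ⟨62, 3151, [
  ⟨2, [(0, 2), (2, 4), (4, 6), (6, 8), (8, 10), (10, 12), (12, 14), (14, 16), (16, 18), (18, 20),
    (20, 22), (22, 24), (24, 26), (26, 28), (28, 30), (30, 32), (32, 34), (34, 36), (36, 38),
    (38, 40), (40, 42), (42, 44), (44, 46), (46, 48), (48, 50), (50, 52), (52, 54), (54, 56),
    (56, 58), (58, 60), (60, 62)], 2, 62, 2, [2]⟩,
  ⟨4, [(0, 4), (4, 8), (8, 12), (12, 16), (16, 20), (20, 24), (24, 28), (28, 32), (32, 36), (36,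
    40), (40, 44), (44, 48), (48, 52), (52, 56), (56, 60)], 4, 60, 4, [4, 4]⟩,
  ⟨6, [(0, 8), (8, 16), (16, 24), (24, 32), (32, 40), (40, 48), (48, 56), (56, 62)], 8, 62, 6,
    [8, 8, 8]⟩,
  ⟨8, [(0, 8), (8, 16), (16, 24), (24, 32), (32, 40), (40, 48), (48, 56)], 8, 56, 8, [8, 8, 8,
    8]⟩,
  ⟨14, [(0, 16), (16, 32), (32, 48), (48, 62)], 16, 62, 14, [16, 16, 16, 16, 16]⟩,
  ⟨16, [(0, 16), (16, 32), (32, 48)], 16, 48, 16, [16, 16, 16, 16, 16, 16]⟩,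
  ⟨30, [(0, 32), (32, 62)], 32, 62, 30, [32, 32, 32, 32, 32, 32, 32]⟩,
  ⟨32, [(0, 32)], 32, 32, 32, [32, 32, 32, 32, 32, 32, 32, 32]⟩,
  ⟨62, [(0, 62)], 62, 62, 62, [62, 60, 62, 56, 62, 48, 62, 32, 62]⟩]⟩

/-- sizes 1 2 4 8 16 17 34 -/
def T34 : Tr := ⟨63, 1273, [
  ⟨2, [(0, 2), (2, 4), (4, 6), (6, 8), (8, 10), (10, 12), (12, 14), (14, 16), (17, 19), (19, 21),
    (21, 23), (23, 25), (25, 27), (27, 29), (29, 31), (31, 33), (34, 36), (36, 38), (38, 40),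
    (40, 42), (42, 44), (44, 46), (46, 48), (48, 50), (51, 53), (53, 55), (55, 57), (57, 59),
    (59, 61), (61, 63)], 2, 60, 2, [2]⟩,
  ⟨4, [(0, 4), (4, 8), (8, 12), (12, 16), (17, 21), (21, 25), (25, 29), (29, 33), (34, 38), (38,
    42), (42, 46), (46, 50), (51, 55), (55, 59), (59, 63)], 4, 60, 4, [4, 4]⟩,
  ⟨8, [(0, 8), (8, 16), (17, 25), (25, 33), (34, 42), (42, 50), (51, 59)], 8, 56, 8, [8, 8, 8]⟩,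
  ⟨12, [(0, 16), (17, 33), (34, 50), (51, 63)], 16, 60, 12, [16, 16, 16, 16]⟩,
  ⟨16, [(0, 16), (17, 33), (34, 50)], 16, 48, 16, [16, 16, 16, 16, 16]⟩,
  ⟨17, [(0, 17), (17, 34), (34, 51)], 17, 51, 17, [16, 16, 16, 16, 16, 17]⟩,
  ⟨29, [(0, 34), (34, 63)], 34, 63, 29, [32, 32, 32, 32, 32, 34, 34]⟩,
  ⟨34, [(0, 34)], 34, 34, 34, [32, 32, 32, 32, 32, 34, 34, 34]⟩,
  ⟨63, [(0, 63)], 63, 63, 63, [60, 60, 56, 60, 48, 51, 63, 34, 63]⟩]⟩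

/-- the trees -/
def Ts : List Tr := [T00, T01, T02, T03, T04, T05, T06, T07, T08, T09, T10, T11,
  T12, T13, T14, T15, T16, T17, T18, T19, T20, T21, T22, T23,
  T24, T25, T26, T27, T28, T29, T30, T31, T32, T33, T34]

end Pool.Agent.RLA
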