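import Pool.Agent.RLA.Stmts

/-!
# GEO: a tree gives admissible data (MP_e25616_lc)
-/

set_option autoImplicit false

namespace Pool.Agent.RLA

open Finset Pool.Agent.BSR

namespace MGEO

/-- the facts on the level of a width -/
theorem lev (h_LSB : S_LSB) {T : Tr} (hT : Tk T) {m s : ℕ} (hm : 0 < m) (hs : s ≤ m) :
    kk T m s < T.lv.length ∧ cls m s T.a ≤ (lvl T (kk T m s)).c := by
  have h8 := (h_LSB m T.a 0 hm).2.2.2.2.2.2.2.1 s hs
  exact hT.2.1 (cls m s T.a) (by omega)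

theorem nodes {T : Tr} (hT : Tk T) {k : ℕ} (hk : k < T.lv.length) :
    (lvl T k).nd ≠ [] ∧ (∀ I ∈ (lvl T k).nd, Nk T k I) ∧
    (lvl T k).nd.Pairwise (fun I J => I.2 ≤ J.1) ∧
    ∀ k' < k + 1, ∀ I ∈ (lvl T k).nd, Pk T k k' I := by
  obtain ⟨h1, h2, h3, _, h5⟩ := hT.2.2 k hk
  exact ⟨h1, h2, h3, h5⟩

theorem cell {I : ℕ × ℕ} {u h : ℕ} : (I.1 ≤ u / 2 ^ h ∧ u / 2 ^ h < I.2) ↔
    (I.1 * 2 ^ h ≤ u ∧ u < I.2 * 2 ^ h) := by
  have hp : 0 < 2 ^ h := Nat.two_pow_pos h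
  rw [Nat.le_div_iff_mul_le hp, Nat.div_lt_iff_lt_mul hp]

theorem mem_in {T : Tr} {m h s u : ℕ} (hc : s * T.a ≤ m) :
    u ∈ Aw T m h s ↔ u < T.a * 2 ^ h := by
  unfold Aw
  rw [if_pos hc, mem_range]

theorem mem_out {T : Tr} {m h s u : ℕ} (hc : ¬ s * T.a ≤ m) :
    u ∈ Aw T m h s ↔ u < T.a * 2 ^ h ∧ lab (nds T m s) (u / 2 ^ h) ≠ 0 := by
  unfold Aw
  rw [if_neg hc, mem_filter, mem_range]

theorem Bw_in {T : Tr} {m h s u : ℕ} (hc : s * T.a ≤ m) :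
    Bw T m h s u = u / 2 ^ ls m s T.a h := by
  unfold Bw
  rw [if_pos hc]

theorem Bw_out {T : Tr} {m h s u : ℕ} (hc : ¬ s * T.a ≤ m) :
    Bw T m h s u = lab (nds T m s) (u / 2 ^ h) := by
  unfold Bw
  rw [if_neg hc]

/-- the node of an allowed unit -/
theorem node (h_LAB : S_LAB) (h_LSB : S_LSB) {T : Tr} (hT : Tk T) {m s : ℕ} (hm : 0 < m)
    (hs : s ≤ m) {x : ℕ} (hx : lab (nds T m s) x ≠ 0) :
    ∃ I ∈ nds T m s, I.1 ≤ x ∧ x < I.2 ∧ lab (nds T m s) x = I.1 + 1 ∧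
      Nk T (kk T m s) I ∧ hif (nds T m s) (I.1 + 1) = I.2 := by
  obtain ⟨hk, _⟩ := lev h_LSB hT hm hs
  obtain ⟨n1, n2, n3, n4⟩ := nodes hT hk
  obtain ⟨a1, a2, a3, _⟩ := h_LAB (nds T m s) (fun I hI => (n2 I hI).1) n3
  obtain ⟨I, hI, e1, e2, e3⟩ := a1 x hx
  exact ⟨I, hI, e1, e2, e3, n2 I hI, a3 I hI⟩

theorem labI (h_LAB : S_LAB) (h_LSB : S_LSB) {T : Tr} (hT : Tk T) {m s : ℕ} (hm : 0 < m)
    (hs : s ≤ m) {I : ℕ × ℕ} (hI : I ∈ nds T m s) {x : ℕ} (h1 : I.1 ≤ x) (h2 : x < I.2) :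
    lab (nds T m s) x = I.1 + 1 := by
  obtain ⟨hk, _⟩ := lev h_LSB hT hm hs
  obtain ⟨n1, n2, n3, n4⟩ := nodes hT hk
  obtain ⟨a1, a2, a3, _⟩ := h_LAB (nds T m s) (fun I hI => (n2 I hI).1) n3
  exact a2 I hI x h1 h2

theorem wsub {T : Tr} {m h s u : ℕ} (hu : u ∈ Aw T m h s) : u < T.a * 2 ^ h := by
  by_cases hc : s * T.a ≤ m
  · exact (mem_in hc).1 hu
  · exact ((mem_out hc).1 hu).1

theorem wne (h_LAB : S_LAB) (h_LSB : S_LSB) {T : Tr} (hT : Tk T) {m s h : ℕ} (hm : 0 < m)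
    (hs : s ≤ m) : (Aw T m h s).Nonempty := by
  have ha := hT.1
  have hp : 0 < 2 ^ h := Nat.two_pow_pos h
  by_cases hc : s * T.a ≤ m
  · exact ⟨0, (mem_in hc).2 (Nat.mul_pos ha hp)⟩
  · obtain ⟨hk, _⟩ := lev h_LSB hT hm hs
    obtain ⟨n1, n2, n3, n4⟩ := nodes hT hk
    obtain ⟨I, hI⟩ := List.exists_mem_of_ne_nil _ n1
    obtain ⟨q1, q2, q3, q4, q5⟩ := n2 I hI
    refine ⟨I.1 * 2 ^ h, (mem_out hc).2 ⟨?_, ?_⟩⟩
    · exact Nat.mul_lt_mul_of_pos_right (lt_of_lt_of_le q1 q3) hp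
    · rw [Nat.mul_div_cancel _ hp, labI h_LAB h_LSB hT hm hs hI le_rfl q1]
      omega

theorem wclosed {T : Tr} {m h s u v : ℕ} (hu : u ∈ Aw T m h s) (hv : v < T.a * 2 ^ h)
    (hb : Bw T m h s v = Bw T m h s u) : v ∈ Aw T m h s := by
  by_cases hc : s * T.a ≤ m
  · exact (mem_in hc).2 hv
  · rw [Bw_out hc, Bw_out hc] at hb
    refine (mem_out hc).2 ⟨hv, ?_⟩
    rw [hb]
    exact ((mem_out hc).1 hu).2

theorem divdiv {u v l l' : ℕ} (hl : l ≤ l') (h : u / 2 ^ l = v / 2 ^ l) :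
    u / 2 ^ l' = v / 2 ^ l' := by
  obtain ⟨d, rfl⟩ := Nat.exists_eq_add_of_le hl
  rw [pow_add, ← Nat.div_div_eq_div_mul, ← Nat.div_div_eq_div_mul, h]

theorem wnest (h_LAB : S_LAB) (h_LSB : S_LSB) {T : Tr} (hT : Tk T) {m s s' h : ℕ} (hm : 0 < m)
    (hs : s ≤ m) (hss : s' ≤ s) {u v : ℕ} (hu : u ∈ Aw T m h s') (hv : v ∈ Aw T m h s')
    (hb : Bw T m h s' u = Bw T m h s' v) : Bw T m h s u = Bw T m h s v := by
  have L := h_LSB m T.a h hm
  obtain ⟨L1, L2, L3, L4, L5, L6, L7, L8, L9⟩ := L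
  by_cases hc' : s' * T.a ≤ m
  · rw [Bw_in hc', Bw_in hc'] at hb
    by_cases hc : s * T.a ≤ m
    · rw [Bw_in hc, Bw_in hc]
      exact divdiv (L4 s' s hss) hb
    · rw [Bw_out hc, Bw_out hc, divdiv (L3 s' hc') hb]
  · have hc : ¬ s * T.a ≤ m := fun hc => hc' (le_trans (Nat.mul_le_mul_right _ hss) hc)
    rw [Bw_out hc', Bw_out hc'] at hb
    rw [Bw_out hc, Bw_out hc]
    have hu' := ((mem_out hc').1 hu).2
    have hv' := ((mem_out hc').1 hv).2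
    have hs' : s' ≤ m := hss.trans hs
    obtain ⟨hk, _⟩ := lev h_LSB hT hm hs
    obtain ⟨n1, n2, n3, n4⟩ := nodes hT hk
    have hkk : kk T m s' ≤ kk T m s := L9 T.lv _ _ (L7 s' s hss)
    obtain ⟨J, hJ, j1, j2, j3, _, j5⟩ := node h_LAB h_LSB hT hm hs' hu'
    obtain ⟨J', hJ', i1, i2, i3, _, i5⟩ := node h_LAB h_LSB hT hm hs' hv'
    have e1 : J.1 = J'.1 := by
      have : J.1 + 1 = J'.1 + 1 := by rw [← j3, ← i3, hb]
      omega
    have e2 : J.2 = J'.2 := by rw [← j5, ← i5, e1]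
    have e : J = J' := Prod.ext e1 e2
    subst e
    have key : ∀ x y, J.1 ≤ x → x < J.2 → J.1 ≤ y → y < J.2 → lab (nds T m s) x ≠ 0 →
        lab (nds T m s) x = lab (nds T m s) y := by
      intro x y x1 x2 y1 y2 hx
      obtain ⟨I, hI, a1, a2, a3, _, _⟩ := node h_LAB h_LSB hT hm hs hx
      rcases (n4 (kk T m s') (by omega) I hI).1 J hJ with hq | hq | hq
      · rw [a3]
        exact (labI h_LAB h_LSB hT hm hs hI (by omega) (by omega)).symm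
      · omega
      · omega
    by_cases hx : lab (nds T m s) (u / 2 ^ h) ≠ 0
    · exact key _ _ j1 j2 i1 i2 hx
    · by_cases hy : lab (nds T m s) (v / 2 ^ h) ≠ 0
      · exact (key _ _ i1 i2 j1 j2 hy).symm
      · push Not at hx hy
        rw [hx, hy]

theorem wlo (h_LAB : S_LAB) (h_LSB : S_LSB) {T : Tr} (hT : Tk T) {m s h : ℕ} (hm : 0 < m)
    (hs : s ≤ m) {u : ℕ} (hu : u ∈ Aw T m h s) :
    Lw T m h s (Bw T m h s u) ≤ u ∧ u < Hw T m h s (Bw T m h s u) ∧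
    Hw T m h s (Bw T m h s u) ≤ T.a * 2 ^ h ∧
    (∀ v, Lw T m h s (Bw T m h s u) ≤ v → v < Hw T m h s (Bw T m h s u) →
      Bw T m h s v = Bw T m h s u) ∧
    s * (T.a * 2 ^ h) ≤ m * (Hw T m h s (Bw T m h s u) - Lw T m h s (Bw T m h s u)) := by
  have L := h_LSB m T.a h hm
  obtain ⟨L1, L2, L3, L4, L5, L6, L7, L8, L9⟩ := L
  have hp : 0 < 2 ^ h := Nat.two_pow_pos h
  by_cases hc : s * T.a ≤ m
  · have hq : 0 < 2 ^ ls m s T.a h := Nat.two_pow_pos _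
    have hu' := (mem_in hc).1 hu
    have e1 : ∀ b, Lw T m h s b = b * 2 ^ ls m s T.a h := fun b => by
      unfold Lw
      rw [if_pos hc]
    have e2 : ∀ b, Hw T m h s b = (b + 1) * 2 ^ ls m s T.a h := fun b => by
      unfold Hw
      rw [if_pos hc]
    rw [e1, e2, Bw_in hc]
    refine ⟨Nat.div_mul_le_self _ _, ?_, ?_, ?_, ?_⟩
    · exact (Nat.div_lt_iff_lt_mul hq).1 (Nat.lt_succ_self _)
    · obtain ⟨d, hd⟩ := Nat.exists_eq_add_of_le (L3 s hc)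
      have e3 : T.a * 2 ^ h = (T.a * 2 ^ d) * 2 ^ ls m s T.a h := by
        conv_lhs => rw [hd]
        rw [pow_add]
        ring
      rw [e3]
      apply Nat.mul_le_mul_right
      rw [Nat.succ_le_iff, Nat.div_lt_iff_lt_mul hq, ← e3]
      exact hu'
    · intro v h1 h2
      rw [Bw_in hc]
      apply le_antisymm
      · exact Nat.lt_succ_iff.1 ((Nat.div_lt_iff_lt_mul hq).2 h2)
      · exact (Nat.le_div_iff_mul_le hq).2 h1
    · have e4 : (u / 2 ^ ls m s T.a h + 1) * 2 ^ ls m s T.a h -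
          u / 2 ^ ls m s T.a h * 2 ^ ls m s T.a h = 2 ^ ls m s T.a h := by
        rw [Nat.add_mul, Nat.one_mul, Nat.add_sub_cancel_left]
      rw [e4, ← Nat.mul_assoc]
      exact L1 s
  · have hu' := ((mem_out hc).1 hu)
    obtain ⟨I, hI, i1, i2, i3, i4, i5⟩ := node h_LAB h_LSB hT hm hs hu'.2
    obtain ⟨q1, q2, q3, q4, q5⟩ := i4
    have e0 : Bw T m h s u = I.1 + 1 := by rw [Bw_out hc, i3]
    have e1 : Lw T m h s (I.1 + 1) = I.1 * 2 ^ h := by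
      unfold Lw
      rw [if_neg hc, Nat.add_sub_cancel]
    have e2 : Hw T m h s (I.1 + 1) = I.2 * 2 ^ h := by
      unfold Hw
      rw [if_neg hc, i5]
    rw [e0, e1, e2]
    have hin := cell.1 ⟨i1, i2⟩
    refine ⟨hin.1, hin.2, Nat.mul_le_mul_right _ q3, ?_, ?_⟩
    · intro v h1 h2
      have hv := cell.2 ⟨h1, h2⟩
      rw [Bw_out hc]
      exact labI h_LAB h_LSB hT hm hs hI hv.1 hv.2
    · obtain ⟨_, hcl⟩ := lev h_LSB hT hm hs
      have h3 : cls m s T.a ≤ I.2 - I.1 := by omega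
      have h4 := L5 s
      calc s * (T.a * 2 ^ h) = s * T.a * 2 ^ h := by ring
        _ ≤ cls m s T.a * m * 2 ^ h := Nat.mul_le_mul_right _ h4
        _ ≤ (I.2 - I.1) * m * 2 ^ h := Nat.mul_le_mul_right _ (Nat.mul_le_mul_right _ h3)
        _ = m * ((I.2 - I.1) * 2 ^ h) := by ring
        _ = m * (I.2 * 2 ^ h - I.1 * 2 ^ h) := by rw [Nat.sub_mul]

end MGEO

open MGEO in
/-- the tree gives admissible data -/
theorem x_GEO (h_LAB : S_LAB) (h_LSB : S_LSB) : S_GEO := by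
  intro T m h n s hT hm hanti hsm
  have ha := hT.1
  have hp : 0 < 2 ^ h := Nat.two_pow_pos h
  have hM : 0 < T.a * 2 ^ h := Nat.mul_pos ha hp
  have eA : ∀ {j : ℕ} (hj : j < n), AJ T m h s j = Aw T m h (s ⟨j, hj⟩) := by
    intro j hj
    unfold AJ
    rw [dif_pos hj]
  have eA' : ∀ {j : ℕ} (_ : ¬ j < n), AJ T m h s j = range (T.a * 2 ^ h) := by
    intro j hj
    unfold AJ
    rw [dif_neg hj]
  have eB : ∀ {j : ℕ} (hj : j < n) (u : ℕ), BJ T m h s j u = Bw T m h (s ⟨j, hj⟩) u := by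
    intro j hj u
    unfold BJ
    rw [dif_pos hj]
  have eB' : ∀ {j : ℕ} (_ : ¬ j < n) (u : ℕ), BJ T m h s j u = u := by
    intro j hj u
    unfold BJ
    rw [dif_neg hj]
  have eL : ∀ (j : Fin n) (b : ℕ), LJ T m h s j b = Lw T m h (s j) b := by
    intro j b
    unfold LJ
    rw [dif_pos j.isLt]
  have eH : ∀ (j : Fin n) (b : ℕ), HJ T m h s j b = Hw T m h (s j) b := by
    intro j b
    unfold HJ
    rw [dif_pos j.isLt]
  have eAf : ∀ (j : Fin n), AJ T m h s j = Aw T m h (s j) := fun j => eA j.isLt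
  have eBf : ∀ (j : Fin n) (u : ℕ), BJ T m h s j u = Bw T m h (s j) u := fun j u => eB j.isLt u
  have hMr : ((T.a * 2 ^ h : ℕ) : ℝ) = (T.a : ℝ) * 2 ^ h := by push_cast; rfl
  have hMp : (0 : ℝ) < (T.a : ℝ) * 2 ^ h := by
    rw [← hMr]
    exact_mod_cast hM
  have hmp : (0 : ℝ) < (m : ℝ) := by exact_mod_cast hm
  refine ⟨⟨?_, ?_, ?_, ?_⟩, ?_, ?_, ?_, ?_, ?_, ?_, ?_⟩
  · intro j u hu
    by_cases hj : j < n
    · rw [eA hj] at hu
      exact wsub hu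
    · rw [eA' hj] at hu
      exact mem_range.1 hu
  · intro j
    by_cases hj : j < n
    · rw [eA hj]
      exact wne h_LAB h_LSB hT hm (hsm _)
    · rw [eA' hj]
      exact ⟨0, mem_range.2 hM⟩
  · intro j u v hu hv hb
    by_cases hj : j < n
    · rw [eA hj] at hu ⊢
      rw [eB hj, eB hj] at hb
      exact wclosed hu hv hb
    · rw [eA' hj]
      exact mem_range.2 hv
  · intro i j hij u v hu hv hb
    by_cases hj : j < n
    · have hi : i < n := hij.trans hj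
      rw [eA hj] at hu hv
      rw [eB hj, eB hj] at hb
      rw [eB hi, eB hi]
      exact wnest h_LAB h_LSB hT hm (hsm _) (hanti (show (⟨i, hi⟩ : Fin n) ≤ ⟨j, hj⟩ from hij.le))
        hu hv hb
    · rw [eB' hj, eB' hj] at hb
      rw [hb]
  · exact div_pos hmp hMp
  · rw [hMr, div_mul_cancel₀ _ hMp.ne']
  · intro j u hu
    rw [eAf] at hu
    rw [eBf, eL]
    exact (wlo h_LAB h_LSB hT hm (hsm j) hu).1
  · intro j u hu
    rw [eAf] at hu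
    rw [eBf, eH]
    exact (wlo h_LAB h_LSB hT hm (hsm j) hu).2.1
  · intro j u hu
    rw [eAf] at hu
    rw [eBf, eH]
    exact (wlo h_LAB h_LSB hT hm (hsm j) hu).2.2.1
  · intro j u v hu h1 h2
    rw [eAf] at hu
    rw [eBf, eL] at h1
    rw [eBf, eH] at h2
    rw [eBf, eBf]
    exact (wlo h_LAB h_LSB hT hm (hsm j) hu).2.2.2.1 v h1 h2
  · intro j u hu
    rw [eAf] at hu
    rw [eBf, eL, eH]
    obtain ⟨w1, w2, _, _, w5⟩ := wlo h_LAB h_LSB hT hm (hsm j) hu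
    have hle := (w1.trans_lt w2).le
    have w6 : ((s j * (T.a * 2 ^ h) : ℕ) : ℝ) ≤
        ((m * (Hw T m h (s j) (Bw T m h (s j) u) - Lw T m h (s j) (Bw T m h (s j) u)) : ℕ) : ℝ) := by
      exact_mod_cast w5
    rw [Nat.cast_mul, hMr, Nat.cast_mul, Nat.cast_sub hle] at w6
    rw [div_mul_eq_mul_div, le_div_iff₀ hMp]
    exact w6

end Pool.Agent.RLA
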