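import Pool.Agent.RLA.Stmts

/-!
# LAB: labels of a list of disjoint intervals
-/

set_option autoImplicit false

namespace Pool.Agent.RLA

open Finset Pool.Agent.BSR

namespace MLAB

theorem lab_ne {nd : List (ℕ × ℕ)} {x : ℕ} (h : lab nd x ≠ 0) :
    ∃ I ∈ nd, I.1 ≤ x ∧ x < I.2 ∧ lab nd x = I.1 + 1 := by
  induction nd with
  | nil => exact absurd rfl h
  | cons K r ih =>
    by_cases hK : K.1 ≤ x ∧ x < K.2
    · exact ⟨K, List.mem_cons_self, hK.1, hK.2, by simp only [lab, if_pos hK]⟩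
    · have h1 : lab (K :: r) x = lab r x := by simp only [lab, if_neg hK]
      rw [h1] at h ⊢
      obtain ⟨I, hI, h2⟩ := ih h
      exact ⟨I, List.mem_cons_of_mem _ hI, h2⟩

theorem lab_ne' {nd : List (ℕ × ℕ)} {x : ℕ} {I : ℕ × ℕ} (hI : I ∈ nd) (h1 : I.1 ≤ x)
    (h2 : x < I.2) : lab nd x ≠ 0 := by
  induction nd with
  | nil => simp at hI
  | cons K r ih =>
    by_cases hK : K.1 ≤ x ∧ x < K.2
    · simp only [lab, if_pos hK]
      omega
    · simp only [lab, if_neg hK]
      rcases List.mem_cons.1 hI with rfl | h3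
      · exact absurd ⟨h1, h2⟩ hK
      · exact ih h3

theorem uniq {nd : List (ℕ × ℕ)} (hp : nd.Pairwise (fun I J => I.2 ≤ J.1)) {I J : ℕ × ℕ}
    (hI : I ∈ nd) (hJ : J ∈ nd) {x : ℕ} (h1 : I.1 ≤ x) (h2 : x < I.2) (h3 : J.1 ≤ x)
    (h4 : x < J.2) : I = J := by
  induction nd with
  | nil => simp at hI
  | cons K r ih =>
    rw [List.pairwise_cons] at hp
    rcases List.mem_cons.1 hI with rfl | hI'
    · rcases List.mem_cons.1 hJ with rfl | hJ'
      · rfl
      · have := hp.1 J hJ'
        omega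
    · rcases List.mem_cons.1 hJ with rfl | hJ'
      · have := hp.1 I hI'
        omega
      · exact ih hp.2 hI' hJ'

theorem hif_ex {nd : List (ℕ × ℕ)} {I : ℕ × ℕ} (hI : I ∈ nd) :
    ∃ J ∈ nd, J.1 = I.1 ∧ hif nd (I.1 + 1) = J.2 := by
  induction nd with
  | nil => simp at hI
  | cons K r ih =>
    by_cases hK : I.1 + 1 = K.1 + 1
    · exact ⟨K, List.mem_cons_self, by omega, by simp only [hif, if_pos hK]⟩
    · rcases List.mem_cons.1 hI with rfl | h3
      · exact absurd rfl hK
      · obtain ⟨J, hJ, h4, h5⟩ := ih h3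
        exact ⟨J, List.mem_cons_of_mem _ hJ, h4, by simp only [hif, if_neg hK]; exact h5⟩

theorem card_lab (a : ℕ) {nd : List (ℕ × ℕ)} (hlt : ∀ I ∈ nd, I.1 < I.2)
    (hp : nd.Pairwise (fun I J => I.2 ≤ J.1)) (ha : ∀ I ∈ nd, I.2 ≤ a) :
    ((range a).filter fun x => lab nd x ≠ 0).card = (nd.map sz).sum := by
  induction nd with
  | nil => simp [lab]
  | cons K r ih =>
    rw [List.pairwise_cons] at hp
    have h1 := ih (fun I hI => hlt I (List.mem_cons_of_mem _ hI)) hp.2
      (fun I hI => ha I (List.mem_cons_of_mem _ hI))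
    have hKa := ha K List.mem_cons_self
    have h2 : ((range a).filter fun x => lab (K :: r) x ≠ 0)
        = (Ico K.1 K.2) ∪ ((range a).filter fun x => lab r x ≠ 0) := by
      ext x
      simp only [mem_filter, mem_range, mem_union, mem_Ico]
      constructor
      · rintro ⟨h3, h4⟩
        by_cases hK : K.1 ≤ x ∧ x < K.2
        · exact Or.inl hK
        · simp only [lab, if_neg hK] at h4
          exact Or.inr ⟨h3, h4⟩
      · rintro (h3 | ⟨h3, h4⟩)
        · refine ⟨by omega, ?_⟩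
          simp only [lab, if_pos h3]
          omega
        · refine ⟨h3, ?_⟩
          by_cases hK : K.1 ≤ x ∧ x < K.2
          · simp only [lab, if_pos hK]
            omega
          · simp only [lab, if_neg hK]
            exact h4
    have h3 : Disjoint (Ico K.1 K.2) ((range a).filter fun x => lab r x ≠ 0) := by
      rw [Finset.disjoint_left]
      intro x hx hx'
      rw [mem_Ico] at hx
      rw [mem_filter] at hx'
      obtain ⟨J, hJ, h4, h5, _⟩ := lab_ne hx'.2
      have := hp.1 J hJ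
      omega
    rw [h2, card_union_of_disjoint h3, h1, Nat.card_Ico]
    simp [sz]

theorem card_cover {l : List (ℕ × ℕ)} (F : Finset ℕ)
    (h : ∀ x ∈ F, ∃ J ∈ l, J.1 ≤ x ∧ x < J.2) : F.card ≤ (l.map sz).sum := by
  induction l generalizing F with
  | nil =>
    have : F = ∅ := by
      rw [Finset.eq_empty_iff_forall_notMem]
      intro x hx
      obtain ⟨J, hJ, _⟩ := h x hx
      simp at hJ
    simp [this]
  | cons K r ih =>
    have h1 := ih (F.filter fun x => ¬ (K.1 ≤ x ∧ x < K.2)) (by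
      intro x hx
      rw [mem_filter] at hx
      obtain ⟨J, hJ, h2⟩ := h x hx.1
      rcases List.mem_cons.1 hJ with rfl | hJ'
      · exact absurd h2 hx.2
      · exact ⟨J, hJ', h2⟩)
    have h2 : (F.filter fun x => K.1 ≤ x ∧ x < K.2).card ≤ sz K := by
      have h3 : (F.filter fun x => K.1 ≤ x ∧ x < K.2) ⊆ Ico K.1 K.2 := by
        intro x hx
        rw [mem_filter] at hx
        exact mem_Ico.2 hx.2
      have h4 := card_le_card h3
      rw [Nat.card_Ico] at h4
      exact h4
    have h3 := Finset.card_filter_add_card_filter_not (s := F) (fun x => K.1 ≤ x ∧ x < K.2)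
    rw [List.map_cons, List.sum_cons]
    omega

end MLAB

theorem x_LAB : S_LAB := by
  intro nd hlt hp
  refine ⟨fun x h => MLAB.lab_ne h, ?_, ?_, ?_, ?_⟩
  · intro I hI x h1 h2
    obtain ⟨J, hJ, h3, h4, h5⟩ := MLAB.lab_ne (MLAB.lab_ne' hI h1 h2)
    rw [h5, MLAB.uniq hp hI hJ h1 h2 h3 h4]
  · intro I hI
    obtain ⟨J, hJ, h1, h2⟩ := MLAB.hif_ex hI
    have h3 := hlt I hI
    have h4 := hlt J hJ
    rw [h2, ← MLAB.uniq hp hI hJ (x := I.1) le_rfl h3 (by omega) (by omega)]
  · intro I hI J hJ x h1 h2 h3 h4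
    exact MLAB.uniq hp hI hJ h1 h2 h3 h4
  · intro a ha
    refine ⟨MLAB.card_lab a hlt hp ha, ?_⟩
    intro p q hpq
    refine MLAB.card_cover _ ?_
    intro x hx
    rw [mem_filter] at hx
    obtain ⟨J, hJ, h1, h2, _⟩ := MLAB.lab_ne hx.2.2
    refine ⟨J, ?_, h1, h2⟩
    rw [List.mem_filter]
    refine ⟨hJ, ?_⟩
    have h3 := hx.2.1
    rcases hpq J hJ with h4 | h4 | h4
    · simpa using h4
    · omega
    · omega

end Pool.Agent.RLA
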