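import Pool.Agent.RLA.Stmts

/-!
# LSB: levels and classes (MP_e25616_lc)
-/

set_option autoImplicit false

namespace Pool.Agent.RLA

open Finset Pool.Agent.BSR

namespace MLSB

theorem ls_mem {m : ℕ} (a h : ℕ) (hm : 0 < m) (s : ℕ) : s * a * 2 ^ h ≤ m * 2 ^ ls m s a h := by
  have hne : {l : ℕ | s * a * 2 ^ h ≤ m * 2 ^ l}.Nonempty := by
    refine ⟨s * a * 2 ^ h, ?_⟩
    have h1 : s * a * 2 ^ h < 2 ^ (s * a * 2 ^ h) := Nat.lt_two_pow_self
    show s * a * 2 ^ h ≤ m * 2 ^ (s * a * 2 ^ h)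
    calc s * a * 2 ^ h ≤ 1 * 2 ^ (s * a * 2 ^ h) := by omega
      _ ≤ m * 2 ^ (s * a * 2 ^ h) := Nat.mul_le_mul_right _ hm
  exact Nat.sInf_mem hne

theorem ls_le {m : ℕ} (a h : ℕ) (s l : ℕ) (hl : s * a * 2 ^ h ≤ m * 2 ^ l) :
    ls m s a h ≤ l := Nat.sInf_le hl

theorem cls_mul {m : ℕ} (a : ℕ) (hm : 0 < m) (s : ℕ) : s * a ≤ cls m s a * m := by
  unfold cls
  have h1 := Nat.div_add_mod (s * a + (m - 1)) m
  have h2 := Nat.mod_lt (s * a + (m - 1)) hm
  have h3 : (s * a + (m - 1)) / m * m = m * ((s * a + (m - 1)) / m) := Nat.mul_comm _ _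
  rw [h3]
  omega

theorem cls_le {m : ℕ} (a : ℕ) (hm : 0 < m) (s c : ℕ) (h : s * a ≤ c * m) : cls m s a ≤ c := by
  unfold cls
  rw [← Nat.lt_succ_iff, Nat.div_lt_iff_lt_mul hm]
  have h1 : (c + 1) * m = c * m + m := by ring
  rw [Nat.succ_eq_add_one, h1]
  omega

theorem lvi_mono : ∀ (l : List Lv) (c c' : ℕ), c ≤ c' → lvi l c ≤ lvi l c' := by
  intro l
  induction l with
  | nil =>
    intro c c' _
    exact le_rfl
  | cons L r ih =>
    intro c c' hc
    unfold lvi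
    split_ifs with h1 h2
    · exact le_rfl
    · exact Nat.zero_le _
    · exact absurd (le_trans hc (by assumption)) h1
    · exact Nat.succ_le_succ (ih c c' hc)

end MLSB

open MLSB

theorem x_LSB : S_LSB := by
  intro m a h hm
  refine ⟨fun s => ls_mem a h hm s, fun s l hl => ls_le a h s l hl, ?_, ?_, fun s => cls_mul a hm s,
    fun s c hc => cls_le a hm s c hc, ?_, ?_, lvi_mono⟩
  · intro s hs
    exact ls_le a h s h (Nat.mul_le_mul_right _ hs)
  · intro s s' hss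
    apply ls_le
    refine le_trans ?_ (ls_mem a h hm s')
    exact Nat.mul_le_mul_right _ (Nat.mul_le_mul_right _ hss)
  · intro s s' hss
    apply cls_le a hm
    exact le_trans (Nat.mul_le_mul_right _ hss) (cls_mul a hm s')
  · intro s hs
    apply cls_le a hm
    rw [Nat.mul_comm a m]
    exact Nat.mul_le_mul_right _ hs

end Pool.Agent.RLA
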