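import Pool.Agent.RLA.Stmts
import Pool.Agent.RLA.Chk
import Pool.Agent.RLA.Chk1
import Pool.Agent.RLA.Chk2
import Pool.Agent.RLA.Chk3
import Pool.Agent.RLA.Chk4
import Pool.Agent.RLA.Chk5

/-!
# Ratio 2.47 for all m (MP_e25616_lc): the theorem
-/

set_option autoImplicit false

namespace Pool.Agent.RLA

open Finset Pool.Agent.BSR

namespace MMAI

/-- one piece of the walk -/
theorem seg (h_WLK : S_WLK) {p r : ℕ × ℕ} {l : List (ℕ × ℕ)} {m s : ℕ}
    (hw : walk 1000000 100000 147 100 Ts p l = true) (he : lst p l = r)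
    (hp : p.1 * m < s * p.2) :
    (∃ p' q' : ℕ × ℕ, chk 1000000 100000 147 100 Ts p' q' = true ∧ p'.1 * m < s * p'.2 ∧
      s * q'.2 ≤ q'.1 * m) ∨ r.1 * m < s * r.2 := by
  rcases Nat.lt_or_ge (r.1 * m) (s * r.2) with h | h
  · exact Or.inr h
  · refine Or.inl (h_WLK _ _ _ _ _ l p m s hw hp ?_)
    rw [he]
    exact h

theorem cov (h_WLK : S_WLK) : Cov 1000000 100000 147 100 32 Ts := by
  intro m s h1 h2
  have h0 : (1, 128).1 * m < s * (1, 128).2 := by
    show 1 * m < s * 128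
    omega
  rcases seg h_WLK w00 e00 h0 with h0 | h0
  · exact h0
  rcases seg h_WLK w01 e01 h0 with h0 | h0
  · exact h0
  rcases seg h_WLK w02 e02 h0 with h0 | h0
  · exact h0
  rcases seg h_WLK w03 e03 h0 with h0 | h0
  · exact h0
  rcases seg h_WLK w04 e04 h0 with h0 | h0
  · exact h0
  rcases seg h_WLK w05 e05 h0 with h0 | h0
  · exact h0
  rcases seg h_WLK w06 e06 h0 with h0 | h0
  · exact h0
  rcases seg h_WLK w07 e07 h0 with h0 | h0
  · exact h0
  rcases seg h_WLK w08 e08 h0 with h0 | h0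
  · exact h0
  rcases seg h_WLK w09 e09 h0 with h0 | h0
  · exact h0
  rcases seg h_WLK w10 e10 h0 with h0 | h0
  · exact h0
  rcases seg h_WLK w11 e11 h0 with h0 | h0
  · exact h0
  rcases seg h_WLK w12 e12 h0 with h0 | h0
  · exact h0
  rcases seg h_WLK w13 e13 h0 with h0 | h0
  · exact h0
  rcases seg h_WLK w14 e14 h0 with h0 | h0
  · exact h0
  rcases seg h_WLK w15 e15 h0 with h0 | h0
  · exact h0
  rcases seg h_WLK w16 e16 h0 with h0 | h0
  · exact h0
  rcases seg h_WLK w17 e17 h0 with h0 | h0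
  · exact h0
  rcases seg h_WLK w18 e18 h0 with h0 | h0
  · exact h0
  rcases seg h_WLK w19 e19 h0 with h0 | h0
  · exact h0
  exfalso
  have : (1, 1).1 * m < s * (1, 1).2 := h0
  have h9 : 1 * m < s * 1 := this
  omega

end MMAI

open MMAI in
theorem x_MAI (h_WLK : S_WLK) (h_SRT : S_SRT) (h_REL : S_REL) (h_ARE : S_ARE) : S_MAI := by
  intro m n s hm hs
  have hO : ∀ t : Fin n → ℝ, (∀ j, 0 ≤ t j) → 0 ≤ OPT m s t := fun t ht =>
    (h_ARE m n s t (fun j => (hs j).2) ht).1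
  set π := Tuple.sort (OrderDual.toDual ∘ s) with hπ
  have hanti : Antitone (s ∘ π) := by
    intro a b hab
    have := Tuple.monotone_sort (OrderDual.toDual ∘ s) hab
    exact this
  have h1 := h_SRT 1000000 100000 147 100 32 Ts (by norm_num) (by norm_num) (by norm_num)
    (by norm_num) tk_Ts a_Ts (cov h_WLK) w_Ts m n (s ∘ π) hm hanti (fun j => hs (π j))
  have h2 := h_REL m n s π _ h1
  have e : (1 : ℝ) + ((147 : ℕ) : ℝ) / ((100 : ℕ) : ℝ) = 247 / 100 := by norm_num
  rwa [e] at h2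

end Pool.Agent.RLA
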