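import Pool.Agent.RLA.Stmts

/-!
# Randomised batch scheduling on a linear array: the makespan of one tree (helper28)
-/

set_option autoImplicit false

namespace Pool.Agent.RLA

open Finset Pool.Agent.BSR

namespace MRUN

theorem lvi_mono (l : List Lv) {c c' : ℕ} (h : c ≤ c') : lvi l c ≤ lvi l c' := by
  induction l with
  | nil => exact le_refl _
  | cons L r ih =>
    unfold lvi
    by_cases h1 : c ≤ L.c
    · rw [if_pos h1]
      exact Nat.zero_le _
    · rw [if_neg h1, if_neg (fun h2 => h1 (h.trans h2))]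
      exact Nat.succ_le_succ ih

theorem cls_mono {m s s' a : ℕ} (h : s ≤ s') : cls m s a ≤ cls m s' a := by
  unfold cls
  exact Nat.div_le_div_right (Nat.add_le_add_right (Nat.mul_le_mul_right _ h) _)

theorem kk_mono (T : Tr) {m s s' : ℕ} (h : s ≤ s') : kk T m s ≤ kk T m s' := by
  unfold kk
  exact lvi_mono _ (cls_mono h)

theorem cls_le {m s a : ℕ} (hm : 0 < m) (h : s ≤ m) : cls m s a ≤ a := by
  unfold cls
  have h1 : s * a + (m - 1) < m * (a + 1) := by
    have h2 : s * a ≤ m * a := Nat.mul_le_mul_right _ h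
    have h3 : m * (a + 1) = m * a + m := by ring
    omega
  have h4 : (s * a + (m - 1)) / m < a + 1 := Nat.div_lt_of_lt_mul h1
  omega

theorem sz_le_sum {l : List (ℕ × ℕ)} {I : ℕ × ℕ} (h : I ∈ l) : sz I ≤ (l.map sz).sum :=
  List.single_le_sum (fun _ _ => Nat.zero_le _) _ (List.mem_map_of_mem h)

/-- the facts about the level of the width -/
theorem lev {T : Tr} {m s : ℕ} (hT : Tk T) (hm : 0 < m) (hs : s ≤ m) :
    0 < (lvl T (kk T m s)).tot ∧ (lvl T (kk T m s)).mn ≤ (lvl T (kk T m s)).tot ∧
    (lvl T (kk T m s)).mn ≤ (lvl T (kk T m s)).gs.getD (kk T m s) 0 := by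
  obtain ⟨_, h2, h3⟩ := hT
  have hk : kk T m s < T.lv.length :=
    (h2 (cls m s T.a) (Nat.lt_succ_of_le (cls_le hm hs))).1
  obtain ⟨hne, hN, _, htot, hP⟩ := h3 _ hk
  obtain ⟨I, hI⟩ := List.exists_mem_of_ne_nil _ hne
  obtain ⟨n1, _, _, _, n5⟩ := hN I hI
  have a1 : sz I ≤ (lvl T (kk T m s)).tot := by
    rw [← htot]
    exact sz_le_sum hI
  have a2 : 0 < sz I := Nat.sub_pos_of_lt n1
  refine ⟨lt_of_lt_of_le a2 a1, n5.trans a1, n5.trans ?_⟩
  have h4 := (hP (kk T m s) (Nat.lt_succ_self _) I hI).2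
  refine le_trans ?_ h4
  apply sz_le_sum
  rw [List.mem_filter]
  exact ⟨hI, by simp⟩

theorem sum_conv {n : ℕ} (j : Fin n) (g : ℕ → ℝ) :
    ∑ i ∈ range (j : ℕ), g i = ∑ i : Fin n, if (i : ℕ) < (j : ℕ) then g i else 0 := by
  rw [Fin.sum_univ_eq_sum_range (fun i => if i < (j : ℕ) then g i else 0) n, ← Finset.sum_filter]
  congr 1
  ext i
  simp only [mem_range, mem_filter]
  constructor
  · intro h
    exact ⟨h.trans j.isLt, h⟩
  · intro h
    exact h.2

end MRUN

open MRUN

theorem x_RUN (h_GEO : S_GEO) (h_CNT : S_CNT) (h_ARE : S_ARE) : S_RUN := by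
  intro T m h n s W hT hm hs hsm hW
  obtain ⟨R, hR⟩ := rul (h_GEO T m h n s hT hm hs hsm)
  refine ⟨R, fun t ht => ?_⟩
  obtain ⟨o1, o2, o3⟩ := h_ARE m n s t hsm ht
  obtain ⟨cn1, cn2, cn3⟩ := h_CNT T m h hT hm
  have hWt : ∀ i, 0 ≤ W i * t i := fun i => mul_nonneg (hW i).1 (ht i)
  have ha : 0 < T.a := hT.1
  have hmR : (0 : ℝ) < m := by exact_mod_cast hm
  have haR : (0 : ℝ) < T.a := by exact_mod_cast ha
  have hpR : (0 : ℝ) < 2 ^ h := by positivity
  refine hR t _ ht (add_nonneg o1 (Finset.sum_nonneg fun i _ => hWt i)) ?_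
  intro b hb j S hS
  have eA : AJ T m h s j = Aw T m h (s j) := by
    unfold AJ
    rw [dif_pos j.isLt]
  have eB : ∀ (i : Fin n) u, BJ T m h s i u = Bw T m h (s i) u := by
    intro i u
    unfold BJ
    rw [dif_pos i.isLt]
  have hb' : ∀ i : Fin n, ∃ u ∈ Aw T m h (s i), Bw T m h (s i) u = b i := by
    intro i
    obtain ⟨u, hu, hu'⟩ := hb i
    refine ⟨u, ?_, ?_⟩
    · have : AJ T m h s i = Aw T m h (s i) := by
        unfold AJ
        rw [dif_pos i.isLt]
      rwa [this] at hu
    · rw [← eB]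
      exact hu'
  rw [eA, sum_conv] at hS
  -- the numbers
  set c : Fin n → ℝ := fun i =>
    (((Aw T m h (s j)).filter fun u => Bw T m h (s i) u = b i).card : ℝ) with hc
  have hS' : ((Aw T m h (s j)).card : ℝ) * S ≤
      ∑ i : Fin n, if (i : ℕ) < (j : ℕ) then c i * t i else 0 := by
    refine hS.trans (le_of_eq (Finset.sum_congr rfl fun i _ => ?_))
    by_cases hij : (i : ℕ) < (j : ℕ)
    · rw [if_pos hij, if_pos hij, ext_val]
      simp only [hc, eB]
    · rw [if_neg hij, if_neg hij]
  have cle : ∀ i : Fin n, (i : ℕ) < (j : ℕ) →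
      (s i * T.a ≤ m → c i ≤ 2 ^ ls m (s i) T.a h) ∧
      (m < s i * T.a → c i ≤ ((lvl T (kk T m (s i))).mx : ℝ) * 2 ^ h) ∧
      (m < s j * T.a → c i ≤
        (((lvl T (kk T m (s i))).gs.getD (kk T m (s j)) 0 : ℕ) : ℝ) * 2 ^ h) := by
    intro i hij
    have hle : s j ≤ s i := hs (show i ≤ j from le_of_lt hij)
    obtain ⟨d1, d2, d3⟩ := cn3 (s i) (s j) (b i) hle (hsm i) (hb' i)
    refine ⟨fun h1 => ?_, fun h1 => ?_, fun h1 => ?_⟩
    · have := d1 h1
      simp only [hc]
      exact_mod_cast this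
    · have := d2 h1
      simp only [hc]
      exact_mod_cast this
    · have := d3 h1
      simp only [hc]
      exact_mod_cast this
  have caseA : ((Aw T m h (s j)).card : ℝ) = T.a * 2 ^ h →
      S + t j ≤ OPT m s t + ∑ i, W i * t i := by
    intro hcard
    have hMpos : (0 : ℝ) < T.a * 2 ^ h := by positivity
    have h1 : (T.a * 2 ^ h : ℝ) * S ≤ (T.a * 2 ^ h) * ∑ i, W i * t i := by
      rw [← hcard]
      refine hS'.trans ?_
      rw [hcard, Finset.mul_sum]
      refine Finset.sum_le_sum fun i _ => ?_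
      by_cases hij : (i : ℕ) < (j : ℕ)
      · rw [if_pos hij]
        have hci : c i ≤ T.a * 2 ^ h * W i := by
          obtain ⟨_, w1, w2⟩ := hW i
          obtain ⟨e1, e2, _⟩ := cle i hij
          rcases le_or_gt (s i * T.a) m with h2 | h2
          · have h3 := w1 h2
            have h4 := e1 h2
            unfold Sz at h3
            rw [div_le_iff₀ hMpos] at h3
            linarith
          · have h3 := (w2 h2).1
            have h4 := e2 h2
            rw [div_le_iff₀ haR] at h3
            nlinarith [mul_le_mul_of_nonneg_right h3 hpR.le]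
        calc c i * t i ≤ T.a * 2 ^ h * W i * t i := mul_le_mul_of_nonneg_right hci (ht i)
          _ = T.a * 2 ^ h * (W i * t i) := by ring
      · rw [if_neg hij]
        exact mul_nonneg hMpos.le (hWt i)
    have h2 : S ≤ ∑ i, W i * t i := le_of_mul_le_mul_left h1 hMpos
    have h3 := o2 j
    linarith
  rcases le_or_gt (s j * T.a) m with hA | hB
  · apply caseA
    rw [cn1 _ hA]
    push_cast
    ring
  · have hcard := cn2 (s j) (hsm j) hB
    obtain ⟨l1, l2, l3⟩ := lev hT hm (hsm j)
    have htot : (lvl T (kk T m (s j))).tot ≤ T.a := by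
      have h1 : (Aw T m h (s j)).card ≤ T.a * 2 ^ h := by
        have h2 : Aw T m h (s j) ⊆ range (T.a * 2 ^ h) := by
          unfold Aw
          split_ifs
          · exact Finset.Subset.refl _
          · exact Finset.filter_subset _ _
        have h3 := Finset.card_le_card h2
        rwa [Finset.card_range] at h3
      rw [hcard] at h1
      exact Nat.le_of_mul_le_mul_right h1 (by positivity)
    rcases lt_or_eq_of_le htot with hlt | heq
    swap
    · apply caseA
      rw [hcard, heq]
      push_cast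
      ring
    -- the main case
    set k' := kk T m (s j) with hk'
    have tR : (0 : ℝ) < (lvl T k').tot := by exact_mod_cast l1
    set q : ℝ := ((lvl T k').mn : ℝ) / (lvl T k').tot with hq
    set g : Fin n → ℝ := fun i => (((lvl T (kk T m (s i))).gs.getD k' 0 : ℕ) : ℝ) with hg
    have q0 : 0 ≤ q := by positivity
    have q1 : q ≤ 1 := by
      rw [hq, div_le_one tR]
      exact_mod_cast l2
    have qg : q ≤ g j / (lvl T k').tot := by
      rw [hq]
      apply div_le_div_of_nonneg_right _ tR.le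
      simp only [hg]
      exact_mod_cast l3
    have hcR : ((Aw T m h (s j)).card : ℝ) = (lvl T k').tot * 2 ^ h := by
      rw [hcard]
      push_cast
      ring
    have h1 : ((lvl T k').tot * 2 ^ h : ℝ) * S ≤
        ((lvl T k').tot * 2 ^ h) *
          ∑ i : Fin n, if (i : ℕ) < (j : ℕ) then g i / (lvl T k').tot * t i else 0 := by
      rw [← hcR]
      refine hS'.trans ?_
      rw [hcR, Finset.mul_sum]
      refine Finset.sum_le_sum fun i _ => ?_
      by_cases hij : (i : ℕ) < (j : ℕ)
      · rw [if_pos hij, if_pos hij]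
        have h2 := (cle i hij).2.2 hB
        have h3 : (lvl T k').tot * 2 ^ h * (g i / (lvl T k').tot * t i) =
            g i * 2 ^ h * t i := by
          field_simp
        rw [h3]
        exact mul_le_mul_of_nonneg_right h2 (ht i)
      · rw [if_neg hij, if_neg hij, mul_zero]
    have hMpos : (0 : ℝ) < (lvl T k').tot * 2 ^ h := by positivity
    have h2 := le_of_mul_le_mul_left h1 hMpos
    -- the optimum
    have o4 : q * ∑ i, ((s i : ℝ) / m) * t i ≤ q * OPT m s t := by
      apply mul_le_mul_of_nonneg_left _ q0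
      have h3 : ∑ i, ((s i : ℝ) / m) * t i = (∑ i, (s i : ℝ) * t i) / m := by
        rw [Finset.sum_div]
        exact Finset.sum_congr rfl fun i _ => by ring
      rw [h3, div_le_iff₀ hmR]
      linarith
    have o5 : (1 - q) * t j ≤ (1 - q) * OPT m s t :=
      mul_le_mul_of_nonneg_left (o2 j) (by linarith)
    have o6 : q * t j ≤ g j / (lvl T k').tot * t j := mul_le_mul_of_nonneg_right qg (ht j)
    have key : (∑ i : Fin n, if (i : ℕ) < (j : ℕ) then g i / (lvl T k').tot * t i else 0) +
        g j / (lvl T k').tot * t j ≤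
        (∑ i, W i * t i) + q * ∑ i, ((s i : ℝ) / m) * t i := by
      have h3 : g j / (lvl T k').tot * t j =
          ∑ i : Fin n, if i = j then g i / (lvl T k').tot * t i else 0 := by
        rw [Finset.sum_ite_eq' univ j]
        simp
      rw [h3, Finset.mul_sum, ← Finset.sum_add_distrib, ← Finset.sum_add_distrib]
      refine Finset.sum_le_sum fun i _ => ?_
      have hv : 0 ≤ q * (((s i : ℝ) / m) * t i) :=
        mul_nonneg q0 (mul_nonneg (by positivity) (ht i))
      rcases le_or_gt i j with hij | hij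
      · have hsij : s j ≤ s i := hs hij
        have h4 : m < s i * T.a := lt_of_lt_of_le hB (Nat.mul_le_mul_right _ hsij)
        have h5 := ((hW i).2.2 h4).2 k' (kk_mono T hsij) hlt
        have h6 : g i / (lvl T k').tot * t i ≤ W i * t i + q * (((s i : ℝ) / m) * t i) := by
          have h7 := mul_le_mul_of_nonneg_right h5 (ht i)
          have h8 : (g i / (lvl T k').tot - q * ((s i : ℝ) / m)) * t i ≤ W i * t i := h7
          nlinarith [h8]
        rcases eq_or_lt_of_le hij with h7 | h7
        · subst h7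
          rw [if_neg (lt_irrefl _), if_pos rfl, zero_add]
          exact h6
        · have h8 : (i : ℕ) < (j : ℕ) := h7
          rw [if_pos h8, if_neg (ne_of_lt h7), add_zero]
          exact h6
      · have h8 : ¬ (i : ℕ) < (j : ℕ) := not_lt.mpr (le_of_lt hij)
        rw [if_neg h8, if_neg (ne_of_gt hij), add_zero]
        exact add_nonneg (hWt i) hv
    nlinarith [h2, o4, o5, o6, key]

end Pool.Agent.RLA
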