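import Mathlib

/-!
# Laminar list scheduling (MP_e25616_lc)

The line consists of `M` units. The jobs `0, 1, 2, …` are treated in this order. `A j` is the set of
the units which the job `j` may use, and `B j u` is the name of the block of the unit `u`; the job `j`
occupies one whole block. The blocks of a later job are nested in or disjoint from the blocks of an
earlier job. Every job takes the block which is free first.
-/

set_option autoImplicit false

namespace Pool.Agent.RLA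

open Finset

/-- the first time when one of the units of `A` is free -/
noncomputable def mn (A : Finset ℕ) (f : ℕ → ℝ) : ℝ := ⨅ u : {u // u ∈ A}, f u

/-- the first unit of `A` which is free at this time -/
noncomputable def am (A : Finset ℕ) (f : ℕ → ℝ) : ℕ := sInf {u | u ∈ A ∧ f u ≤ mn A f}

/-- the free times after a job with the running time `x` is started -/
noncomputable def stp (A : Finset ℕ) (B : ℕ → ℕ) (f : ℕ → ℝ) (x : ℝ) (u : ℕ) : ℝ :=
  if B u = B (am A f) then mn A f + x else f u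

/-- the free times before the job `j` is started -/
noncomputable def fr (A : ℕ → Finset ℕ) (B : ℕ → ℕ → ℕ) (t : ℕ → ℝ) : ℕ → ℕ → ℝ
  | 0 => fun _ => 0
  | j + 1 => stp (A j) (B j) (fr A B t j) (t j)

/-- the start of the job `j` -/
noncomputable def St (A : ℕ → Finset ℕ) (B : ℕ → ℕ → ℕ) (t : ℕ → ℝ) (j : ℕ) : ℝ :=
  mn (A j) (fr A B t j)

/-- the block of the job `j` -/
noncomputable def Bk (A : ℕ → Finset ℕ) (B : ℕ → ℕ → ℕ) (t : ℕ → ℝ) (j : ℕ) : ℕ :=
  B j (am (A j) (fr A B t j))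

/-- admissible data -/
structure Dat (M : ℕ) (A : ℕ → Finset ℕ) (B : ℕ → ℕ → ℕ) : Prop where
  sub : ∀ j, ∀ u ∈ A j, u < M
  ne : ∀ j, (A j).Nonempty
  closed : ∀ j u v, u ∈ A j → v < M → B j v = B j u → v ∈ A j
  nest : ∀ i j, i < j → ∀ u v, u ∈ A j → v ∈ A j → B j u = B j v → B i u = B i v

section basic

variable {A : Finset ℕ} {f : ℕ → ℝ}

theorem mn_le (f : ℕ → ℝ) {u : ℕ} (hu : u ∈ A) : mn A f ≤ f u :=
  ciInf_le (Set.finite_range fun u : {u // u ∈ A} => f u).bddBelow (⟨u, hu⟩ : {u // u ∈ A})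

theorem am_mem (hA : A.Nonempty) (f : ℕ → ℝ) : am A f ∈ A ∧ f (am A f) ≤ mn A f := by
  refine Nat.sInf_mem (s := {u | u ∈ A ∧ f u ≤ mn A f}) ?_
  obtain ⟨a, ha⟩ := hA
  have : Nonempty {u // u ∈ A} := ⟨⟨a, ha⟩⟩
  obtain ⟨u, hu⟩ := exists_eq_ciInf_of_finite (f := fun u : {u // u ∈ A} => f u)
  exact ⟨u, u.2, hu.le⟩

theorem f_am (hA : A.Nonempty) (f : ℕ → ℝ) : f (am A f) = mn A f :=
  le_antisymm (am_mem hA f).2 (mn_le f (am_mem hA f).1)

theorem le_mn (hA : A.Nonempty) (f : ℕ → ℝ) {x : ℝ} (h : ∀ u ∈ A, x ≤ f u) : x ≤ mn A f := by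
  rw [← f_am hA f]
  exact h _ (am_mem hA f).1

end basic

section main

variable {M : ℕ} {A : ℕ → Finset ℕ} {B : ℕ → ℕ → ℕ}

/-- free times are constant on the blocks of later jobs -/
theorem fr_const (h : Dat M A B) (t : ℕ → ℝ) (j : ℕ) : ∀ i, i ≤ j → ∀ u v, u ∈ A j → v ∈ A j →
    B j u = B j v → fr A B t i u = fr A B t i v := by
  intro i
  induction i with
  | zero => intro _ u v _ _ _; rfl
  | succ i ih =>
    intro hi u v hu hv huv
    have h1 := ih (by omega) u v hu hv huv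
    have h2 := h.nest i j (by omega) u v hu hv huv
    show stp (A i) (B i) (fr A B t i) (t i) u = stp (A i) (B i) (fr A B t i) (t i) v
    unfold stp
    rw [h2, h1]

theorem fr_block (h : Dat M A B) (t : ℕ → ℝ) (j u : ℕ) (hu : u < M)
    (hb : B j u = Bk A B t j) : u ∈ A j ∧ fr A B t j u = St A B t j := by
  have h1 := am_mem (h.ne j) (fr A B t j)
  have h2 : u ∈ A j := h.closed j _ u h1.1 hu hb
  refine ⟨h2, ?_⟩
  rw [fr_const h t j j le_rfl u _ h2 h1.1 hb]
  exact f_am (h.ne j) _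

theorem fr_succ_of (t : ℕ → ℝ) (j u : ℕ) (hb : B j u = Bk A B t j) :
    fr A B t (j + 1) u = St A B t j + t j := by
  show stp (A j) (B j) (fr A B t j) (t j) u = _
  unfold stp
  exact if_pos hb

theorem fr_succ_not (t : ℕ → ℝ) (j u : ℕ) (hb : B j u ≠ Bk A B t j) :
    fr A B t (j + 1) u = fr A B t j u := by
  show stp (A j) (B j) (fr A B t j) (t j) u = _
  unfold stp
  exact if_neg hb

theorem fr_le_succ (h : Dat M A B) (t : ℕ → ℝ) (ht : ∀ j, 0 ≤ t j) (j u : ℕ) (hu : u < M) :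
    fr A B t j u ≤ fr A B t (j + 1) u := by
  by_cases hb : B j u = Bk A B t j
  · rw [fr_succ_of t j u hb, (fr_block h t j u hu hb).2]
    linarith [ht j]
  · rw [fr_succ_not t j u hb]

theorem fr_mono (h : Dat M A B) (t : ℕ → ℝ) (ht : ∀ j, 0 ≤ t j) {u : ℕ} (hu : u < M) {i j : ℕ}
    (hij : i ≤ j) : fr A B t i u ≤ fr A B t j u :=
  (monotone_nat_of_le_succ fun j => fr_le_succ h t ht j u hu) hij

theorem St_nonneg (h : Dat M A B) (t : ℕ → ℝ) (ht : ∀ j, 0 ≤ t j) (j : ℕ) : 0 ≤ St A B t j :=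
  le_mn (h.ne j) _ fun u hu => fr_mono h t ht (h.sub j u hu) (Nat.zero_le j)

theorem am_lt (h : Dat M A B) (t : ℕ → ℝ) (j : ℕ) : am (A j) (fr A B t j) < M :=
  h.sub j _ (am_mem (h.ne j) _).1

/-- a job whose block lies in the block of an earlier job starts after it -/
theorem St_after (h : Dat M A B) (t : ℕ → ℝ) (ht : ∀ j, 0 ≤ t j) {i j : ℕ} (hij : i < j)
    (hb : B i (am (A j) (fr A B t j)) = Bk A B t i) : St A B t i + t i ≤ St A B t j := by
  have h1 := fr_succ_of (A := A) (B := B) t i _ hb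
  have h2 := fr_mono h t ht (am_lt h t j) (i := i + 1) (j := j) hij
  rw [h1] at h2
  exact h2.trans (f_am (h.ne j) _).le

/-- the total of the free times of a set of units -/
theorem sum_fr (h : Dat M A B) (t : ℕ → ℝ) (C : Finset ℕ) (hC : ∀ u ∈ C, u < M) (j : ℕ) :
    ∑ u ∈ C, fr A B t j u =
      ∑ i ∈ range j, ((C.filter fun u => B i u = Bk A B t i).card : ℝ) * t i := by
  induction j with
  | zero => simp [fr]
  | succ j ih =>
    rw [Finset.sum_range_succ, ← ih]
    have h1 : ∀ u ∈ C, fr A B t (j + 1) u = fr A B t j u +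
        if B j u = Bk A B t j then t j else 0 := by
      intro u hu
      by_cases hb : B j u = Bk A B t j
      · rw [if_pos hb, fr_succ_of t j u hb, (fr_block h t j u (hC u hu) hb).2]
      · rw [if_neg hb, fr_succ_not t j u hb, add_zero]
    rw [Finset.sum_congr rfl h1, Finset.sum_add_distrib, ← Finset.sum_filter, Finset.sum_const,
      nsmul_eq_mul]

/-- the load bound -/
theorem load (h : Dat M A B) (t : ℕ → ℝ) (j : ℕ) :
    ((A j).card : ℝ) * St A B t j ≤
      ∑ i ∈ range j, (((A j).filter fun u => B i u = Bk A B t i).card : ℝ) * t i := by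
  rw [← sum_fr h t (A j) (h.sub j) j]
  have h3 : ∑ u ∈ A j, St A B t j ≤ ∑ u ∈ A j, fr A B t j u :=
    Finset.sum_le_sum fun u hu => mn_le _ hu
  rwa [Finset.sum_const, nsmul_eq_mul] at h3

end main

section nonanticipation

/-- the free times agree before `τ` -/
def Ag (M : ℕ) (τ : ℝ) (f f' : ℕ → ℝ) : Prop := ∀ u, u < M → f u = f' u ∨ (τ ≤ f u ∧ τ ≤ f' u)

theorem ag_lt {M : ℕ} {A : Finset ℕ} {τ : ℝ} {f f' : ℕ → ℝ} (hA : A.Nonempty)
    (hM : ∀ u ∈ A, u < M) (h : Ag M τ f f') (hτ : mn A f < τ) :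
    mn A f' = mn A f ∧ am A f' = am A f := by
  have a2 := (am_mem hA f).1
  have a3 := f_am hA f
  have e1 : mn A f' = mn A f := by
    apply le_antisymm
    · rcases h _ (hM _ a2) with h1 | h1
      · rw [← a3, h1]
        exact mn_le _ a2
      · linarith [h1.1]
    · refine le_mn hA _ fun u hu => ?_
      rcases h u (hM u hu) with h1 | h1
      · rw [← h1]
        exact mn_le _ hu
      · linarith [h1.2]
  refine ⟨e1, ?_⟩
  unfold am
  congr 1
  ext u
  simp only [Set.mem_ofPred_eq]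
  rw [e1]
  refine and_congr_right fun hu => ?_
  rcases h u (hM u hu) with h1 | h1
  · rw [h1]
  · constructor
    · intro h2
      linarith [h1.2]
    · intro h2
      linarith [h1.1]

theorem ag_le {M : ℕ} {A : Finset ℕ} {τ : ℝ} {f f' : ℕ → ℝ} (hA : A.Nonempty)
    (hM : ∀ u ∈ A, u < M) (h : Ag M τ f f') (hτ : τ ≤ mn A f) : τ ≤ mn A f' := by
  refine le_mn hA _ fun u hu => ?_
  rcases h u (hM u hu) with h1 | h1
  · rw [← h1]
    exact hτ.trans (mn_le _ hu)
  · exact h1.2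

theorem ag_stp {M : ℕ} {A : Finset ℕ} {B : ℕ → ℕ} {τ : ℝ} {f f' : ℕ → ℝ} (hA : A.Nonempty)
    (hM : ∀ u ∈ A, u < M) (hc : ∀ u v, u ∈ A → v < M → B v = B u → v ∈ A) (h : Ag M τ f f')
    {x x' : ℝ} (hx : 0 ≤ x) (hx' : 0 ≤ x') (h1 : mn A f + x < τ → x' = x)
    (h2 : mn A f < τ → τ ≤ mn A f + x → τ ≤ mn A f + x') :
    Ag M τ (stp A B f x) (stp A B f' x') := by
  intro u hu
  rcases lt_or_ge (mn A f) τ with hm | hm
  · obtain ⟨e1, e2⟩ := ag_lt hA hM h hm
    unfold stp
    rw [e1, e2]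
    split_ifs with hb
    · rcases lt_or_ge (mn A f + x) τ with h3 | h3
      · left
        rw [h1 h3]
      · exact Or.inr ⟨h3, h2 hm h3⟩
    · exact h u hu
  · have hm' := ag_le hA hM h hm
    by_cases huA : u ∈ A
    · have a1 := mn_le f huA
      have b1 := mn_le f' huA
      right
      unfold stp
      constructor
      · split_ifs
        · linarith
        · linarith
      · split_ifs
        · linarith
        · linarith
    · have n1 : B u ≠ B (am A f) := fun e => huA (hc _ u (am_mem hA f).1 hu e)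
      have n2 : B u ≠ B (am A f') := fun e => huA (hc _ u (am_mem hA f').1 hu e)
      unfold stp
      rw [if_neg n1, if_neg n2]
      exact h u hu

theorem ag_fr {M : ℕ} {A : ℕ → Finset ℕ} {B : ℕ → ℕ → ℕ} (hD : Dat M A B) {t t' : ℕ → ℝ} {τ : ℝ}
    (ht : ∀ j, 0 ≤ t j) (ht' : ∀ j, 0 ≤ t' j)
    (h1 : ∀ j, St A B t j + t j < τ → t' j = t j)
    (h2 : ∀ j, St A B t j < τ → τ ≤ St A B t j + t j → τ ≤ St A B t j + t' j) :
    ∀ j, Ag M τ (fr A B t j) (fr A B t' j) := by
  intro j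
  induction j with
  | zero =>
    intro u _
    left
    rfl
  | succ j ih =>
    exact ag_stp (hD.ne j) (hD.sub j) (hD.closed j) ih (ht j) (ht' j) (h1 j) (h2 j)

/-- the scheduler is non-anticipating -/
theorem nonant {M : ℕ} {A : ℕ → Finset ℕ} {B : ℕ → ℕ → ℕ} (hD : Dat M A B) {t t' : ℕ → ℝ} {τ : ℝ}
    (ht : ∀ j, 0 ≤ t j) (ht' : ∀ j, 0 ≤ t' j)
    (h1 : ∀ j, St A B t j + t j < τ → t' j = t j)
    (h2 : ∀ j, St A B t j < τ → τ ≤ St A B t j + t j → τ ≤ St A B t j + t' j) (j : ℕ) :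
    (St A B t j < τ →
      St A B t' j = St A B t j ∧ am (A j) (fr A B t' j) = am (A j) (fr A B t j)) ∧
    (τ ≤ St A B t j → τ ≤ St A B t' j) := by
  have h := ag_fr hD ht ht' h1 h2 j
  exact ⟨fun hj => ag_lt (hD.ne j) (hD.sub j) h hj, fun hj => ag_le (hD.ne j) (hD.sub j) h hj⟩

end nonanticipation

end Pool.Agent.RLA
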