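import Pool.Agent.BSR.Defs
import Pool.Agent.RLA.Sched

/-!
# The rule of a laminar system of blocks (MP_e25616_lc)

The `M` units have the real size `x`; a block is an interval of units and is long enough for its job. The
positions are rounded down to integers.
-/

set_option autoImplicit false

namespace Pool.Agent.RLA

open Finset Pool.Agent.BSR

/-- extension by zero -/
noncomputable def ext {n : ℕ} (t : Fin n → ℝ) (j : ℕ) : ℝ := if h : j < n then t ⟨j, h⟩ else 0

theorem ext_val {n : ℕ} (t : Fin n → ℝ) (j : Fin n) : ext t (j : ℕ) = t j := by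
  unfold ext
  rw [dif_pos j.isLt]

theorem ext_nonneg {n : ℕ} {t : Fin n → ℝ} (ht : ∀ j, 0 ≤ t j) (j : ℕ) : 0 ≤ ext t j := by
  unfold ext
  split_ifs with h
  · exact ht _
  · exact le_refl _

theorem ext_out {n : ℕ} (t : Fin n → ℝ) {j : ℕ} (h : ¬ j < n) : ext t j = 0 := by
  unfold ext
  rw [dif_neg h]

/-- floor of disjoint intervals -/
theorem flo {x y : ℝ} {w : ℕ} (hx : 0 ≤ x) (h : x + w ≤ y) : ⌊x⌋₊ + w ≤ ⌊y⌋₊ := by
  rw [← Nat.floor_add_natCast hx]
  exact Nat.floor_le_floor h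

/-- the blocks are intervals which are long enough -/
structure Geo (m M : ℕ) (x : ℝ) {n : ℕ} (s : Fin n → ℕ) (A : ℕ → Finset ℕ) (B : ℕ → ℕ → ℕ)
    (lo hi : ℕ → ℕ → ℕ) : Prop where
  dat : Dat M A B
  hx : 0 < x
  hxM : x * M ≤ m
  lo_le : ∀ (j : Fin n) u, u ∈ A j → lo j (B j u) ≤ u
  lt_hi : ∀ (j : Fin n) u, u ∈ A j → u < hi j (B j u)
  hi_le : ∀ (j : Fin n) u, u ∈ A j → hi j (B j u) ≤ M
  same : ∀ (j : Fin n) u v, u ∈ A j → lo j (B j u) ≤ v → v < hi j (B j u) → B j v = B j u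
  wide : ∀ (j : Fin n) u, u ∈ A j → (s j : ℝ) ≤ x * ((hi j (B j u) : ℝ) - lo j (B j u))

section

variable {m M n : ℕ} {x : ℝ} {s : Fin n → ℕ} {A : ℕ → Finset ℕ} {B : ℕ → ℕ → ℕ}
  {lo hi : ℕ → ℕ → ℕ}

/-- the first machine of the job `j` -/
noncomputable def psn (x : ℝ) (A : ℕ → Finset ℕ) (B : ℕ → ℕ → ℕ) (lo : ℕ → ℕ → ℕ) {n : ℕ}
    (t : Fin n → ℝ) (j : Fin n) : ℕ :=
  ⌊x * (lo j (Bk A B (ext t) j) : ℝ)⌋₊

/-- two jobs -/
theorem two (h : Geo m M x s A B lo hi) {t : Fin n → ℝ} (ht : ∀ j, 0 ≤ t j) {i j : Fin n}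
    (hij : (i : ℕ) < j) {τ : ℝ} (h1 : St A B (ext t) j ≤ τ) (h2 : τ < St A B (ext t) i + t i) :
    psn x A B lo t i + s i ≤ psn x A B lo t j ∨ psn x A B lo t j + s j ≤ psn x A B lo t i := by
  have hD := h.dat
  have ht' := ext_nonneg ht
  set ai := am (A i) (fr A B (ext t) i) with hai
  set aj := am (A j) (fr A B (ext t) j) with haj
  have mi : ai ∈ A i := (am_mem (hD.ne i) _).1
  have mj : aj ∈ A j := (am_mem (hD.ne j) _).1
  have hne : B i aj ≠ B i ai := by
    intro e
    have h3 := St_after hD (ext t) ht' hij (i := i) (j := j) e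
    rw [ext_val] at h3
    linarith
  have ebi : Bk A B (ext t) i = B i ai := rfl
  have ebj : Bk A B (ext t) j = B j aj := rfl
  have hdis : hi i (B i ai) ≤ lo j (B j aj) ∨ hi j (B j aj) ≤ lo i (B i ai) := by
    by_contra hcon
    push Not at hcon
    obtain ⟨c1, c2⟩ := hcon
    have l1 := h.lo_le i ai mi
    have l2 := h.lt_hi i ai mi
    have l3 := h.lo_le j aj mj
    have l4 := h.lt_hi j aj mj
    -- a common unit
    have key : ∀ u, lo i (B i ai) ≤ u → u < hi i (B i ai) → lo j (B j aj) ≤ u →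
        u < hi j (B j aj) → False := by
      intro u u1 u2 u3 u4
      have s1 := h.same i ai u mi u1 u2
      have s2 := h.same j aj u mj u3 u4
      have s3 : u ∈ A j := hD.closed j aj u mj (lt_of_lt_of_le u4 (h.hi_le j aj mj)) s2
      have s4 := hD.nest i j hij u aj s3 mj s2
      exact hne (by rw [← s4, s1])
    rcases le_total (lo i (B i ai)) (lo j (B j aj)) with hl | hl
    · exact key (lo j (B j aj)) hl c1 le_rfl (lt_of_le_of_lt l3 l4)
    · exact key (lo i (B i ai)) le_rfl (lt_of_le_of_lt l1 l2) hl c2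
  have hx := h.hx
  have wi := h.wide i ai mi
  have wj := h.wide j aj mj
  unfold psn
  rw [ebi, ebj]
  rcases hdis with hd | hd
  · left
    apply flo (by positivity)
    have hd' : (hi i (B i ai) : ℝ) ≤ lo j (B j aj) := by exact_mod_cast hd
    nlinarith [mul_le_mul_of_nonneg_left hd' hx.le]
  · right
    apply flo (by positivity)
    have hd' : (hi j (B j aj) : ℝ) ≤ lo i (B i ai) := by exact_mod_cast hd
    nlinarith [mul_le_mul_of_nonneg_left hd' hx.le]

/-- inside the line -/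
theorem ins (h : Geo m M x s A B lo hi) (t : Fin n → ℝ) (j : Fin n) :
    psn x A B lo t j + s j ≤ m := by
  have hD := h.dat
  set aj := am (A j) (fr A B (ext t) j) with haj
  have mj : aj ∈ A j := (am_mem (hD.ne j) _).1
  have ebj : Bk A B (ext t) j = B j aj := rfl
  have wj := h.wide j aj mj
  have hM : (hi j (B j aj) : ℝ) ≤ M := by exact_mod_cast h.hi_le j aj mj
  have hx := h.hx
  have h9 : psn x A B lo t j + s j ≤ ⌊(m : ℝ)⌋₊ := by
    unfold psn
    rw [ebj]
    apply flo (by positivity)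
    nlinarith [mul_le_mul_of_nonneg_left hM hx.le, h.hxM]
  rwa [Nat.floor_natCast] at h9

/-- the rule -/
theorem rul (h : Geo m M x s A B lo hi) : ∃ R : Rule m s, ∀ (t : Fin n → ℝ) (T : ℝ),
    (∀ j, 0 ≤ t j) → 0 ≤ T →
    (∀ b : ℕ → ℕ, (∀ i, ∃ u ∈ A i, B i u = b i) → ∀ (j : Fin n) (S : ℝ),
      ((A j).card : ℝ) * S ≤
        ∑ i ∈ range j, (((A j).filter fun u => B i u = b i).card : ℝ) * ext t i →
      S + t j ≤ T) →
    makespan t (R.run t) ≤ T := by
  have hD := h.dat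
  refine ⟨⟨fun t => ⟨fun j => St A B (ext t) j, fun j => psn x A B lo t j⟩, ?_, ?_⟩, ?_⟩
  · intro t ht
    refine ⟨fun j => St_nonneg hD (ext t) (ext_nonneg ht) j, fun j => ins h t j, ?_⟩
    intro i j hij τ h1 h2 h3 h4
    simp only at h1 h2 h3 h4 ⊢
    have hne : (i : ℕ) ≠ j := fun e => hij (Fin.ext e)
    rcases lt_or_gt_of_ne hne with hl | hl
    · exact two h ht hl h3 h2
    · exact (two h ht hl h1 h4).symm
  · intro t t' ht ht' τ h1 h2 j
    simp only at h1 h2 ⊢
    have hh := nonant hD (t := ext t) (t' := ext t') (τ := τ) (ext_nonneg ht) (ext_nonneg ht') ?_ ?_ j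
    · refine ⟨fun hj => ?_, hh.2⟩
      obtain ⟨e1, e2⟩ := hh.1 hj
      refine ⟨e1, ?_⟩
      unfold psn Bk
      rw [e2]
    · intro i hi'
      by_cases hin : i < n
      · have h3 := h1 ⟨i, hin⟩
        have e : ext t i = t ⟨i, hin⟩ := ext_val t ⟨i, hin⟩
        have e' : ext t' i = t' ⟨i, hin⟩ := ext_val t' ⟨i, hin⟩
        rw [e] at hi' ⊢
        rw [e']
        exact h3 hi'
      · rw [ext_out t hin, ext_out t' hin]
    · intro i hlt hle
      by_cases hin : i < n
      · have h3 := h2 ⟨i, hin⟩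
        have e : ext t i = t ⟨i, hin⟩ := ext_val t ⟨i, hin⟩
        have e' : ext t' i = t' ⟨i, hin⟩ := ext_val t' ⟨i, hin⟩
        rw [e] at hle
        rw [e']
        exact h3 hlt hle
      · rw [ext_out t hin] at hle
        rw [ext_out t' hin]
        exact hle
  · intro t T ht hT hb
    unfold makespan
    refine Real.iSup_le (fun j => ?_) hT
    refine hb (Bk A B (ext t)) (fun i => ⟨_, (am_mem (hD.ne i) _).1, rfl⟩) j _ ?_
    exact load hD (ext t) j

end

end Pool.Agent.RLA
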