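import Pool.Agent.RLA.Stmts

/-!
# SCA: the blocks inside a cell
-/

set_option autoImplicit false

namespace Pool.Agent.RLA

open Finset Pool.Agent.BSR

theorem x_SCA (h_LSB : S_LSB) : S_SCA := by
  intro m s a h hm ha hs hmh
  obtain ⟨l1, l2, l3, -, -, -, -, -, -⟩ := h_LSB m a h hm
  have ha' : (0 : ℝ) < a := by exact_mod_cast ha
  have key : ∀ l, ls m s a h ≤ l → Sz m s a h ≤ 2 ^ l / ((a : ℝ) * 2 ^ h) := by
    intro l hl
    unfold Sz
    apply div_le_div_of_nonneg_right _ (by positivity)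
    exact pow_le_pow_right₀ (by norm_num) hl
  refine ⟨fun h1 => ?_, fun h2 => ?_, ?_, ?_⟩
  · refine (key h (l3 s h1)).trans (le_of_eq ?_)
    field_simp
  · have hh : 1 ≤ h := by
      by_contra hh
      have h0 : h = 0 := by omega
      subst h0
      have e1 : m ≤ a := by simpa using hmh
      have e2 : a ≤ s * a := Nat.le_mul_of_pos_left a hs
      have e3 : 2 * s * a = 2 * (s * a) := by ring
      omega
    obtain ⟨k, rfl⟩ : ∃ k, h = k + 1 := ⟨h - 1, by omega⟩
    have h3 : ls m s a (k + 1) ≤ k := by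
      apply l2
      calc s * a * 2 ^ (k + 1) = (2 * s * a) * 2 ^ k := by ring
        _ ≤ m * 2 ^ k := Nat.mul_le_mul_right _ h2
    refine (key k h3).trans (le_of_eq ?_)
    rw [pow_succ]
    field_simp
  · have h4 := l1 (2 * s)
    obtain ⟨l', hl'⟩ : ∃ l', l' = ls m (2 * s) a h := ⟨_, rfl⟩
    rw [← hl'] at h4
    have hp : 0 < 2 ^ h := by positivity
    have hl1 : 1 ≤ l' := by
      by_contra hh
      have h0 : l' = 0 := by omega
      subst h0
      have e1 : 2 * s * a * 2 ^ h ≤ m := by simpa using h4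
      have e2 : a * 2 ^ h ≤ s * (a * 2 ^ h) := Nat.le_mul_of_pos_left _ hs
      have e3 : 2 * s * a * 2 ^ h = 2 * (s * (a * 2 ^ h)) := by ring
      have e4 : 0 < a * 2 ^ h := Nat.mul_pos ha hp
      omega
    obtain ⟨k, rfl⟩ : ∃ k, l' = k + 1 := ⟨l' - 1, by omega⟩
    have h5 : ls m s a h ≤ k := by
      apply l2
      have e1 : 2 * (s * a * 2 ^ h) ≤ 2 * (m * 2 ^ k) := by
        calc 2 * (s * a * 2 ^ h) = 2 * s * a * 2 ^ h := by ring
          _ ≤ m * 2 ^ (k + 1) := h4
          _ = 2 * (m * 2 ^ k) := by ring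
      omega
    have h6 := key k h5
    have h7 : Sz m (2 * s) a h = 2 * (2 ^ k / ((a : ℝ) * 2 ^ h)) := by
      unfold Sz
      rw [← hl', pow_succ]
      ring
    rw [h7]
    linarith
  · unfold Sz
    positivity

end Pool.Agent.RLA
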