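import Pool.Agent.RLA.Stmts

/-!
# SRT: sorted requests, the mixture of the rules (helper80)
-/

set_option autoImplicit false

namespace Pool.Agent.RLA

open Finset Pool.Agent.BSR

namespace MSRT

theorem sum_get (l : List Tr) (f : Tr → ℝ) :
    ∑ i : Fin l.length, f (l.get i) = (l.map f).sum := by
  exact Fin.sum_univ_fun_getElem l f

theorem sum_cast (l : List Tr) :
    (l.map fun T => (T.w : ℝ)).sum = (((l.map fun T => T.w).sum : ℕ) : ℝ) := by
  induction l with
  | nil => simp
  | cons a r ih => simp [ih]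

end MSRT

theorem x_SRT (h_ALW : S_ALW) (h_RUN : S_RUN) (h_ARE : S_ARE) : S_SRT := by
  intro Q P kn kd N Ts hQ hP hkd hN hTk hTN hCov hw m n s hm hanti hs
  have hmN : m ≤ N * 2 ^ m := by
    calc m ≤ 2 ^ m := (Nat.lt_two_pow_self).le
      _ = 1 * 2 ^ m := (one_mul _).symm
      _ ≤ N * 2 ^ m := Nat.mul_le_mul_right _ hN
  have hA := fun j : Fin n => h_ALW Q P kn kd N Ts hQ hkd hN hTk hTN hCov m m (s j) hm hmN
    (hs j).1 (hs j).2
  choose W hW1 hW2 using hA
  have hB := fun i : Fin Ts.length => h_RUN (Ts.get i) m m n s (fun j => W j (Ts.get i))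
    (hTk _ (List.get_mem Ts i)) hm hanti (fun j => (hs j).2)
    (fun j => hW1 j _ (List.get_mem Ts i))
  choose R hR using hB
  have hP0 : (0 : ℝ) < P := by exact_mod_cast hP
  have hkd0 : (0 : ℝ) < kd := by exact_mod_cast hkd
  have hm0 : (0 : ℝ) < m := by exact_mod_cast hm
  have hsum : ∑ i : Fin Ts.length, ((Ts.get i).w : ℝ) = P := by
    rw [MSRT.sum_get Ts fun T => (T.w : ℝ), MSRT.sum_cast, hw]
  have hone : ∑ i : Fin Ts.length, ((Ts.get i).w : ℝ) / P = 1 := by
    rw [← Finset.sum_div, hsum, div_self hP0.ne']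
  refine ⟨Fin Ts.length, inferInstance, fun i => ((Ts.get i).w : ℝ) / P, R,
    fun i => by positivity, hone, ?_⟩
  intro t ht
  obtain ⟨hO, -, hO2⟩ := h_ARE m n s t (fun j => (hs j).2) ht
  have hj : ∀ j : Fin n, ∑ i : Fin Ts.length, ((Ts.get i).w : ℝ) / P * W j (Ts.get i)
      ≤ (kn : ℝ) / kd * ((s j : ℝ) / m) := by
    intro j
    have h1 : ∑ i : Fin Ts.length, ((Ts.get i).w : ℝ) / P * W j (Ts.get i)
        = (∑ i : Fin Ts.length, ((Ts.get i).w : ℝ) * W j (Ts.get i)) / P := by
      rw [Finset.sum_div]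
      exact Finset.sum_congr rfl fun i _ => by ring
    rw [h1, MSRT.sum_get Ts fun T => (T.w : ℝ) * W j T, div_le_iff₀ hP0]
    calc (Ts.map fun T => (T.w : ℝ) * W j T).sum ≤ P * ((kn : ℝ) / kd) * ((s j : ℝ) / m) := hW2 j
      _ = (kn : ℝ) / kd * ((s j : ℝ) / m) * P := by ring
  calc ∑ i, ((Ts.get i).w : ℝ) / P * makespan t ((R i).run t)
      ≤ ∑ i : Fin Ts.length, ((Ts.get i).w : ℝ) / P *
          (OPT m s t + ∑ j, W j (Ts.get i) * t j) :=
        Finset.sum_le_sum fun i _ => mul_le_mul_of_nonneg_left (hR i t ht) (by positivity)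
    _ = OPT m s t + ∑ j, (∑ i : Fin Ts.length, ((Ts.get i).w : ℝ) / P * W j (Ts.get i)) * t j := by
        simp_rw [mul_add, Finset.sum_add_distrib]
        rw [← Finset.sum_mul, hone, one_mul]
        congr 1
        simp_rw [Finset.mul_sum, Finset.sum_mul]
        rw [Finset.sum_comm]
        exact Finset.sum_congr rfl fun j _ => Finset.sum_congr rfl fun i _ => by ring
    _ ≤ OPT m s t + ∑ j, (kn : ℝ) / kd * ((s j : ℝ) / m) * t j := by
        gcongr with j _
        · exact ht j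
        · exact hj j
    _ = OPT m s t + (kn : ℝ) / kd / m * ∑ j, (s j : ℝ) * t j := by
        rw [Finset.mul_sum]
        congr 1
        exact Finset.sum_congr rfl fun j _ => by ring
    _ ≤ OPT m s t + (kn : ℝ) / kd / m * (m * OPT m s t) := by
        gcongr
    _ = (1 + (kn : ℝ) / kd) * OPT m s t := by
        field_simp

end Pool.Agent.RLA
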