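import Pool.Agent.RLA.Tree
import Pool.Agent.BSR.Stmts

/-!
# Randomised batch scheduling on a linear array, ratio 2.47 for ALL m and ALL widths (MP_e25616_lc): statements of the modules   (helper90)

THEOREM (`S_MAI`). For all `m ≥ 1` and all requests `1 ≤ s j ≤ m` there is a randomised batch-style algorithm with
expected makespan at most `2.47 OPT` (published record: `2.5`).

IDEA. A deterministic run: the line is divided into `a` cells of the real size `m/a`, a tree of intervals of cells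
is fixed, and every job gets the first free minimal interval of the tree which is long enough (jobs in the order of
decreasing width; positions rounded down). Such a run has makespan at most `OPT + ∑ W (s j) t j` for an explicit `W`
(`Wok`). A mixture of 35 trees (`32 ≤ a ≤ 63`) has `∑ p W (s) ≤ 1.47 s/m` for every width.

Done: `Sched.lean` (`Dat`, `St`, `Bk`, the load), `Rul.lean` (`Geo`, `rul`: admissible data give a rule),
`Tree.lean` (definitions of the trees).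

Conventions: every module proves `theorem x_XXX : S_XXX`, or `theorem x_XXX (h1 : S_YYY) … : S_XXX` when it uses
other modules.
-/

set_option autoImplicit false

namespace Pool.Agent.RLA

open Finset Pool.Agent.BSR

/-- **LAB.** Labels of a list of disjoint intervals. (1) induction on the list. (4) two intervals of the list which both contain
`x` are equal: by `List.Pairwise` one of them lies to the left of the other one otherwise (induction on the list; `List.pairwise_cons`).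
(2) `lab nd x ≠ 0` by induction (some interval contains `x`), then (1) gives a `J` which contains `x`, and `J = I` by (4). (3) by
induction `hif nd (I.1 + 1) = J.2` for some `J ∈ nd` with `J.1 = I.1`; then `x = I.1` lies in both, so `J = I`. (5) Induction:
`{x < a | lab (I :: r) x ≠ 0}` is the disjoint union of `Ico I.1 I.2` and `{x < a | lab r x ≠ 0}`
(if `x` lies in `I` and `lab r x ≠ 0` then (1) gives `J ∈ r` with `J.1 ≤ x < I.2 ≤ J.1`). (6) If `x` is in this set then (1) gives `J ∋ x`, so `J` is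
not disjoint from `I = [p, q)`, so `J ⊆ I`: the set is contained in the union of the `Ico J.1 J.2` over the filtered list; the number
of elements of such a union is at most the sum (induction on an arbitrary list). -/
def S_LAB : Prop := ∀ nd : List (ℕ × ℕ), (∀ I ∈ nd, I.1 < I.2) → nd.Pairwise (fun I J => I.2 ≤ J.1) →
  (∀ x, lab nd x ≠ 0 → ∃ I ∈ nd, I.1 ≤ x ∧ x < I.2 ∧ lab nd x = I.1 + 1) ∧
  (∀ I ∈ nd, ∀ x, I.1 ≤ x → x < I.2 → lab nd x = I.1 + 1) ∧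
  (∀ I ∈ nd, hif nd (I.1 + 1) = I.2) ∧
  (∀ I ∈ nd, ∀ J ∈ nd, ∀ x, I.1 ≤ x → x < I.2 → J.1 ≤ x → x < J.2 → I = J) ∧
  ∀ a, (∀ I ∈ nd, I.2 ≤ a) →
    ((range a).filter fun x => lab nd x ≠ 0).card = (nd.map sz).sum ∧
    ∀ p q : ℕ, (∀ J ∈ nd, (p ≤ J.1 ∧ J.2 ≤ q) ∨ J.2 ≤ p ∨ q ≤ J.1) →
      ((range a).filter fun x => (p ≤ x ∧ x < q) ∧ lab nd x ≠ 0).card ≤
        ((nd.filter fun J => decide (p ≤ J.1 ∧ J.2 ≤ q)).map sz).sum

/-- **LSB.** Levels and classes. (1), (2): `Nat.sInf_mem` (the set contains `l = s * a * 2 ^ h`, as `x < 2 ^ x` and `1 ≤ m`),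
`Nat.sInf_le`. (3): `l = h` is in the set. (4): monotonicity. (5)-(8): `cls` is the quotient `s a / m` rounded up. (9) induction on the list. -/
def S_LSB : Prop := ∀ m a h : ℕ, 0 < m →
  (∀ s, s * a * 2 ^ h ≤ m * 2 ^ ls m s a h) ∧
  (∀ s l, s * a * 2 ^ h ≤ m * 2 ^ l → ls m s a h ≤ l) ∧
  (∀ s, s * a ≤ m → ls m s a h ≤ h) ∧
  (∀ s s', s ≤ s' → ls m s a h ≤ ls m s' a h) ∧
  (∀ s, s * a ≤ cls m s a * m) ∧
  (∀ s c, s * a ≤ c * m → cls m s a ≤ c) ∧
  (∀ s s', s ≤ s' → cls m s a ≤ cls m s' a) ∧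
  (∀ s, s ≤ m → cls m s a ≤ a) ∧
  ∀ (l : List Lv) (c c' : ℕ), c ≤ c' → lvi l c ≤ lvi l c'

/-- **GEO.** The tree gives admissible data (uses `S_LAB`, `S_LSB`). For a width `s` with `m < s a` let `k = kk T m s`; by `Tk` and
`cls m s T.a ≤ T.a` the level `k` exists, `cls ≤ (lvl T k).c`, and its nodes satisfy the hypotheses of `S_LAB` (`Nk`, `Pairwise`).
`Dat`: `sub` clear; `ne`: `0 < a 2 ^ h`, resp. a node `I` of the level `k` (`nd ≠ []`) and the unit `I.1 * 2 ^ h`; `closed`: `lab` is not `0`. `nest` for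
`i < j`: if `j ≥ n` then `u = v`. Otherwise `i < j < n` and `s j ≤ s i`. If `s j` and `s i` are inside a cell: `ls (s j) ≤ ls (s i)` and `u / 2 ^ ls (s i)` is a
function of `u / 2 ^ ls (s j)` (`Nat.div_div_eq_div_mul`). If `s j` is inside a cell and `s i` is not: `ls (s j) ≤ h`, the same with `2 ^ h`. If `s j` is not inside a
cell, then `s i` is not, and `k' = kk (s j) ≤ k = kk (s i)`; let `x = u / 2 ^ h`, `y = v / 2 ^ h`: both lie in the same node `J` of the level `k'`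
(`S_LAB` (1): `lab x = lab y = J.1 + 1`, the second node has the same left end: use `hif` or (4) at `J.1`). If `x` or `y` lies in a node `I` of the level `k` then `J ⊆ I` by
`Pk`, so both do; `lab = I.1 + 1` for both; otherwise both labels are `0`. `Geo`: `x M = m`; `lo_le`, `lt_hi`, `same`: inside a cell `Nat.div` facts
(`Nat.div_mul_le_self`, `Nat.lt_div_mul_add`/`Nat.div_eq_iff`), otherwise `S_LAB`; `hi_le`: inside a cell `2 ^ l ∣ a * 2 ^ h`; `wide`: inside a cell `x 2 ^ l = m 2 ^ l / (a 2 ^ h) ≥ s`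
by `S_LSB` (1); otherwise the node has at least `cls` cells, and `cls * m ≥ s a` (`S_LSB` (5)). -/
def S_GEO : Prop := ∀ (T : Tr) (m h n : ℕ) (s : Fin n → ℕ), Tk T → 0 < m → Antitone s →
  (∀ j, s j ≤ m) →
  Geo m (T.a * 2 ^ h) ((m : ℝ) / (T.a * 2 ^ h)) s (AJ T m h s) (BJ T m h s) (LJ T m h s) (HJ T m h s)

/-- **CEL.** Counting units by cells: `u ↦ (u / 2 ^ h, u % 2 ^ h)` (induction on `a`, or `Finset.card_eq_sum_card_fiberwise`); the
second set is contained in `Ico (b * 2 ^ l) ((b + 1) * 2 ^ l)`. -/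
def S_CEL : Prop := (∀ (a h : ℕ) (P : ℕ → Prop) [DecidablePred P],
    ((range (a * 2 ^ h)).filter fun u => P (u / 2 ^ h)).card = ((range a).filter P).card * 2 ^ h) ∧
  ∀ (C : Finset ℕ) (b l : ℕ), (C.filter fun u => u / 2 ^ l = b).card ≤ 2 ^ l

/-- **CNT.** The numbers of units (uses `S_LAB`, `S_LSB`, `S_CEL`). `s` is the width of an earlier job, `s' ≤ s` of a later job; `b` is a
block of `s`. (1) clear. (2) `S_CEL` and `S_LAB` (5), `Tk`. (3) `S_CEL`, second part. (4) The set is contained in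
`{u < a 2 ^ h | lab (nds s) (u / 2 ^ h) = b}`, `b = I.1 + 1` for a node `I` (because of the unit `u₀`), and `lab x = I.1 + 1` implies
`x ∈ [I.1, I.2)` (`S_LAB` (1): the node `J` of `x` has the same left end, so `J = I`); so there are at most
`sz I * 2 ^ h ≤ mx * 2 ^ h` units. (5) now `kk (s') ≤ kk s`, the set is contained in
`{u | x = u / 2 ^ h ∈ [I.1, I.2), lab (nds s') x ≠ 0}`: `S_CEL`, `S_LAB` (6) with `p = I.1`, `q = I.2`, and `Pk T (kk s) (kk s') I`. -/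
def S_CNT : Prop := ∀ (T : Tr) (m h : ℕ), Tk T → 0 < m →
  (∀ s, s * T.a ≤ m → (Aw T m h s).card = T.a * 2 ^ h) ∧
  (∀ s, s ≤ m → m < s * T.a → (Aw T m h s).card = (lvl T (kk T m s)).tot * 2 ^ h) ∧
  ∀ s s' b : ℕ, s' ≤ s → s ≤ m → (∃ u ∈ Aw T m h s, Bw T m h s u = b) →
    (s * T.a ≤ m → ((Aw T m h s').filter fun u => Bw T m h s u = b).card ≤ 2 ^ ls m s T.a h) ∧
    (m < s * T.a →
      ((Aw T m h s').filter fun u => Bw T m h s u = b).card ≤ (lvl T (kk T m s)).mx * 2 ^ h) ∧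
    (m < s' * T.a →
      ((Aw T m h s').filter fun u => Bw T m h s u = b).card ≤
        (lvl T (kk T m s)).gs.getD (kk T m s') 0 * 2 ^ h)

/-- **RUN.** One tree (uses `S_GEO`, `S_CNT`, `S_ARE`, and `rul`). Let `R` be the rule of `rul` for `S_GEO`, `O = OPT`, `T' = O + ∑ W t`
(the `T` of `rul`; `0 ≤ T'`). Let `b`, `j`, `S` be given, `c_i` the cardinality in `rul` for `i < j` (`AJ`, `BJ` at `i, j < n` are `Aw`, `Bw`); `s j ≤ s i`.
(A) `s j * a ≤ m`, or `m < s j * a` and `tot = a` for the level of `s j`: then `|A_j| = a 2 ^ h = M`. For every `i < j`: `c_i / M ≤ W i`: `S_CNT` (3) if `s i * a ≤ m`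
(`Wok`: `Sz ≤ W`), `S_CNT` (4) otherwise (`mx / a ≤ W`). So `S ≤ ∑_{i < j} W i t i` and `t j ≤ O`.
(`tot ≤ a` always: the card of a subset of `range a`, or `|Aw| ≤ |range (a 2 ^ h)|`.)
(B) `m < s j * a`, `0 < tot < a` (`0 < tot`: there is a node, `I.1 < I.2`). Then `m < s i * a` for `i < j`. With `k' = kk (s j) ≤ k_i = kk (s i)`, `g_i = gs_{k_i}.getD k' 0`, `q = mn_{k'} / tot_{k'}`:
`tot S ≤ ∑_{i < j} g_i t i` by `S_CNT` (2), (5). `q ≤ 1` (`mn ≤ sz I ≤ tot`) and `m O ≥ ∑ s i t i`, so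
`t j = (1 - q) t j + q t j ≤ (1 - q) O + q t j ≤ O - q ∑_i v_i t i + q t j`, `v_i = s i / m`. And `q ≤ g_j / tot` (`g_j ≥ mn`: `Pk T k' k' I`, the filtered list contains `I`
itself, so `mn ≤ sz I ≤` the sum `≤ gs.getD k' 0`). Hence `S + t j ≤ O + ∑_{i ≤ j} (g_i / tot - q v_i) t i - ∑_{i > j} q v_i t i ≤ O + ∑_i W i t i`
by `Wok` (for `i ≤ j` with `k' ≤ k_i`) and `0 ≤ W i`. -/
def S_RUN : Prop := ∀ (T : Tr) (m h n : ℕ) (s : Fin n → ℕ) (W : Fin n → ℝ), Tk T → 0 < m →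
  Antitone s → (∀ j, s j ≤ m) → (∀ j, Wok T m h (s j) (W j)) →
  ∃ R : Rule m s, ∀ t : Fin n → ℝ, (∀ j, 0 ≤ t j) →
    makespan t (R.run t) ≤ OPT m s t + ∑ j, W j * t j

/-- **SCA.** The blocks inside a cell (uses `S_LSB`). (1) `s a 2 ^ h ≤ m 2 ^ h`, so `ls ≤ h`. (2) `1 ≤ h`: otherwise `m ≤ a ≤ s a`, so `2 m ≤ 2 s a ≤ m`,
impossible. `s a 2 ^ h = (2 s a) 2 ^ (h - 1) ≤ m 2 ^ (h - 1)`, so `ls ≤ h - 1`. (3) `l' = ls m (2 s) a h`: `2 s a 2 ^ h ≤ m 2 ^ l'`; `l' ≥ 1` because `2 s a 2 ^ h ≥ 2 m > m`; so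
`s a 2 ^ h ≤ m 2 ^ (l' - 1)` and `ls m s a h ≤ l' - 1`. -/
def S_SCA : Prop := ∀ m s a h : ℕ, 0 < m → 0 < a → 1 ≤ s → m ≤ a * 2 ^ h →
  (s * a ≤ m → Sz m s a h ≤ 1 / a) ∧
  (2 * s * a ≤ m → Sz m s a h ≤ 1 / (2 * a)) ∧
  2 * Sz m s a h ≤ Sz m (2 * s) a h ∧ 0 ≤ Sz m s a h

/-- **WNM.** One breakpoint (uses `S_SCA`, `S_LSB`). `chk` gives (`Bool.and_eq_true`, `Nat.ble` and `Nat.blt` facts, `List.all_eq_true`): `0 < d0`, `0 < d1`,
the inequality for the sum, and for `T ∈ Ts`: `c1 a ≤ (c0 a / d0 + 1) d1` and (`d0 ≤ 2 c0 a` or `2 c1 a ≤ d1`). Here `c0 m < s d0`, `s d1 ≤ c1 m`, i.e.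
`c0/d0 < s/m ≤ c1/d1`. Claim: `cls m s a = c0 * a / d0 + 1`: `s a ≤ (c0 a / d0 + 1) m` since `s a d1 ≤ c1 m a ≤ (c0 a / d0 + 1) d1 m`; and `s a ≤ c m` with `c ≤ c0 a / d0` is
impossible since then `c d0 ≤ c0 a` and `s a d0 ≤ c m d0 ≤ c0 a m < s d0 a`. Note `cd x y * y ≥ x` for `0 < y`, so `x / y ≤ cd x y` in the reals.
`Wok`: if `s a ≤ m` then `cls ≤ 1`, so `c0 a < d0` and `wn` is in the first branch: if `2 c0 a < d0` then `2 c1 a ≤ d1`, so `2 s a ≤ m`, `Sz ≤ 1/(2 a) ≤ wn / Q`; otherwise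
`Sz ≤ 1 / a ≤ wn / Q`. If `m < s a` then `cls ≥ 2`, so `c0 a / d0 ≥ 1`, `d0 ≤ c0 a`, second branch, with `kk T m s = lvi T.lv (c0 a / d0 + 1)`: `mx / a ≤ wn / Q`, and for `k' ≤ kk` with
`tot < a`: `g / tot - (mn / tot) (s / m) ≤ g / tot - (mn / tot) (c0 / d0) = (g d0 - mn c0) / (tot d0) ≤ (natural subtraction) / (tot d0) ≤ cd (Q * …) (tot * d0) / Q ≤ wn / Q`
(`0 < tot` by `Tk`: the level `k' ≤ kk < length` has a node; `mxc` is at least every entry: induction on the list). The sum: `∑ w (wn / Q) = (1/Q) ∑ w wn ≤ kn P c0 / (kd d0) ≤ P (kn / kd) (s / m)`. -/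
def S_WNM : Prop := ∀ (Q P kn kd : ℕ) (Ts : List Tr) (p q : ℕ × ℕ) (m h s : ℕ), 0 < Q → 0 < kd →
  (∀ T ∈ Ts, Tk T) → 0 < m → 1 ≤ s → s ≤ m → (∀ T ∈ Ts, m ≤ T.a * 2 ^ h) →
  chk Q P kn kd Ts p q = true → p.1 * m < s * p.2 → s * q.2 ≤ q.1 * m →
  (∀ T ∈ Ts, Wok T m h s ((wn Q T p.1 p.2 : ℝ) / Q)) ∧
  (Ts.map fun T => (T.w : ℝ) * ((wn Q T p.1 p.2 : ℝ) / Q)).sum ≤
    P * ((kn : ℝ) / kd) * ((s : ℝ) / m)

/-- **WLK.** Consecutive breakpoints. Induction on `l` (for all `p`): if `s q.2 ≤ q.1 m` for the first element `q` of `l` take the pair `(p, q)`, otherwise `q.1 m < s q.2` and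
use the induction hypothesis. For `l = []` the hypotheses `p.1 m < s p.2` and `s (lst p []).2 ≤ (lst p []).1 m` contradict each other. -/
def S_WLK : Prop := ∀ (Q P kn kd : ℕ) (Ts : List Tr) (l : List (ℕ × ℕ)) (p : ℕ × ℕ) (m s : ℕ),
  walk Q P kn kd Ts p l = true → p.1 * m < s * p.2 → s * (lst p l).2 ≤ (lst p l).1 * m →
  ∃ p' q' : ℕ × ℕ, chk Q P kn kd Ts p' q' = true ∧ p'.1 * m < s * p'.2 ∧ s * q'.2 ≤ q'.1 * m

/-- all widths above `1/(4 N)` are covered by checked pairs of breakpoints -/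
def Cov (Q P kn kd N : ℕ) (Ts : List Tr) : Prop := ∀ m s : ℕ, m < 4 * N * s → s ≤ m →
  ∃ p q : ℕ × ℕ, chk Q P kn kd Ts p q = true ∧ p.1 * m < s * p.2 ∧ s * q.2 ≤ q.1 * m

/-- **ALW.** All widths (uses `S_WNM`, `S_SCA`). If `m < 4 N s` take the pair of `Cov` and `W T = wn / Q` (`S_WNM`). Otherwise `4 N s ≤ m`. Claim for these `s`, by induction
(strong induction on `m - s`, or on the number `e` with `m < 4 N s 2 ^ e`): `W T = Sz m s T.a h` works. `Wok`: `s a < 2 N s ≤ m`, so only the first alternative, and `0 ≤ Sz`. Sum: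
`∑ w Sz m s a h ≤ (1/2) ∑ w Sz m (2 s) a h` (`S_SCA`). If `4 N (2 s) ≤ m` use the induction hypothesis for `2 s`. Otherwise `m < 4 N (2 s)`, `2 s ≤ m` and the pair of `Cov` for `2 s`: `(2 s) a ≤ 2 N (2 s) ≤ m`, so
`Sz m (2 s) a h ≤ wn / Q` by `Wok`, and the sum of `w wn / Q` is at most `P (kn / kd) (2 s / m)`. -/
def S_ALW : Prop := ∀ (Q P kn kd N : ℕ) (Ts : List Tr), 0 < Q → 0 < kd → 0 < N →
  (∀ T ∈ Ts, Tk T) → (∀ T ∈ Ts, N ≤ T.a ∧ T.a < 2 * N) → Cov Q P kn kd N Ts →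
  ∀ m h s : ℕ, 0 < m → m ≤ N * 2 ^ h → 1 ≤ s → s ≤ m → ∃ W : Tr → ℝ,
    (∀ T ∈ Ts, Wok T m h s (W T)) ∧
    (Ts.map fun T => (T.w : ℝ) * W T).sum ≤ P * ((kn : ℝ) / kd) * ((s : ℝ) / m)

/-- **SRT.** Sorted requests (uses `S_ALW`, `S_RUN`, `S_ARE`). `h = m` (`m < 2 ^ m`). `S_ALW` for every `s j` gives `W j : Tr → ℝ`. `S_RUN` gives for every `i : Fin Ts.length` a rule `R i` (tree
`Ts.get i`). `Ω = Fin Ts.length`, `p i = (Ts.get i).w / P`; `∑ p = 1` (`List.sum_ofFn`/`Fin.sum_univ_get'`). `∑_i p i makespan ≤ ∑_i p i (O + ∑_j W j (T_i) t j) = O + ∑_j t j ∑_i p i W j (T_i) ≤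
O + (kn / kd) ∑_j (s j / m) t j ≤ (1 + kn / kd) O`. -/
def S_SRT : Prop := ∀ (Q P kn kd N : ℕ) (Ts : List Tr), 0 < Q → 0 < P → 0 < kd → 0 < N →
  (∀ T ∈ Ts, Tk T) → (∀ T ∈ Ts, N ≤ T.a ∧ T.a < 2 * N) → Cov Q P kn kd N Ts →
  (Ts.map fun T => T.w).sum = P →
  ∀ (m n : ℕ) (s : Fin n → ℕ), 0 < m → Antitone s → (∀ j, 1 ≤ s j ∧ s j ≤ m) →
    Good m s (1 + (kn : ℝ) / kd)

/-- **MAI.** The theorem (uses `S_SRT` with the data, `S_REL` and `Tuple.sort` as in `BSR/MAI.lean`). -/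
def S_MAI : Prop := ∀ (m n : ℕ) (s : Fin n → ℕ), 0 < m → (∀ j, 1 ≤ s j ∧ s j ≤ m) →
  Good m s (247 / 100)

end Pool.Agent.RLA
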