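import Pool.Agent.RLA.Rul

/-!
# Trees for laminar list scheduling (MP_e25616_lc): definitions

A tree has `a` cells and finitely many levels; a level is a list of disjoint intervals (nodes) `[lo, hi)` of
cells. A job of the class `c ≥ 2` (width between `(c - 1)/a` and `c/a` of the line) uses the nodes of the
first level whose `c` is large enough. Every cell is divided into `2 ^ h` units; the jobs of the class `1`
use dyadic blocks of `2 ^ l` units.
-/

set_option autoImplicit false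

namespace Pool.Agent.RLA

open Finset Pool.Agent.BSR

/-- One level: `nd` is the list of the nodes `(lo, hi)`, for the classes up to `c`; `mx` is the largest and
`mn` the smallest size of a node, `tot` is the total size; `gs[k']` bounds the number of cells of a node
which belong to a node of the level `k'`. -/
structure Lv where
  c : ℕ
  nd : List (ℕ × ℕ)
  mx : ℕ
  tot : ℕ
  mn : ℕ
  gs : List ℕ

/-- a tree with `a` cells and the weight `w` -/
structure Tr where
  a : ℕ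
  w : ℕ
  lv : List Lv

/-- the label of the node which contains the cell `x`: left end plus one, and `0` if there is none -/
def lab : List (ℕ × ℕ) → ℕ → ℕ
  | [], _ => 0
  | I :: r, x => if I.1 ≤ x ∧ x < I.2 then I.1 + 1 else lab r x

/-- the right end of the node with the label `b` -/
def hif : List (ℕ × ℕ) → ℕ → ℕ
  | [], _ => 0
  | I :: r, b => if b = I.1 + 1 then I.2 else hif r b

/-- the index of the first level which is large enough for the class `c` -/
def lvi : List Lv → ℕ → ℕ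
  | [], _ => 0
  | L :: r, c => if c ≤ L.c then 0 else lvi r c + 1

/-- the level `k` -/
def lvl (T : Tr) (k : ℕ) : Lv := T.lv.getD k ⟨0, [], 0, 0, 0, []⟩

/-- the size of a node -/
def sz (I : ℕ × ℕ) : ℕ := I.2 - I.1

/-- the conditions on one node of a level -/
def Nk (T : Tr) (k : ℕ) (I : ℕ × ℕ) : Prop :=
  I.1 < I.2 ∧ I.1 + (lvl T k).c ≤ I.2 ∧ I.2 ≤ T.a ∧ sz I ≤ (lvl T k).mx ∧ (lvl T k).mn ≤ sz I

instance (T : Tr) (k : ℕ) (I : ℕ × ℕ) : Decidable (Nk T k I) := by unfold Nk; infer_instance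

/-- the conditions on two levels `k' ≤ k` and a node `I` of the level `k` -/
def Pk (T : Tr) (k k' : ℕ) (I : ℕ × ℕ) : Prop :=
  (∀ J ∈ (lvl T k').nd, (I.1 ≤ J.1 ∧ J.2 ≤ I.2) ∨ J.2 ≤ I.1 ∨ I.2 ≤ J.1) ∧
  (((lvl T k').nd.filter fun J => decide (I.1 ≤ J.1 ∧ J.2 ≤ I.2)).map sz).sum ≤
    (lvl T k).gs.getD k' 0

instance (T : Tr) (k k' : ℕ) (I : ℕ × ℕ) : Decidable (Pk T k k' I) := by unfold Pk; infer_instance

/-- the conditions on a tree -/
def Tk (T : Tr) : Prop :=
  0 < T.a ∧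
  (∀ c < T.a + 1, lvi T.lv c < T.lv.length ∧ c ≤ (lvl T (lvi T.lv c)).c) ∧
  ∀ k < T.lv.length, (lvl T k).nd ≠ [] ∧ (∀ I ∈ (lvl T k).nd, Nk T k I) ∧
    (lvl T k).nd.Pairwise (fun I J => I.2 ≤ J.1) ∧ ((lvl T k).nd.map sz).sum = (lvl T k).tot ∧
    ∀ k' < k + 1, ∀ I ∈ (lvl T k).nd, Pk T k k' I

instance (T : Tr) : Decidable (Tk T) := by unfold Tk; infer_instance

/-- the class of the width `s` on `m` machines: the quotient `s a / m` rounded up -/
def cls (m s a : ℕ) : ℕ := (s * a + (m - 1)) / m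

/-- the level of the width `s` inside a cell -/
noncomputable def ls (m s a h : ℕ) : ℕ := sInf {l : ℕ | s * a * 2 ^ h ≤ m * 2 ^ l}

/-- the relative size of the blocks of the width `s` inside a cell -/
noncomputable def Sz (m s a h : ℕ) : ℝ := 2 ^ ls m s a h / ((a : ℝ) * 2 ^ h)

/-- the index of the level of the width `s` -/
def kk (T : Tr) (m s : ℕ) : ℕ := lvi T.lv (cls m s T.a)

/-- the nodes for the width `s` -/
def nds (T : Tr) (m s : ℕ) : List (ℕ × ℕ) := (lvl T (kk T m s)).nd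

/-- the allowed units for the width `s` -/
noncomputable def Aw (T : Tr) (m h s : ℕ) : Finset ℕ :=
  if s * T.a ≤ m then range (T.a * 2 ^ h)
  else (range (T.a * 2 ^ h)).filter fun u => lab (nds T m s) (u / 2 ^ h) ≠ 0

/-- the block of the unit `u` for the width `s` -/
noncomputable def Bw (T : Tr) (m h s u : ℕ) : ℕ :=
  if s * T.a ≤ m then u / 2 ^ ls m s T.a h else lab (nds T m s) (u / 2 ^ h)

/-- the first unit of the block `b` -/
noncomputable def Lw (T : Tr) (m h s b : ℕ) : ℕ :=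
  if s * T.a ≤ m then b * 2 ^ ls m s T.a h else (b - 1) * 2 ^ h

/-- the end of the block `b` -/
noncomputable def Hw (T : Tr) (m h s b : ℕ) : ℕ :=
  if s * T.a ≤ m then (b + 1) * 2 ^ ls m s T.a h else hif (nds T m s) b * 2 ^ h

/-- the allowed units of the job `j` -/
noncomputable def AJ (T : Tr) (m h : ℕ) {n : ℕ} (s : Fin n → ℕ) (j : ℕ) : Finset ℕ :=
  if hj : j < n then Aw T m h (s ⟨j, hj⟩) else range (T.a * 2 ^ h)

/-- the blocks of the job `j` -/
noncomputable def BJ (T : Tr) (m h : ℕ) {n : ℕ} (s : Fin n → ℕ) (j u : ℕ) : ℕ :=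
  if hj : j < n then Bw T m h (s ⟨j, hj⟩) u else u

noncomputable def LJ (T : Tr) (m h : ℕ) {n : ℕ} (s : Fin n → ℕ) (j b : ℕ) : ℕ :=
  if hj : j < n then Lw T m h (s ⟨j, hj⟩) b else b

noncomputable def HJ (T : Tr) (m h : ℕ) {n : ℕ} (s : Fin n → ℕ) (j b : ℕ) : ℕ :=
  if hj : j < n then Hw T m h (s ⟨j, hj⟩) b else b + 1

/-- `W` is admissible as the share of the jobs of the width `s` in the tree `T` -/
def Wok (T : Tr) (m h s : ℕ) (W : ℝ) : Prop :=
  0 ≤ W ∧ (s * T.a ≤ m → Sz m s T.a h ≤ W) ∧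
  (m < s * T.a → ((lvl T (kk T m s)).mx : ℝ) / T.a ≤ W ∧
    ∀ k' ≤ kk T m s, (lvl T k').tot < T.a →
      (((lvl T (kk T m s)).gs.getD k' 0 : ℕ) : ℝ) / (lvl T k').tot -
        ((lvl T k').mn : ℝ) / (lvl T k').tot * ((s : ℝ) / m) ≤ W)

/-! ### The numbers -/

/-- the quotient rounded up -/
def cd (x y : ℕ) : ℕ := (x + (y - 1)) / y

/-- maximum of the constraints -/
def mxc (Q : ℕ) (T : Tr) (k c0 d0 : ℕ) : List ℕ → ℕ
  | [] => 0
  | k' :: r => if (lvl T k').tot < T.a then
      max (cd (Q * ((lvl T k).gs.getD k' 0 * d0 - (lvl T k').mn * c0)) ((lvl T k').tot * d0))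
        (mxc Q T k c0 d0 r)
    else mxc Q T k c0 d0 r

/-- `Q` times an upper bound for the share of the widths just above `c0/d0` -/
def wn (Q : ℕ) (T : Tr) (c0 d0 : ℕ) : ℕ :=
  if c0 * T.a < d0 then
    if 2 * c0 * T.a < d0 then cd Q (2 * T.a) else cd Q T.a
  else max (cd (Q * (lvl T (lvi T.lv (c0 * T.a / d0 + 1))).mx) T.a)
    (mxc Q T (lvi T.lv (c0 * T.a / d0 + 1)) c0 d0
      (List.range (lvi T.lv (c0 * T.a / d0 + 1) + 1)))

/-- the check for the widths between `p.1/p.2` and `q.1/q.2` -/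
def chk (Q P kn kd : ℕ) (Ts : List Tr) (p q : ℕ × ℕ) : Bool :=
  Nat.blt 0 p.2 && Nat.blt 0 q.2 &&
  Nat.ble (kd * p.2 * (Ts.map fun T => T.w * wn Q T p.1 p.2).sum) (kn * P * Q * p.1) &&
  Ts.all fun T => Nat.ble (q.1 * T.a) ((p.1 * T.a / p.2 + 1) * q.2) &&
    (Nat.ble p.2 (2 * p.1 * T.a) || Nat.ble (2 * q.1 * T.a) q.2)

/-- the check for consecutive breakpoints -/
def walk (Q P kn kd : ℕ) (Ts : List Tr) : ℕ × ℕ → List (ℕ × ℕ) → Bool
  | _, [] => true
  | p, q :: r => chk Q P kn kd Ts p q && walk Q P kn kd Ts q r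

/-- the last breakpoint -/
def lst : ℕ × ℕ → List (ℕ × ℕ) → ℕ × ℕ
  | p, [] => p
  | _, q :: r => lst q r

end Pool.Agent.RLA
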