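import Pool.Agent.RLA.Stmts

/-!
# WLK: consecutive breakpoints
-/

set_option autoImplicit false

namespace Pool.Agent.RLA

open Finset Pool.Agent.BSR

theorem x_WLK : S_WLK := by
  intro Q P kn kd Ts l
  induction l with
  | nil =>
    intro p m s _ h1 h2
    simp only [lst] at h2
    omega
  | cons q r ih =>
    intro p m s hw h1 h2
    simp only [walk, Bool.and_eq_true] at hw
    simp only [lst] at h2
    by_cases h : s * q.2 ≤ q.1 * m
    · exact ⟨p, q, hw.1, h1, h⟩
    · exact ih q m s hw.2 (by omega) h2

end Pool.Agent.RLA
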