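import Pool.Agent.RLA.Stmts

/-!
# WNM: one breakpoint (MP_e25616_lc), helper7
-/

set_option autoImplicit false

namespace Pool.Agent.RLA

open Finset Pool.Agent.BSR

namespace MWNM

theorem cd_mul (x y : ℕ) (hy : 0 < y) : x ≤ cd x y * y := by
  unfold cd
  have h1 := Nat.div_add_mod (x + (y - 1)) y
  have h2 := Nat.mod_lt (x + (y - 1)) hy
  have h3 : y * ((x + (y - 1)) / y) = (x + (y - 1)) / y * y := Nat.mul_comm _ _
  omega

theorem div_le_cd (x y : ℕ) (hy : 0 < y) : (x : ℝ) / y ≤ (cd x y : ℕ) := by
  have hy' : (0 : ℝ) < y := by exact_mod_cast hy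
  rw [div_le_iff₀ hy']
  exact_mod_cast cd_mul x y hy

theorem mxc_ge (Q : ℕ) (T : Tr) (k c0 d0 : ℕ) (k' : ℕ) (ht : (lvl T k').tot < T.a) :
    ∀ l : List ℕ, k' ∈ l →
      cd (Q * ((lvl T k).gs.getD k' 0 * d0 - (lvl T k').mn * c0)) ((lvl T k').tot * d0) ≤
        mxc Q T k c0 d0 l := by
  intro l
  induction l with
  | nil => intro h; simp at h
  | cons x r ih =>
    intro h
    rcases List.mem_cons.1 h with rfl | h
    · rw [mxc, if_pos ht]
      exact le_max_left _ _
    · have h1 := ih h
      rw [mxc]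
      split_ifs with hx
      · exact le_trans h1 (le_max_right _ _)
      · exact h1

theorem sum_map (Q : ℕ) (f : Tr → ℕ) : ∀ Ts : List Tr,
    (Ts.map fun T => (T.w : ℝ) * ((f T : ℝ) / Q)).sum =
      (((Ts.map fun T => T.w * f T).sum : ℕ) : ℝ) / Q := by
  intro Ts
  induction Ts with
  | nil => simp
  | cons T r ih =>
    rw [List.map_cons, List.sum_cons, ih, List.map_cons, List.sum_cons]
    push_cast
    ring

theorem tot_pos (T : Tr) (hT : Tk T) (k : ℕ) (hk : k < T.lv.length) : 0 < (lvl T k).tot := by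
  obtain ⟨_, _, h3⟩ := hT
  obtain ⟨hne, hN, _, hs, _⟩ := h3 k hk
  rw [← hs]
  obtain ⟨I, hI⟩ := List.exists_mem_of_ne_nil _ hne
  have h1 : 0 < sz I := by
    have := (hN I hI).1
    unfold sz
    omega
  have h2 : sz I ≤ ((lvl T k).nd.map sz).sum :=
    List.single_le_sum (fun _ _ => Nat.zero_le _) _ (List.mem_map_of_mem hI)
  omega

end MWNM

open MWNM in
theorem x_WNM (h_LSB : S_LSB) (h_SCA : S_SCA) : S_WNM := by
  intro Q P kn kd Ts p q m h s hQ hkd hTk hm hs hsm hTm hchk hp hq
  obtain ⟨c0, d0⟩ := p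
  obtain ⟨c1, d1⟩ := q
  simp only at hp hq ⊢
  unfold chk at hchk
  simp only [Bool.and_eq_true, Nat.blt_eq, Nat.ble_eq, List.all_eq_true, Bool.or_eq_true] at hchk
  obtain ⟨⟨⟨hd0, hd1⟩, hsum⟩, hall⟩ := hchk
  have hmR : (0 : ℝ) < m := by exact_mod_cast hm
  have hQR : (0 : ℝ) < Q := by exact_mod_cast hQ
  have hkdR : (0 : ℝ) < kd := by exact_mod_cast hkd
  have hd0R : (0 : ℝ) < d0 := by exact_mod_cast hd0
  have hcs : (c0 : ℝ) / d0 ≤ (s : ℝ) / m := by
    rw [div_le_div_iff₀ hd0R hmR]
    exact_mod_cast hp.le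
  constructor
  · intro T hT
    obtain ⟨hA, hB⟩ := hall T hT
    have ha : 0 < T.a := (hTk T hT).1
    have haR : (0 : ℝ) < T.a := by exact_mod_cast ha
    obtain ⟨_, _, _, _, L5, L6, _, L8, _⟩ := h_LSB m T.a h hm
    -- the class
    have hcls : cls m s T.a = c0 * T.a / d0 + 1 := by
      apply le_antisymm
      · apply L6
        have h1 : s * T.a * d1 ≤ (c0 * T.a / d0 + 1) * m * d1 := by
          calc s * T.a * d1 = (s * d1) * T.a := by ring
            _ ≤ (c1 * m) * T.a := Nat.mul_le_mul_right _ hq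
            _ = (c1 * T.a) * m := by ring
            _ ≤ ((c0 * T.a / d0 + 1) * d1) * m := Nat.mul_le_mul_right _ hA
            _ = _ := by ring
        exact Nat.le_of_mul_le_mul_right h1 hd1
      · by_contra hcon
        have h1 : cls m s T.a ≤ c0 * T.a / d0 := by omega
        have h2 : cls m s T.a * d0 ≤ c0 * T.a := (Nat.le_div_iff_mul_le hd0).1 h1
        have h3 : s * T.a * d0 ≤ c0 * T.a * m := by
          calc s * T.a * d0 ≤ (cls m s T.a * m) * d0 := Nat.mul_le_mul_right _ (L5 s)
            _ = (cls m s T.a * d0) * m := by ring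
            _ ≤ (c0 * T.a) * m := Nat.mul_le_mul_right _ h2
        have h4 : c0 * T.a * m < s * T.a * d0 := by
          calc c0 * T.a * m = (c0 * m) * T.a := by ring
            _ < (s * d0) * T.a := Nat.mul_lt_mul_of_pos_right hp ha
            _ = _ := by ring
        omega
    obtain ⟨S1, S2, _, _⟩ := h_SCA m s T.a h hm ha hs (hTm T hT)
    refine ⟨by positivity, ?_, ?_⟩
    · intro hsa
      have h1 : cls m s T.a ≤ 1 := L6 s 1 (by rw [Nat.one_mul]; exact hsa)
      have h2 : c0 * T.a / d0 = 0 := by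
        rw [hcls] at h1
        exact Nat.le_zero.1 (Nat.le_of_succ_le_succ h1)
      have h3 : c0 * T.a < d0 := by
        rcases Nat.div_eq_zero_iff.1 h2 with h | h
        · omega
        · exact h
      have hwn : wn Q T c0 d0 = if 2 * c0 * T.a < d0 then cd Q (2 * T.a) else cd Q T.a := by
        unfold wn
        rw [if_pos h3]
      rw [hwn]
      split_ifs with h4
      · have h5 : 2 * c1 * T.a ≤ d1 := by
          rcases hB with hB | hB
          · omega
          · exact hB
        have h6 : 2 * s * T.a ≤ m := by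
          have h7 : 2 * s * T.a * d1 ≤ m * d1 := by
            calc 2 * s * T.a * d1 = 2 * T.a * (s * d1) := by ring
              _ ≤ 2 * T.a * (c1 * m) := Nat.mul_le_mul_left _ hq
              _ = (2 * c1 * T.a) * m := by ring
              _ ≤ d1 * m := Nat.mul_le_mul_right _ h5
              _ = _ := by ring
          exact Nat.le_of_mul_le_mul_right h7 hd1
        refine le_trans (S2 h6) ?_
        rw [div_le_div_iff₀ (by positivity) hQR, one_mul]
        have := cd_mul Q (2 * T.a) (by omega)
        exact_mod_cast this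
      · refine le_trans (S1 hsa) ?_
        rw [div_le_div_iff₀ haR hQR, one_mul]
        have := cd_mul Q T.a ha
        exact_mod_cast this
    · intro hsa
      have h1 : 2 ≤ cls m s T.a := by
        by_contra hcon
        have h2 := L5 s
        have h3 : cls m s T.a * m ≤ 1 * m := Nat.mul_le_mul_right _ (by omega)
        omega
      have h2 : 1 ≤ c0 * T.a / d0 := by
        rw [hcls] at h1
        exact Nat.le_of_succ_le_succ h1
      have h3 : ¬ c0 * T.a < d0 := by
        intro h4
        have := Nat.div_eq_of_lt h4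
        omega
      have hkk : kk T m s = lvi T.lv (c0 * T.a / d0 + 1) := by
        unfold kk
        rw [hcls]
      have hlen : kk T m s < T.lv.length := by
        have h4 := L8 s hsm
        exact ((hTk T hT).2.1 (cls m s T.a) (by omega)).1
      have hwn : wn Q T c0 d0 = max (cd (Q * (lvl T (kk T m s)).mx) T.a)
          (mxc Q T (kk T m s) c0 d0 (List.range (kk T m s + 1))) := by
        unfold wn
        rw [if_neg h3, hkk]
      constructor
      · have h4 := div_le_cd (Q * (lvl T (kk T m s)).mx) T.a ha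
        have h5 : (cd (Q * (lvl T (kk T m s)).mx) T.a : ℝ) ≤ (wn Q T c0 d0 : ℝ) := by
          rw [hwn]
          exact_mod_cast le_max_left _ _
        rw [le_div_iff₀ hQR]
        refine le_trans (le_of_eq ?_) (le_trans h4 h5)
        push_cast
        ring
      · intro k' hk' ht
        have htp : 0 < (lvl T k').tot := tot_pos T (hTk T hT) k' (lt_of_le_of_lt hk' hlen)
        have htR : (0 : ℝ) < (lvl T k').tot := by exact_mod_cast htp
        set g := (lvl T (kk T m s)).gs.getD k' 0 with hg
        set mn := (lvl T k').mn with hmn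
        set tt := (lvl T k').tot with htt
        have h4 := mxc_ge Q T (kk T m s) c0 d0 k' ht (List.range (kk T m s + 1))
          (List.mem_range.2 (by omega))
        rw [← hg, ← hmn, ← htt] at h4
        have h5 := div_le_cd (Q * (g * d0 - mn * c0)) (tt * d0) (Nat.mul_pos htp hd0)
        have h6 : (cd (Q * (g * d0 - mn * c0)) (tt * d0) : ℝ) ≤ (wn Q T c0 d0 : ℝ) := by
          rw [hwn]
          exact_mod_cast le_trans h4 (le_max_right _ _)
        have h7 : (g : ℝ) * d0 - mn * c0 ≤ ((g * d0 - mn * c0 : ℕ) : ℝ) := by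
          have h8 : g * d0 ≤ (g * d0 - mn * c0) + mn * c0 := by omega
          have h9 : ((g * d0 : ℕ) : ℝ) ≤ (((g * d0 - mn * c0) + mn * c0 : ℕ) : ℝ) := by
            exact_mod_cast h8
          rw [Nat.cast_add, Nat.cast_mul, Nat.cast_mul] at h9
          linarith
        have h8 : (mn : ℝ) / tt * (c0 / d0) ≤ (mn : ℝ) / tt * (s / m) :=
          mul_le_mul_of_nonneg_left hcs (by positivity)
        rw [le_div_iff₀ hQR]
        have h9 : ((g : ℝ) / tt - (mn : ℝ) / tt * (s / m)) * Q ≤
            ((g : ℝ) / tt - (mn : ℝ) / tt * (c0 / d0)) * Q :=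
          mul_le_mul_of_nonneg_right (by linarith) hQR.le
        refine le_trans h9 (le_trans ?_ (le_trans h5 h6))
        have h10 : ((g : ℝ) / tt - (mn : ℝ) / tt * (c0 / d0)) * Q =
            (Q * ((g : ℝ) * d0 - mn * c0)) / (tt * d0) := by
          field_simp
        rw [h10, Nat.cast_mul, Nat.cast_mul]
        exact div_le_div_of_nonneg_right (mul_le_mul_of_nonneg_left h7 hQR.le) (by positivity)
  · rw [MWNM.sum_map]
    set S := (Ts.map fun T => T.w * wn Q T c0 d0).sum with hS
    have h1 : ((kd * d0 * S : ℕ) : ℝ) ≤ ((kn * P * Q * c0 : ℕ) : ℝ) := by exact_mod_cast hsum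
    push_cast at h1
    have h2 : (S : ℝ) / Q ≤ P * ((kn : ℝ) / kd) * (c0 / d0) := by
      have h3 : (P : ℝ) * ((kn : ℝ) / kd) * (c0 / d0) = (kn * P * c0) / (kd * d0) := by
        field_simp
      rw [h3, div_le_div_iff₀ hQR (by positivity)]
      nlinarith [h1]
    refine le_trans h2 ?_
    exact mul_le_mul_of_nonneg_left hcs (by positivity)

end Pool.Agent.RLA
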